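import Mathlib
import Pool.Agent.NTW.Sw

set_option autoImplicit false

/-!
# Traces of the switching sets on a union of glued sets (helper15)

`M i` are pairwise disjoint sets such that every class automorphism of `G` which maps every `M i` onto itself may be
restricted to one `M i` (and extended by the identity).  `G₀ = sw G B` is a switching of `G` in which these restrictions
are automorphisms.  A trace `S ∩ U` of a set `S` with `sw G₀ S` isomorphic to one of two given graphs is determined,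
up to automorphisms inside the `M i` and a complement, by the images of the `M i` under a class automorphism.
-/

namespace Pool.Agent.RGP15

open Finset Pool.Agent.NTW Pool.Agent.Lib_helper61.SwitchBasic

variable {α : Type} {ι : Type}

/-- Every class automorphism of `G` which maps every `M i` onto itself may be restricted to one `M i`: the permutation
which agrees with it on `M i` and is the identity elsewhere is again a class automorphism. -/
def Glue (G : SimpleGraph α) (M : ι → Finset α) : Prop :=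
  ∀ τ : Equiv.Perm α, IsClassAut G τ → (∀ i x, τ x ∈ M i ↔ x ∈ M i) →
    ∀ (i : ι) (κ : Equiv.Perm α), (∀ x ∈ M i, κ x = τ x) → (∀ x, x ∉ M i → κ x = x) →
      IsClassAut G κ

/-- The permutations which fix all points outside `U`, are automorphisms of `G₀` and map every `M i` to itself. -/
def KK (G₀ : SimpleGraph α) (U : Finset α) (M : ι → Finset α) : Set (Equiv.Perm α) :=
  {κ | (∀ x, x ∉ U → κ x = x) ∧ (∀ u v, G₀.Adj (κ u) (κ v) ↔ G₀.Adj u v) ∧
    ∀ i x, κ x ∈ M i ↔ x ∈ M i}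

/-- Equivalence of vertex sets. -/
def EK (G₀ : SimpleGraph α) (U : Finset α) (M : ι → Finset α) (X X' : Finset α) : Prop :=
  ∃ κ ∈ KK G₀ U M, X' = X.map κ.toEmbedding

theorem EK_equiv (G₀ : SimpleGraph α) (U : Finset α) (M : ι → Finset α) :
    Equivalence (EK G₀ U M) := by
  refine ⟨fun X => ⟨1, ⟨fun _ _ => rfl, fun _ _ => Iff.rfl, fun _ _ => Iff.rfl⟩, ?_⟩, ?_, ?_⟩
  · ext x
    rw [Finset.mem_map_equiv]
    exact Iff.rfl
  · rintro X X' ⟨τ, ⟨h1, h2, h3⟩, rfl⟩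
    refine ⟨τ.symm, ⟨?_, ?_, ?_⟩, ?_⟩
    · intro x hx
      rw [Equiv.symm_apply_eq]
      exact (h1 x hx).symm
    · intro u v
      have := h2 (τ.symm u) (τ.symm v)
      rw [Equiv.apply_symm_apply, Equiv.apply_symm_apply] at this
      exact this.symm
    · intro i x
      have := h3 i (τ.symm x)
      rw [Equiv.apply_symm_apply] at this
      exact this.symm
    · ext x
      rw [Finset.mem_map_equiv, Finset.mem_map_equiv]
      simp
  · rintro X X' X'' ⟨τ, ⟨h1, h2, h3⟩, rfl⟩ ⟨σ, ⟨g1, g2, g3⟩, rfl⟩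
    refine ⟨τ.trans σ, ⟨?_, ?_, ?_⟩, ?_⟩
    · intro x hx
      rw [Equiv.trans_apply, h1 x hx, g1 x hx]
    · intro u v
      rw [Equiv.trans_apply, Equiv.trans_apply, g2, h2]
    · intro i x
      rw [Equiv.trans_apply, g3, h3]
    · ext x
      rw [Finset.mem_map_equiv, Finset.mem_map_equiv, Finset.mem_map_equiv]
      rfl

variable [DecidableEq α]

/-- `κ` on `C`, the identity elsewhere. -/
def loc (κ : Equiv.Perm α) (C : Finset α) (hC : ∀ x, κ x ∈ C ↔ x ∈ C) : Equiv.Perm α where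
  toFun x := if x ∈ C then κ x else x
  invFun x := if x ∈ C then κ.symm x else x
  left_inv x := by
    by_cases hx : x ∈ C
    · simp [hx, (hC x).2 hx]
    · simp [hx]
  right_inv x := by
    by_cases hx : x ∈ C
    · have : κ.symm x ∈ C := by rw [← hC, Equiv.apply_symm_apply]; exact hx
      simp [hx, this]
    · simp [hx]

theorem loc_in (κ : Equiv.Perm α) (C : Finset α) (hC : ∀ x, κ x ∈ C ↔ x ∈ C) {x : α}
    (hx : x ∈ C) : loc κ C hC x = κ x := by
  show (if x ∈ C then κ x else x) = κ x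
  rw [if_pos hx]

theorem loc_out (κ : Equiv.Perm α) (C : Finset α) (hC : ∀ x, κ x ∈ C ↔ x ∈ C) {x : α}
    (hx : x ∉ C) : loc κ C hC x = x := by
  show (if x ∈ C then κ x else x) = x
  rw [if_neg hx]

theorem traces_aux1 (P Q a g s1 s2 b1 b2 : Prop) (hP : P) (hQ : Q)
    (h1 : P ∧ (a ↔ (s1 ↔ s2)) ↔ g) :
    P ∧ (a ↔ ((s1 ∧ ¬ b1 ∨ b1 ∧ ¬ s1) ↔ (s2 ∧ ¬ b2 ∨ b2 ∧ ¬ s2))) ↔ Q ∧ (g ↔ (b1 ↔ b2)) := by
  by_cases c1 : s1 <;> by_cases c2 : s2 <;> by_cases c3 : b1 <;> by_cases c4 : b2 <;>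
    by_cases c5 : a <;> simp_all

theorem traces_aux2 (P Q w w0 s1 s2 t1 t2 : Prop) (hP : P) (hQ : Q)
    (h3 : P ∧ (w ↔ (t1 ↔ t2)) ↔ Q ∧ (w0 ↔ (s1 ↔ s2))) (h4 : w ↔ w0) :
    (s1 ↔ t1) ↔ (s2 ↔ t2) := by
  by_cases c1 : s1 <;> by_cases c2 : s2 <;> by_cases c3 : t1 <;> by_cases c4 : t2 <;>
    by_cases c5 : w0 <;> simp_all

omit [DecidableEq α] in
/-- In a graph in which `x₀` (outside `C`) is joined to all or to none of the vertices of `C`, a class automorphism which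
is the identity outside `C` is an automorphism. -/
theorem aut_of_local (G₀ : SimpleGraph α) (C : Finset α) (x₀ : α) (hx₀ : x₀ ∉ C)
    (hadj : ∀ z ∈ C, ∀ w ∈ C, (G₀.Adj x₀ z ↔ G₀.Adj x₀ w)) (κ : Equiv.Perm α)
    (hκ : IsClassAut G₀ κ) (hC : ∀ x, κ x ∈ C ↔ x ∈ C) (hout : ∀ x, x ∉ C → κ x = x) (u v : α) :
    G₀.Adj (κ u) (κ v) ↔ G₀.Adj u v := by
  obtain ⟨S, hS⟩ := hκ
  have hall : ∀ y, y ∈ S ↔ x₀ ∈ S := by
    intro y
    by_cases hyx : y = x₀
    · rw [hyx]
    · by_cases hy : y ∈ C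
      · obtain ⟨z, rfl⟩ := κ.surjective y
        have hz : z ∈ C := (hC z).1 hy
        have h1 := hS x₀ z
        rw [hout x₀ hx₀, sw_adj] at h1
        have h2 := hadj z hz (κ z) hy
        have h3 : x₀ ≠ κ z := fun h => hyx h.symm
        have h4 : x₀ ≠ z := fun h => hx₀ (h ▸ hz)
        tauto
      · have h1 := hS x₀ y
        rw [hout x₀ hx₀, hout y hy, sw_adj] at h1
        have h3 : x₀ ≠ y := fun h => hyx h.symm
        tauto
  have h1 := hS u v
  rw [sw_adj, hall (κ u), hall (κ v)] at h1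
  rw [← h1]
  constructor
  · intro h
    exact ⟨h.ne, by tauto⟩
  · intro h
    exact h.2.2 Iff.rfl

theorem classAut_sw (G : SimpleGraph α) (B : Finset α) (κ : Equiv.Perm α)
    (hκ : IsClassAut G κ) : IsClassAut (sw G B) κ := by
  obtain ⟨S, hS⟩ := hκ
  refine ⟨symmDiff B (symmDiff S (B.map κ.toEmbedding)), ?_⟩
  intro u v
  have hB : ∀ w, κ w ∈ B.map κ.toEmbedding ↔ w ∈ B := by
    intro w
    rw [Finset.mem_map_equiv, Equiv.symm_apply_apply]
  have h1 := hS u v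
  rw [sw_sw, symmDiff_symmDiff_cancel_left, sw_adj, sw_adj]
  rw [sw_adj] at h1
  simp only [mem_symmDiff, hB]
  by_cases huv : u = v
  · subst huv
    simp
  · have huv' : κ u ≠ κ v := fun h => huv (κ.injective h)
    have e1 : (u ≠ v) := huv
    exact traces_aux1 _ _ _ _ _ _ _ _ huv' e1 h1

theorem classAut_unsw (G : SimpleGraph α) (B : Finset α) (κ : Equiv.Perm α)
    (hκ : IsClassAut (sw G B) κ) : IsClassAut G κ := by
  have h := classAut_sw (sw G B) B κ hκ
  rwa [sw_sw, symmDiff_self, Finset.bot_eq_empty, sw_empty] at h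

/-- Gauge. -/
theorem gauge [Fintype ι] (G : SimpleGraph α) (M : ι → Finset α)
    (hdisj : ∀ i j, i ≠ j → Disjoint (M i) (M j)) (x : ι → α) (hx : ∀ i, x i ∉ M i) :
    ∃ B : Finset α, ∀ i, ∀ z ∈ M i, ∀ w ∈ M i, ((sw G B).Adj (x i) z ↔ (sw G B).Adj (x i) w) := by
  classical
  refine ⟨univ.biUnion fun i => (M i).filter fun y => G.Adj (x i) y, ?_⟩
  intro i z hz w hw
  have hmem : ∀ y ∈ M i, (y ∈ univ.biUnion (fun i => (M i).filter fun y => G.Adj (x i) y) ↔
      G.Adj (x i) y) := by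
    intro y hy
    rw [mem_biUnion]
    constructor
    · rintro ⟨j, -, hj⟩
      rw [mem_filter] at hj
      by_cases hij : i = j
      · rw [hij]; exact hj.2
      · exact absurd hj.1 (Finset.disjoint_left.1 (hdisj i j hij) hy)
    · exact fun h => ⟨i, mem_univ _, mem_filter.2 ⟨hy, h⟩⟩
  rw [sw_adj_iff G _ (x i) z w (fun h => hx i (h ▸ hz)) (fun h => hx i (h ▸ hw)), hmem z hz,
    hmem w hw]

theorem loc_mem (G₀ : SimpleGraph α) (U : Finset α) (M : ι → Finset α)
    (hdisj : ∀ i j, i ≠ j → Disjoint (M i) (M j)) (hglue : Glue G₀ M)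
    (x : ι → α) (hx : ∀ i, x i ∉ M i)
    (hadj : ∀ i, ∀ z ∈ M i, ∀ w ∈ M i, (G₀.Adj (x i) z ↔ G₀.Adj (x i) w))
    (τ : Equiv.Perm α) (hτ : IsClassAut G₀ τ) (hτM : ∀ i x, τ x ∈ M i ↔ x ∈ M i) (i : ι)
    (hMU : M i ⊆ U) :
    loc τ (M i) (hτM i) ∈ KK G₀ U M := by
  have hin : ∀ y, loc τ (M i) (hτM i) y ∈ M i ↔ y ∈ M i := by
    intro y
    by_cases hy : y ∈ M i
    · rw [loc_in τ (M i) (hτM i) hy]
      exact hτM i y
    · rw [loc_out τ (M i) (hτM i) hy]
  refine ⟨?_, ?_, ?_⟩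
  · intro y hy
    exact loc_out τ (M i) (hτM i) (fun h => hy (hMU h))
  · exact aut_of_local G₀ (M i) (x i) (hx i) (hadj i) _
      (hglue τ hτ hτM i _ (fun y hy => loc_in τ (M i) (hτM i) hy)
        (fun y hy => loc_out τ (M i) (hτM i) hy)) hin
      (fun y hy => loc_out τ (M i) (hτM i) hy)
  · intro j y
    by_cases hij : i = j
    · subst hij
      exact hin y
    · by_cases hy : y ∈ M i
      · have hd := Finset.disjoint_left.1 (hdisj i j hij)
        exact ⟨fun h => absurd h (hd ((hin y).2 hy)), fun h => absurd h (hd hy)⟩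
      · rw [loc_out τ (M i) (hτM i) hy]

/-- The comparison of two traces with the same images of the sets `M i`. -/
theorem pair (G₀ : SimpleGraph α) (U : Finset α) (M : ι → Finset α) (J : Finset ι)
    (hdisj : ∀ i j, i ≠ j → Disjoint (M i) (M j)) (hMU : ∀ i ∈ J, M i ⊆ U)
    (hUM : ∀ x ∈ U, ∃ i ∈ J, x ∈ M i) (hglue : Glue G₀ M)
    (x : ι → α) (hx : ∀ i, x i ∉ M i)
    (hadj : ∀ i, ∀ z ∈ M i, ∀ w ∈ M i, (G₀.Adj (x i) z ↔ G₀.Adj (x i) w))
    (htwo : ∀ i, ∃ v ∈ U, v ∉ M i) (S S' : Finset α) (lam : Equiv.Perm α)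
    (hlam : ∀ i x, lam x ∈ M i ↔ x ∈ M i)
    (hiso : ∀ u v, (sw G₀ S').Adj (lam u) (lam v) ↔ (sw G₀ S).Adj u v) :
    ((∀ u ∈ U, (u ∈ S ↔ lam u ∈ S')) ∨ (∀ u ∈ U, ¬ (u ∈ S ↔ lam u ∈ S'))) ∧
    ((∀ u ∈ U, (u ∈ S ↔ lam u ∈ S')) →
      ∀ i ∈ J, EK G₀ U M ((S ∩ U) ∩ M i) ((S' ∩ U) ∩ M i)) := by
  classical
  have hcl : IsClassAut G₀ lam := by
    have := classAut_of_iso G₀ S S' ⟨lam, by intro a b; exact hiso a b⟩
    exact this
  have hloc := fun i hi => loc_mem G₀ U M hdisj hglue x hx hadj lam hcl hlam i (hMU i hi)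
  have hout : ∀ i ∈ J, ∀ u ∈ M i, ∀ v, v ∉ M i → (G₀.Adj (lam u) v ↔ G₀.Adj u v) := by
    intro i hi u hu v hv
    have h := (hloc i hi).2.1 u v
    rwa [loc_in lam (M i) (hlam i) hu, loc_out lam (M i) (hlam i) hv] at h
  have hcross : ∀ i ∈ J, ∀ j ∈ J, i ≠ j → ∀ u ∈ M i, ∀ v ∈ M j,
      ((u ∈ S ↔ lam u ∈ S') ↔ (v ∈ S ↔ lam v ∈ S')) := by
    intro i hi j hj hij u hu v hv
    have hvi : v ∉ M i := fun h => Finset.disjoint_left.1 (hdisj i j hij) h hv
    have huj : lam u ∉ M j := fun h =>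
      Finset.disjoint_left.1 (hdisj i j hij) ((hlam i u).2 hu) h
    have h1 : G₀.Adj (lam u) v ↔ G₀.Adj u v := hout i hi u hu v hvi
    have h2 : G₀.Adj (lam v) (lam u) ↔ G₀.Adj v (lam u) := hout j hj v hv (lam u) huj
    have h3 := hiso u v
    rw [sw_adj, sw_adj] at h3
    have huv : u ≠ v := fun h => hvi (h ▸ hu)
    have huv' : lam u ≠ lam v := fun h => huv (lam.injective h)
    rw [G₀.adj_comm, G₀.adj_comm v] at h2
    have h4 := h2.trans h1
    exact traces_aux2 _ _ _ _ _ _ _ _ huv' huv h3 h4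
  have hall : ∀ u ∈ U, ∀ v ∈ U, ((u ∈ S ↔ lam u ∈ S') ↔ (v ∈ S ↔ lam v ∈ S')) := by
    intro u hu v hv
    obtain ⟨i, hiJ, hi⟩ := hUM u hu
    obtain ⟨j, hjJ, hj⟩ := hUM v hv
    by_cases hij : i = j
    · subst hij
      obtain ⟨w, hw, hwi⟩ := htwo i
      obtain ⟨k, hkJ, hk⟩ := hUM w hw
      have hik : i ≠ k := fun h => hwi (h ▸ hk)
      exact (hcross i hiJ k hkJ hik u hi w hk).trans (hcross i hiJ k hkJ hik v hj w hk).symm
    · exact hcross i hiJ j hjJ hij u hi v hj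
  constructor
  · by_cases hex : ∃ u ∈ U, (u ∈ S ↔ lam u ∈ S')
    · obtain ⟨u, hu, h⟩ := hex
      left
      exact fun v hv => (hall u hu v hv).1 h
    · right
      push Not at hex
      intro u hu h
      have := hex u hu
      tauto
  · intro hS i hiJ
    refine ⟨loc lam (M i) (hlam i), hloc i hiJ, ?_⟩
    ext y
    rw [Finset.mem_map_equiv]
    constructor
    · intro hy0
      rw [mem_inter, mem_inter] at hy0
      have hy : lam.symm y ∈ M i := by rw [← hlam, Equiv.apply_symm_apply]; exact hy0.2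
      have he : (loc lam (M i) (hlam i)).symm y = lam.symm y := by
        rw [Equiv.symm_apply_eq, loc_in lam (M i) (hlam i) hy, Equiv.apply_symm_apply]
      rw [he, mem_inter, mem_inter]
      refine ⟨⟨?_, hMU i hiJ hy⟩, hy⟩
      rw [hS _ (hMU i hiJ hy), Equiv.apply_symm_apply]
      exact hy0.1.1
    · intro hy0
      obtain ⟨z, rfl⟩ := (loc lam (M i) (hlam i)).surjective y
      rw [Equiv.symm_apply_apply, mem_inter, mem_inter] at hy0
      rw [loc_in lam (M i) (hlam i) hy0.2, mem_inter, mem_inter]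
      refine ⟨⟨?_, hMU i hiJ ((hlam i z).2 hy0.2)⟩, (hlam i z).2 hy0.2⟩
      rw [← hS z hy0.1.2]
      exact hy0.1.1

end Pool.Agent.RGP15
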