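import Mathlib
import Pool.Agent.RGP15.Ten
import Pool.Agent.RGP15.Traces
import Pool.Agent.NTW.MHOM

set_option autoImplicit false

/-!
# The image bound (helper15)
-/

namespace Pool.Agent.RGP15

open Finset Pool.Agent.NTW Pool.Agent.Lib_helper61.SwitchBasic

variable {α : Type} {ι : Type}

/-- The images of the tuple of sets `M` under the class automorphisms of `G`. -/
def Images (G : SimpleGraph α) (M : ι → Finset α) : Set (ι → Finset α) :=
  {Φ | ∃ σ : Equiv.Perm α, IsClassAut G σ ∧ Φ = fun i => (M i).map σ.toEmbedding}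

theorem classAut_one (G : SimpleGraph α) : IsClassAut G 1 := by
  classical
  refine ⟨∅, fun u v => ?_⟩
  rw [sw_empty]
  exact Iff.rfl

/-- The upper bound for the number of traces. -/
theorem traces_le [Fintype α] [DecidableEq α] [Fintype ι] (G : SimpleGraph α) (B : Finset α)
    (K H : SimpleGraph α) (U : Finset α) (M : ι → Finset α) (J : Finset ι)
    (hdisj : ∀ i j, i ≠ j → Disjoint (M i) (M j)) (hMU : ∀ i ∈ J, M i ⊆ U)
    (hUM : ∀ x ∈ U, ∃ i ∈ J, x ∈ M i) (hglue : Glue (sw G B) M)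
    (x : ι → α) (hx : ∀ i, x i ∉ M i)
    (hadj : ∀ i, ∀ z ∈ M i, ∀ w ∈ M i, ((sw G B).Adj (x i) z ↔ (sw G B).Adj (x i) w))
    (htwo : ∀ i, ∃ v ∈ U, v ∉ M i) (u₀ : α) (hu₀ : u₀ ∈ U) (𝒯 : Finset (Finset α))
    (hT : ∀ X ∈ 𝒯, ∃ S : Finset α, S ∩ U = X ∧
      (Nonempty (sw (sw G B) S ≃g K) ∨ Nonempty (sw (sw G B) S ≃g H)))
    (hsep : ∀ X ∈ 𝒯, ∀ X' ∈ 𝒯, (∀ i ∈ J, EK (sw G B) U M (X ∩ M i) (X' ∩ M i)) → X = X') :
    𝒯.card ≤ 4 * (Images G M).ncard := by
  classical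
  have hch : ∀ X ∈ 𝒯, ∃ (S : Finset α) (b : Bool) (σ : Equiv.Perm α), S ∩ U = X ∧
      ∀ u v : α, (if b = true then K else H).Adj (σ u) (σ v) ↔ (sw (sw G B) S).Adj u v := by
    intro X hX
    obtain ⟨S, hS, h⟩ := hT X hX
    rcases h with ⟨⟨e⟩⟩ | ⟨⟨e⟩⟩
    · exact ⟨S, true, e.toEquiv, hS, fun u v => e.map_rel_iff⟩
    · exact ⟨S, false, e.toEquiv, hS, fun u v => e.map_rel_iff⟩
  choose! S b σ hS hσ using hch
  -- reference permutations
  have href : ∃ ρ : Bool → Equiv.Perm α, ∀ X ∈ 𝒯, ∃ X₁ ∈ 𝒯, b X₁ = b X ∧ ρ (b X) = σ X₁ := by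
    have h1 : ∀ c : Bool, ∃ ρ : Equiv.Perm α, ∀ X ∈ 𝒯, b X = c → ∃ X₁ ∈ 𝒯, b X₁ = b X ∧
        ρ = σ X₁ := by
      intro c
      by_cases h : ∃ X₁ ∈ 𝒯, b X₁ = c
      · obtain ⟨X₁, hX₁, hb⟩ := h
        exact ⟨σ X₁, fun X _ hXb => ⟨X₁, hX₁, hb.trans hXb.symm, rfl⟩⟩
      · exact ⟨1, fun X hX hXb => absurd ⟨X, hX, hXb⟩ h⟩
    choose ρ hρ using h1
    exact ⟨ρ, fun X hX => hρ (b X) X hX rfl⟩
  obtain ⟨ρ, hρ⟩ := href
  set Ψ : Finset α → Bool × (ι → Finset α) := fun X =>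
    (b X, fun i => (M i).map ((σ X).trans (ρ (b X)).symm).toEmbedding) with hΨ
  set Q : Finset (ι → Finset α) := (Set.toFinite (Images G M)).toFinset with hQ
  have hQc : Q.card = (Images G M).ncard := (Set.ncard_eq_toFinset_card _ _).symm
  have himg : 𝒯.image Ψ ⊆ (univ : Finset Bool) ×ˢ Q := by
    intro y hy
    obtain ⟨X, hX, rfl⟩ := mem_image.1 hy
    rw [mem_product]
    refine ⟨mem_univ _, ?_⟩
    rw [hQ, Set.Finite.mem_toFinset]
    obtain ⟨X₁, hX₁, hb, hr⟩ := hρ X hX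
    refine ⟨(σ X).trans (ρ (b X)).symm, ?_, rfl⟩
    have hiso : ∀ u v : α, (sw (sw G B) (S X₁)).Adj (((σ X).trans (ρ (b X)).symm) u)
        (((σ X).trans (ρ (b X)).symm) v) ↔ (sw (sw G B) (S X)).Adj u v := by
      intro u v
      rw [← hσ X₁ hX₁, ← hσ X hX, hb, hr]
      simp only [Equiv.trans_apply, Equiv.apply_symm_apply]
    exact classAut_unsw G B _ (classAut_of_iso (sw G B) (S X) (S X₁)
      ⟨(σ X).trans (ρ (b X)).symm, by intro u v; exact hiso u v⟩)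
  have hfib : ∀ y ∈ 𝒯.image Ψ, (𝒯.filter fun X => Ψ X = y).card ≤ 2 := by
    intro y _
    by_contra hc
    push Not at hc
    obtain ⟨X₁, h1, X₂, h2, X₃, h3, h12, h13, h23⟩ := Finset.two_lt_card.1 hc
    rw [mem_filter] at h1 h2 h3
    -- comparison of two members of the fibre
    have key : ∀ X ∈ 𝒯, ∀ X' ∈ 𝒯, Ψ X = Ψ X' → X ≠ X' →
        (∀ i y, ((σ X).trans (σ X').symm) y ∈ M i ↔ y ∈ M i) ∧
        ∀ u ∈ U, ¬ (u ∈ S X ↔ ((σ X).trans (σ X').symm) u ∈ S X') := by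
      intro X hX X' hX' hΨX hne
      have hb : b X = b X' := congrArg Prod.fst hΨX
      have hm : ∀ i, (M i).map ((σ X).trans (ρ (b X)).symm).toEmbedding =
          (M i).map ((σ X').trans (ρ (b X')).symm).toEmbedding := fun i =>
        congrFun (congrArg Prod.snd hΨX) i
      have hlam : ∀ i y, ((σ X).trans (σ X').symm) y ∈ M i ↔ y ∈ M i := by
        intro i y
        have e1 : y ∈ M i ↔ ((σ X).trans (ρ (b X)).symm) y ∈
            (M i).map ((σ X).trans (ρ (b X)).symm).toEmbedding := by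
          rw [Finset.mem_map_equiv, Equiv.symm_apply_apply]
        rw [e1, hm i, Finset.mem_map_equiv, ← hb]
        simp [Equiv.trans_apply]
      have hiso : ∀ u v, (sw (sw G B) (S X')).Adj (((σ X).trans (σ X').symm) u)
          (((σ X).trans (σ X').symm) v) ↔ (sw (sw G B) (S X)).Adj u v := by
        intro u v
        rw [← hσ X' hX', ← hσ X hX, hb]
        simp only [Equiv.trans_apply, Equiv.apply_symm_apply]
      obtain ⟨hd, hE⟩ := pair (sw G B) U M J hdisj hMU hUM hglue x hx hadj htwo (S X) (S X')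
        ((σ X).trans (σ X').symm) hlam hiso
      refine ⟨hlam, ?_⟩
      rcases hd with hd | hd
      · exfalso
        apply hne
        refine hsep X hX X' hX' fun i hi => ?_
        have := hE hd i hi
        rwa [hS X hX, hS X' hX'] at this
      · exact hd
    obtain ⟨hl12, k12⟩ := key X₁ h1.1 X₂ h2.1 (h1.2.trans h2.2.symm) h12
    obtain ⟨hl13, k13⟩ := key X₁ h1.1 X₃ h3.1 (h1.2.trans h3.2.symm) h13
    obtain ⟨hl23, k23⟩ := key X₂ h2.1 X₃ h3.1 (h2.2.trans h3.2.symm) h23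
    have hU12 : ((σ X₁).trans (σ X₂).symm) u₀ ∈ U := by
      obtain ⟨i, hi, hui⟩ := hUM u₀ hu₀
      exact hMU i hi ((hl12 i u₀).2 hui)
    have a1 := k12 u₀ hu₀
    have a2 := k13 u₀ hu₀
    have a3 := k23 _ hU12
    have e : ((σ X₂).trans (σ X₃).symm) (((σ X₁).trans (σ X₂).symm) u₀) =
        ((σ X₁).trans (σ X₃).symm) u₀ := by
      simp only [Equiv.trans_apply, Equiv.apply_symm_apply]
    rw [e] at a3
    tauto
  have h1 := Finset.card_le_mul_card_image 𝒯 2 hfib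
  have h2 : (𝒯.image Ψ).card ≤ 2 * Q.card := by
    refine (Finset.card_le_card himg).trans ?_
    rw [card_product]
    simp
  rw [hQc] at h2
  omega

end Pool.Agent.RGP15
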