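import Mathlib
import Pool.Agent.RGP15.Bound

set_option autoImplicit false

/-!
# The image bound: assembly (helper15)
-/

namespace Pool.Agent.RGP15

open Finset Pool.Agent.NTW Pool.Agent.Lib_helper61.SwitchBasic

variable {α : Type} {ι : Type}

theorem images_pos [Fintype α] [Fintype ι] [DecidableEq α] (G : SimpleGraph α)
    (M : ι → Finset α) : 1 ≤ (Images G M).ncard := by
  classical
  have h : (fun i => (M i).map (1 : Equiv.Perm α).toEmbedding) ∈ Images G M :=
    ⟨1, classAut_one G, rfl⟩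
  exact (Set.ncard_pos (Set.toFinite _)).2 ⟨_, h⟩

theorem glue_sw [DecidableEq α] (G : SimpleGraph α) (B : Finset α) (M : ι → Finset α)
    (h : Glue G M) : Glue (sw G B) M := fun τ hτ hM i κ h1 h2 =>
  classAut_sw G B κ (h τ (classAut_unsw G B τ hτ) hM i κ h1 h2)

/-- **The image bound.** -/
theorem image_bound [Fintype α] [DecidableEq α] [Fintype ι] (G H : SimpleGraph α)
    (hdeck : SameDeck G H) (hne : ¬ Nonempty (G ≃g H)) (M : ι → Finset α)
    (hdisj : ∀ i j, i ≠ j → Disjoint (M i) (M j)) (hglue : Glue G M) (J : Finset ι) (s : ℕ)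
    (hs : ∀ i ∈ J, (M i).card ≤ s) :
    2 ^ ((J.biUnion M).card - (J.biUnion M).card / 2) ≤ (4 * (Images G M).ncard) ^ s := by
  classical
  set U := J.biUnion M with hU
  set q := (Images G M).ncard with hq
  have hq1 : 1 ≤ q := images_pos G M
  have hMU : ∀ i ∈ J, M i ⊆ U := fun i hi => Finset.subset_biUnion_of_mem M hi
  have hUM : ∀ x ∈ U, ∃ i ∈ J, x ∈ M i := fun x hx => Finset.mem_biUnion.1 hx
  rcases U.eq_empty_or_nonempty with h0 | ⟨u₀, hu₀⟩
  · rw [h0, card_empty]
    exact Nat.one_le_pow _ _ (by omega)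
  obtain ⟨i₀, hi₀, hui₀⟩ := hUM u₀ hu₀
  by_cases hone : ∃ i, U ⊆ M i
  · -- all of `U` in one set
    obtain ⟨i, hi⟩ := hone
    have hii : i = i₀ := by
      by_contra hne'
      exact Finset.disjoint_left.1 (hdisj i i₀ hne') (hi hu₀) hui₀
    have hc : U.card ≤ s := (Finset.card_le_card hi).trans (by rw [hii]; exact hs i₀ hi₀)
    calc 2 ^ (U.card - U.card / 2) ≤ 2 ^ s := Nat.pow_le_pow_right (by norm_num) (by omega)
      _ ≤ (4 * q) ^ s := Nat.pow_le_pow_left (by omega) s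
  push Not at hone
  have htwo : ∀ i, ∃ v ∈ U, v ∉ M i := fun i => Finset.not_subset.1 (hone i)
  have hs1 : 1 ≤ s := (Finset.card_pos.2 ⟨u₀, hui₀⟩).trans_le (hs i₀ hi₀)
  choose x hxU hx using htwo
  obtain ⟨B, hadj⟩ := gauge G M hdisj x hx
  have hglue₀ := glue_sw G B M hglue
  set G₀ := sw G B with hG₀
  -- the function
  set φ : Finset α → ℚ := fun T => ff G H (symmDiff B T) with hφ
  have hsw : ∀ T, sw G (symmDiff B T) = sw G₀ T := fun T => (sw_sw _ _ _).symm
  have hφsum : ∀ S, ∑ i : α, φ (symmDiff S {i}) = 0 := by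
    intro S
    have h1 := sum_ff hdeck (symmDiff B S)
    rw [← h1]
    refine Finset.sum_congr rfl fun i _ => ?_
    simp only [hφ]
    rw [symmDiff_assoc]
  have hφne : ∃ X, φ X ≠ 0 := by
    refine ⟨B, ?_⟩
    obtain ⟨T, hT⟩ := exists_sw hdeck u₀
    have h1 : 0 < cnt G H := cnt_pos G H T hT
    simp only [hφ]
    rw [symmDiff_self, Finset.bot_eq_empty, ff_empty hne]
    exact h1.ne'
  have hφinv : ∀ τ : Equiv.Perm α, (∀ u v, G₀.Adj (τ u) (τ v) ↔ G₀.Adj u v) →
      ∀ T, φ (T.map τ.toEmbedding) = φ T := by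
    intro τ hτ T
    simp only [hφ, ff, hsw]
    have e : ∀ K, ind (sw G₀ (T.map τ.toEmbedding)) K = ind (sw G₀ T) K := fun K =>
      (ind_congr_left K ⟨isoSw (K := G₀) (L := G₀) ⟨τ, by intro a b; exact hτ a b⟩ T⟩).symm
    rw [e, e]
  have hφor : ∀ T, φ T ≠ 0 → Nonempty (sw G₀ T ≃g G) ∨ Nonempty (sw G₀ T ≃g H) := by
    intro T hT
    by_contra hc
    push Not at hc
    apply hT
    simp only [hφ, ff, hsw]
    rw [ind_of_not _ _ (not_nonempty_iff.2 hc.1), ind_of_not _ _ (not_nonempty_iff.2 hc.2)]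
    ring
  obtain ⟨h, hdeg, hnz, hsupp, hinv⟩ := t_HOM α φ hφsum hφne U
  -- labels
  have hrep : ∀ i, ∃ y, (M i).Nonempty → y ∈ M i := by
    intro i
    rcases (M i).eq_empty_or_nonempty with h0 | ⟨y, hy⟩
    · exact ⟨u₀, fun hh => absurd hh (by rw [h0]; simp)⟩
    · exact ⟨y, fun _ => hy⟩
  choose rep hrep using hrep
  have hlab : ∃ lab : α → α, ∀ i, ∀ x ∈ M i, lab x = rep i := by
    refine ⟨fun x => if h : ∃ i, x ∈ M i then rep h.choose else x, ?_⟩
    intro i x hxi
    have hex : ∃ i, x ∈ M i := ⟨i, hxi⟩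
    have h1 : hex.choose = i := by
      by_contra hne'
      exact Finset.disjoint_left.1 (hdisj _ _ hne') hex.choose_spec hxi
    show (if h : ∃ i, x ∈ M i then rep h.choose else x) = rep i
    rw [dif_pos hex, h1]
  obtain ⟨lab, hlab⟩ := hlab
  have hlabi : ∀ i, ∀ x ∈ M i, ∀ y ∈ U, (lab y = lab x ↔ y ∈ M i) := by
    intro i x hxi y hy
    obtain ⟨j, -, hyj⟩ := hUM y hy
    rw [hlab i x hxi]
    constructor
    · intro h1
      rw [hlab j y hyj] at h1
      have h2 := hrep j ⟨y, hyj⟩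
      have h3 := hrep i ⟨x, hxi⟩
      by_cases hij : i = j
      · rw [hij]; exact hyj
      · rw [h1] at h2
        exact absurd h2 (Finset.disjoint_left.1 (hdisj i j hij) h3)
    · intro h1
      rw [hlab i y h1]
  have hlift : ∀ κ ∈ KK G₀ U M, ∀ i ∈ J, ∃ κ' ∈ KK G₀ U M, (∀ x ∈ M i, κ' x = κ x) ∧
      ∀ x, x ∉ M i → κ' x = x := by
    intro κ hκ i hi
    have hcl : IsClassAut G₀ κ := ⟨∅, fun u v => by rw [sw_empty]; exact hκ.2.1 u v⟩
    exact ⟨loc κ (M i) (hκ.2.2 i), loc_mem G₀ U M hdisj hglue₀ x hx hadj κ hcl hκ.2.2 i (hMU i hi),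
      fun y hy => loc_in κ (M i) (hκ.2.2 i) hy, fun y hy => loc_out κ (M i) (hκ.2.2 i) hy⟩
  obtain ⟨𝒯, hT1, hT2, hT3⟩ := tenu_small U lab (EK G₀ U M) s hs1 (EK_equiv G₀ U M)
    (by
      rintro X X' ⟨τ, -, rfl⟩
      rw [card_map])
    (by
      intro i'
      by_cases hex : ∃ x ∈ U, lab x = i'
      · obtain ⟨x, hxU', hxl⟩ := hex
        obtain ⟨i, hi, hxi⟩ := hUM x hxU'
        refine (Finset.card_le_card ?_).trans (hs i hi)
        intro y hy
        rw [mem_filter] at hy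
        exact (hlabi i x hxi y hy.1).1 (hy.2.trans hxl.symm)
      · rw [Finset.filter_eq_empty_iff.2 (fun {y} hy hyl => hex ⟨y, hy, hyl⟩), card_empty]
        exact Nat.zero_le _)
    h (U.card / 2)
    (by
      rintro i' X X' Y hXU hX'U hYU ⟨κ, hκ, rfl⟩ hX hY
      rcases X.eq_empty_or_nonempty with h0 | ⟨x₁, hx₁⟩
      · rw [h0]
        simp
      · obtain ⟨i, hi, hx₁i⟩ := hUM x₁ (hXU hx₁)
        have hXi : ∀ y ∈ X, y ∈ M i := fun y hy =>
          (hlabi i x₁ hx₁i y (hXU hy)).1 ((hX y hy).trans (hX x₁ hx₁).symm)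
        have hYi : ∀ y ∈ Y, y ∉ M i := by
          intro y hy hyi
          exact hY y hy (((hlabi i x₁ hx₁i y (hYU hy)).2 hyi).trans (hX x₁ hx₁))
        obtain ⟨κ', hκ', hk1, hk2⟩ := hlift κ hκ i hi
        have hmap : ∀ Z : Finset α, (∀ y ∈ Z, y ∉ M i) →
            (X ∪ Z).map κ'.toEmbedding = X.map κ.toEmbedding ∪ Z := by
          intro Z hZ
          rw [Finset.map_union]
          congr 1
          · ext y
            rw [Finset.mem_map, Finset.mem_map]
            constructor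
            · rintro ⟨z, hz, rfl⟩
              exact ⟨z, hz, (hk1 z (hXi z hz)).symm⟩
            · rintro ⟨z, hz, rfl⟩
              exact ⟨z, hz, hk1 z (hXi z hz)⟩
          · ext y
            rw [Finset.mem_map]
            constructor
            · rintro ⟨z, hz, rfl⟩
              have : κ' z = z := hk2 z (hZ z hz)
              show κ' z ∈ Z
              rw [this]
              exact hz
            · intro hy
              exact ⟨y, hy, hk2 y (hZ y hy)⟩
        refine hinv (X ∪ Y) (union_subset hXU hYU) (X.map κ.toEmbedding ∪ Y)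
          (union_subset hX'U hYU) ?_ ?_
        · rw [← hmap Y hYi, card_map]
        · intro Z hZ
          have hZi : ∀ y ∈ Y ∪ Z, y ∉ M i := by
            intro y hy
            rcases mem_union.1 hy with h1 | h1
            · exact hYi y h1
            · exact fun h2 => Finset.disjoint_left.1 hZ h1 (hMU i hi h2)
          rw [union_assoc, union_assoc, ← hmap (Y ∪ Z) hZi, hφinv κ' hκ'.2.1])
    hdeg hnz
  refine hT3.trans (Nat.pow_le_pow_left ?_ s)
  refine traces_le G B G H U M J hdisj hMU hUM hglue₀ x hx hadj (fun i => ⟨x i, hxU i, hx i⟩)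
    u₀ hu₀ 𝒯 ?_ ?_
  · intro X hX
    obtain ⟨hXU, hhX⟩ := hT1 X hX
    obtain ⟨Y, hY, hYne⟩ := hsupp X hXU hhX
    refine ⟨X ∪ Y, ?_, hφor _ hYne⟩
    rw [union_inter_distrib_right, inter_eq_left.2 hXU, Finset.disjoint_iff_inter_eq_empty.1 hY,
      union_empty]
  · intro X hX X' hX' hE
    refine hT2 X hX X' hX' fun i' => ?_
    by_cases hex : ∃ x ∈ U, lab x = i'
    · obtain ⟨x, hxU', rfl⟩ := hex
      obtain ⟨i, hi, hxi⟩ := hUM x hxU'
      have hfil : ∀ Z ⊆ U, (Z.filter fun y => lab y = lab x) = Z ∩ M i := by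
        intro Z hZ
        ext y
        rw [mem_filter, mem_inter]
        constructor
        · exact fun hy => ⟨hy.1, (hlabi i x hxi y (hZ hy.1)).1 hy.2⟩
        · exact fun hy => ⟨hy.1, (hlabi i x hxi y (hZ hy.1)).2 hy.2⟩
      rw [hfil X (hT1 X hX).1, hfil X' (hT1 X' hX').1]
      exact hE i hi
    · have hemp : ∀ Z ⊆ U, (Z.filter fun y => lab y = i') = ∅ := by
        intro Z hZ
        exact Finset.filter_eq_empty_iff.2 (fun {y} hy hyl => hex ⟨y, hZ hy, hyl⟩)
      rw [hemp X (hT1 X hX).1, hemp X' (hT1 X' hX').1]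
      exact (EK_equiv G₀ U M).refl ∅

end Pool.Agent.RGP15
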