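import Mathlib
import Pool.Agent.RGP15.Main

set_option autoImplicit false

/-!
# The image bound: consequences (helper15)
-/

namespace Pool.Agent.RGP15

open Finset Pool.Agent.NTW Pool.Agent.Lib_helper61.SwitchBasic

variable {α : Type} {ι : Type}

theorem classAut_mul [DecidableEq α] {G : SimpleGraph α} {σ τ : Equiv.Perm α}
    (hσ : IsClassAut G σ) (hτ : IsClassAut G τ) : IsClassAut G (σ.trans τ) := by
  obtain ⟨S, hS⟩ := hσ
  obtain ⟨T, hT⟩ := hτ
  refine ⟨symmDiff T (S.map τ.toEmbedding), fun u v => ?_⟩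
  have h1 : (sw (sw G T) (S.map τ.toEmbedding)).Adj (τ (σ u)) (τ (σ v)) ↔
      (sw G S).Adj (σ u) (σ v) :=
    (isoSw (K := G) (L := sw G T) ⟨τ, by intro a b; exact hT a b⟩ S).map_rel_iff'
  rw [sw_sw] at h1
  exact h1.trans (hS u v)

theorem classAut_symm [DecidableEq α] {G : SimpleGraph α} {σ : Equiv.Perm α}
    (hσ : IsClassAut G σ) : IsClassAut G σ.symm := by
  obtain ⟨S, hS⟩ := hσ
  refine ⟨S.map σ.symm.toEmbedding, fun u v => ?_⟩
  have h1 : (sw G (S.map σ.symm.toEmbedding)).Adj (σ.symm u) (σ.symm v) ↔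
      (sw (sw G S) S).Adj u v :=
    (isoSw (K := sw G S) (L := G) ⟨σ.symm, by
      intro a b
      have := hS (σ.symm a) (σ.symm b)
      rw [Equiv.apply_symm_apply, Equiv.apply_symm_apply] at this
      exact this.symm⟩ S).map_rel_iff'
  rw [sw_sw, symmDiff_self, Finset.bot_eq_empty, sw_empty] at h1
  exact h1

theorem xor_aux (a b c A' B' A B C D : Prop) (h2 : (A' ↔ (c ↔ a)) ↔ A) (h3 : (B' ↔ (c ↔ b)) ↔ B)
    (h4 : (C ↔ D) ↔ (A' ↔ B')) : ((A ↔ C) ↔ (B ↔ D)) ↔ (a ↔ b) := by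
  rw [← h2, ← h3]
  by_cases hC : C <;> by_cases hD : D <;> by_cases hA : A' <;> by_cases hB : B' <;>
    simp only [hC, hD, hA, hB, true_iff, iff_true, false_iff, iff_false, not_true, iff_self] at h4 ⊢ <;>
    by_cases ha : a <;> by_cases hb : b <;> by_cases hc : c <;> simp [ha, hb, hc]

theorem both_in (a b c A' B' A B C D P Q : Prop) (h1 : (P ↔ (a ↔ b)) ↔ Q)
    (h2 : (A' ↔ (c ↔ a)) ↔ A) (h3 : (B' ↔ (c ↔ b)) ↔ B) (h4 : (C ↔ D) ↔ (A' ↔ B')) :
    (P ↔ (¬ (A ↔ C) ↔ ¬ (B ↔ D))) ↔ Q := by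
  rw [not_iff_not, xor_aux a b c A' B' A B C D h2 h3 h4]
  exact h1

theorem one_in (P Q A C s t : Prop) (h1 : (Q ↔ P) ↔ (A ↔ C)) (h2 : s ↔ ¬ (A ↔ C)) (h3 : ¬ t) :
    (P ↔ (s ↔ t)) ↔ Q := by
  have ht : t ↔ False := iff_false_intro h3
  rw [ht, h2]
  by_cases hA : A <;> by_cases hC : C <;> by_cases hP : P <;> by_cases hQ : Q <;>
    simp [hA, hC, hP, hQ] at h1 ⊢

theorem one_in' (P Q A C s t : Prop) (h1 : (Q ↔ P) ↔ (A ↔ C)) (h2 : t ↔ ¬ (A ↔ C)) (h3 : ¬ s) :
    (P ↔ (s ↔ t)) ↔ Q := by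
  have ht : s ↔ False := iff_false_intro h3
  rw [ht, h2]
  by_cases hA : A <;> by_cases hC : C <;> by_cases hP : P <;> by_cases hQ : Q <;>
    simp [hA, hC, hP, hQ] at h1 ⊢

theorem ne_drop (n : Prop) (X Q : Prop) (hn : n) (h : (n ∧ X) ↔ Q) : X ↔ Q :=
  ⟨fun hx => h.1 ⟨hn, hx⟩, fun hq => (h.2 hq).2⟩

/-- Disjoint modules up to switching may be glued (disjointness is not needed here). -/
theorem glue_of_mod [DecidableEq α] (G : SimpleGraph α) (M : ι → Finset α)
    (hmod : ∀ i, IsMod G (M i)) : Glue G M := by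
  classical
  intro τ hτ hM i κ hin hout
  by_cases hex : ∃ x₀, x₀ ∉ M i
  · obtain ⟨x₀, hx₀⟩ := hex
    obtain ⟨T, hT⟩ := hτ
    have hτx₀ : τ x₀ ∉ M i := fun h => hx₀ ((hM i x₀).1 h)
    refine ⟨(M i).filter fun z => ¬ (G.Adj x₀ (κ.symm z) ↔ G.Adj x₀ z), fun u v => ?_⟩
    by_cases huv : u = v
    · subst huv
      simp
    have huvκ : κ u ≠ κ v := fun h => huv (κ.injective h)
    have hκM : ∀ z ∈ M i, κ z ∈ M i := fun z hz => by rw [hin z hz]; exact (hM i z).2 hz
    have hmemS : ∀ z ∈ M i, (κ z ∈ (M i).filter (fun z => ¬ (G.Adj x₀ (κ.symm z) ↔ G.Adj x₀ z)) ↔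
        ¬ (G.Adj x₀ z ↔ G.Adj x₀ (κ z))) := by
      intro z hz
      rw [mem_filter, Equiv.symm_apply_apply]
      exact ⟨fun h => h.2, fun h => ⟨hκM z hz, h⟩⟩
    have hnotS : ∀ z, z ∉ M i → (κ z ∉ (M i).filter
        (fun z => ¬ (G.Adj x₀ (κ.symm z) ↔ G.Adj x₀ z))) := by
      intro z hz
      rw [hout z hz, mem_filter]
      exact fun h => hz h.1
    -- separation by a vertex outside does not depend on the vertex
    have hsep : ∀ y ∉ M i, ∀ y' ∉ M i, ∀ z ∈ M i, ∀ w ∈ M i,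
        ((G.Adj y z ↔ G.Adj y w) ↔ (G.Adj y' z ↔ G.Adj y' w)) := by
      intro y hy y' hy' z hz w hw
      rcases hmod i z hz w hw with h | h
      · exact ⟨fun _ => h y' hy', fun _ => h y hy⟩
      · exact ⟨fun h1 => absurd h1 (h y hy), fun h1 => absurd h1 (h y' hy')⟩
    rw [sw_adj]
    by_cases hu : u ∈ M i
    · by_cases hv : v ∈ M i
      · rw [hmemS u hu, hmemS v hv]
        have h1 := hT u v
        have h2 := hT x₀ u
        have h3 := hT x₀ v
        rw [sw_adj] at h1 h2 h3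
        have n1 : τ u ≠ τ v := fun h => huv (τ.injective h)
        have n2 : τ x₀ ≠ τ u := fun h => hx₀ (by rw [τ.injective h]; exact hu)
        have n3 : τ x₀ ≠ τ v := fun h => hx₀ (by rw [τ.injective h]; exact hv)
        have h4 := hsep x₀ hx₀ (τ x₀) hτx₀ (τ u) ((hM i u).2 hu) (τ v) ((hM i v).2 hv)
        rw [hin u hu, hin v hv]
        have key := both_in _ _ _ _ _ _ _ _ _ _ _ (ne_drop _ _ _ n1 h1) (ne_drop _ _ _ n2 h2)
          (ne_drop _ _ _ n3 h3) h4
        exact ⟨fun h => key.1 h.2, fun h => ⟨n1, key.2 h⟩⟩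
      · have h1 := hsep v hv x₀ hx₀ u hu (κ u) (hκM u hu)
        have h2 := hmemS u hu
        have h3 := hnotS v hv
        have n1 : κ u ≠ v := fun h => hv (h ▸ hκM u hu)
        rw [hout v hv] at h3 huvκ ⊢
        rw [G.adj_comm (κ u) v, G.adj_comm u v]
        have key := one_in _ _ _ _ _ _ h1 h2 h3
        exact ⟨fun h => key.1 h.2, fun h => ⟨n1, key.2 h⟩⟩
    · by_cases hv : v ∈ M i
      · have h1 := hsep u hu x₀ hx₀ v hv (κ v) (hκM v hv)
        have h2 := hmemS v hv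
        have h3 := hnotS u hu
        have n1 : u ≠ κ v := fun h => hu (h ▸ hκM v hv)
        rw [hout u hu] at h3 huvκ ⊢
        have key := one_in' _ _ _ _ _ _ h1 h2 h3
        exact ⟨fun h => key.1 h.2, fun h => ⟨n1, key.2 h⟩⟩
      · have h2 := hnotS u hu
        have h3 := hnotS v hv
        rw [hout u hu] at h2 ⊢
        rw [hout v hv] at h3 ⊢
        have e : ((u ∈ (M i).filter fun z => ¬ (G.Adj x₀ (κ.symm z) ↔ G.Adj x₀ z)) ↔
            (v ∈ (M i).filter fun z => ¬ (G.Adj x₀ (κ.symm z) ↔ G.Adj x₀ z))) :=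
          ⟨fun h => absurd h h2, fun h => absurd h h3⟩
        exact ⟨fun h => h.2.2 e, fun h => ⟨huv, ⟨fun _ => e, fun _ => h⟩⟩⟩
  · push Not at hex
    have : κ = τ := Equiv.ext fun x => hin x (hex x)
    rw [this]
    exact hτ

theorem glue_single [DecidableEq α] (G : SimpleGraph α) (U : Finset α) :
    Glue G (fun u : {x // x ∈ U} => ({u.1} : Finset α)) := by
  apply glue_of_mod
  rintro i z hz w hw
  rw [mem_singleton] at hz hw
  subst hz
  subst hw
  exact Or.inl fun _ _ => Iff.rfl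

/-- The restrictions of the class automorphisms to `U`. -/
def Rest (G : SimpleGraph α) (U : Finset α) : Set ({x // x ∈ U} → α) :=
  {φ | ∃ σ : Equiv.Perm α, IsClassAut G σ ∧ ∀ u, φ u = σ u}

/-- **Local bound.** -/
theorem local_bound [Fintype α] [DecidableEq α] (G H : SimpleGraph α)
    (hdeck : SameDeck G H) (hne : ¬ Nonempty (G ≃g H)) (U : Finset α) :
    2 ^ (U.card - U.card / 2) ≤ 4 * (Rest G U).ncard := by
  classical
  have h := image_bound G H hdeck hne (fun u : {x // x ∈ U} => ({u.1} : Finset α))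
    (by
      intro i j hij
      rw [disjoint_singleton]
      exact fun h => hij (Subtype.ext h))
    (glue_single G U) univ 1 (fun i _ => by rw [card_singleton])
  have hU : (univ : Finset {x // x ∈ U}).biUnion (fun u => ({u.1} : Finset α)) = U := by
    ext x
    rw [mem_biUnion]
    constructor
    · rintro ⟨u, -, hu⟩
      rw [mem_singleton] at hu
      rw [hu]
      exact u.2
    · intro hx
      exact ⟨⟨x, hx⟩, mem_univ _, mem_singleton_self _⟩
  rw [hU, pow_one] at h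
  refine h.trans (Nat.mul_le_mul_left 4 ?_)
  have himg : Images G (fun u : {x // x ∈ U} => ({u.1} : Finset α)) ⊆
      (fun (φ : {x // x ∈ U} → α) (u : {x // x ∈ U}) => ({φ u} : Finset α)) '' (Rest G U) := by
    rintro Φ ⟨σ, hσ, rfl⟩
    refine ⟨fun u => σ u, ⟨σ, hσ, fun _ => rfl⟩, ?_⟩
    funext u
    show ({σ u.1} : Finset α) = ({u.1} : Finset α).map σ.toEmbedding
    rw [map_singleton]
    rfl
  exact (Set.ncard_le_ncard himg (Set.toFinite _)).trans (Set.ncard_image_le (Set.toFinite _))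

/-- **Rigid part.** -/
theorem rigid_part [Fintype α] [DecidableEq α] (G H : SimpleGraph α)
    (hdeck : SameDeck G H) (hne : ¬ Nonempty (G ≃g H)) (R U : Finset α)
    (hRU : ∀ σ : Equiv.Perm α, IsClassAut G σ → (∀ r ∈ R, σ r = r) → ∀ u ∈ U, σ u = u) :
    2 ^ (U.card - U.card / 2) ≤ 4 * Fintype.card α ^ R.card := by
  classical
  refine (local_bound G H hdeck hne U).trans (Nat.mul_le_mul_left 4 ?_)
  have hch : ∀ φ : Rest G U, ∃ σ : Equiv.Perm α, IsClassAut G σ ∧ ∀ u, φ.1 u = σ u :=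
    fun φ => φ.2
  choose σ hσ hφ using hch
  have hinj : Function.Injective (fun (φ : Rest G U) (r : {x // x ∈ R}) => σ φ r.1) := by
    intro φ ψ h
    have h1 : ∀ r ∈ R, ((σ φ).trans (σ ψ).symm) r = r := by
      intro r hr
      have := congrFun h ⟨r, hr⟩
      simp only at this
      rw [Equiv.trans_apply, this, Equiv.symm_apply_apply]
    have h2 := hRU _ (classAut_mul (hσ φ) (classAut_symm (hσ ψ))) h1
    apply Subtype.ext
    funext u
    rw [hφ φ u, hφ ψ u]
    have h3 := h2 u.1 u.2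
    rw [Equiv.trans_apply, Equiv.symm_apply_eq] at h3
    exact h3
  have h4 := Nat.card_le_card_of_injective _ hinj
  rw [Nat.card_coe_set_eq] at h4
  refine h4.trans ?_
  rw [Nat.card_eq_fintype_card, Fintype.card_fun, Fintype.card_coe]

/-- **Sets of arbitrary sizes.** -/
theorem size_free [Fintype α] [DecidableEq α] [Fintype ι] (G H : SimpleGraph α)
    (hdeck : SameDeck G H) (hne : ¬ Nonempty (G ≃g H)) (M : ι → Finset α)
    (hdisj : ∀ i j, i ≠ j → Disjoint (M i) (M j)) (hglue : Glue G M)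
    (hnon : ∀ i, (M i).Nonempty) :
    2 ^ Fintype.card ι ≤ (4 * (Images G M).ncard) ^ (4 * (Nat.clog 2 (Fintype.card α) + 1)) := by
  classical
  set L := Nat.clog 2 (Fintype.card α) with hL
  set q := (Images G M).ncard with hq
  have hpL : Fintype.card α ≤ 2 ^ L := Nat.le_pow_clog (by norm_num) _
  -- size classes
  set J : ℕ → Finset ι := fun a => univ.filter fun i => Nat.log 2 (M i).card = a with hJ
  have hpos : ∀ i, (M i).card ≠ 0 := fun i => (Finset.card_pos.2 (hnon i)).ne'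
  have hlog : ∀ i, Nat.log 2 (M i).card < L + 1 := by
    intro i
    have h1 : (M i).card ≤ 2 ^ L := (Finset.card_le_univ _).trans hpL
    have h2 : Nat.log 2 (M i).card ≤ Nat.log 2 (2 ^ L) := Nat.log_mono_right h1
    rw [Nat.log_pow (by norm_num)] at h2
    omega
  have hcls : ∀ a, 2 ^ (J a).card ≤ (4 * q) ^ 4 := by
    intro a
    have h1 := image_bound G H hdeck hne M hdisj hglue (J a) (2 ^ (a + 1)) (by
      intro i hi
      rw [hJ, mem_filter] at hi
      rw [← hi.2]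
      exact (Nat.lt_pow_succ_log_self (by norm_num) _).le)
    have h2 : (J a).card * 2 ^ a ≤ ((J a).biUnion M).card := by
      rw [Finset.card_biUnion (fun i _ j _ hij => hdisj i j hij)]
      rw [← smul_eq_mul, ← Finset.sum_const]
      refine Finset.sum_le_sum fun i hi => ?_
      rw [hJ, mem_filter] at hi
      rw [← hi.2]
      exact Nat.pow_log_le_self 2 (hpos i)
    set u := ((J a).biUnion M).card with hu
    have h3 : 2 ^ ((J a).card * 2 ^ a) ≤ (2 ^ (u - u / 2)) ^ 2 := by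
      rw [← pow_mul]
      exact Nat.pow_le_pow_right (by norm_num) (by omega)
    have h4 : (2 ^ (u - u / 2)) ^ 2 ≤ ((4 * q) ^ 4) ^ (2 ^ a) := by
      calc (2 ^ (u - u / 2)) ^ 2 ≤ ((4 * q) ^ (2 ^ (a + 1))) ^ 2 := Nat.pow_le_pow_left h1 2
        _ = ((4 * q) ^ 4) ^ (2 ^ a) := by
          rw [← pow_mul, ← pow_mul]
          congr 1
          rw [pow_succ]
          ring
    have h5 : (2 ^ (J a).card) ^ (2 ^ a) ≤ ((4 * q) ^ 4) ^ (2 ^ a) := by
      rw [← pow_mul]
      exact h3.trans h4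
    exact (Nat.pow_le_pow_iff_left (by positivity)).1 h5
  have hsum : Fintype.card ι = ∑ a ∈ range (L + 1), (J a).card := by
    rw [← Finset.card_univ]
    exact Finset.card_eq_sum_card_fiberwise (fun i _ => by simpa using hlog i)
  rw [hsum, ← Finset.prod_pow_eq_pow_sum]
  calc ∏ a ∈ range (L + 1), 2 ^ (J a).card ≤ ∏ _a ∈ range (L + 1), (4 * q) ^ 4 :=
        Finset.prod_le_prod' fun a _ => hcls a
    _ = (4 * q) ^ (4 * (L + 1)) := by
      rw [Finset.prod_const, card_range, ← pow_mul]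

end Pool.Agent.RGP15
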