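import Mathlib

/-!
# Automorphisms of 2-connected graphs of maximum degree three: tools
-/

set_option autoImplicit false

namespace Pool.Agent.RGP15.Cub

open Finset

variable {β : Type} [Fintype β] [DecidableEq β]

/-- The automorphism `g` fixes `E` pointwise. -/
def Fx (H : SimpleGraph β) (E : Finset β) (g : H ≃g H) : Prop := ∀ e ∈ E, g e = e

/-- Number of automorphisms that fix `E` pointwise. -/
noncomputable def st (H : SimpleGraph β) (E : Finset β) : ℕ :=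
  Nat.card {g : H ≃g H // Fx H E g}

instance (H : SimpleGraph β) : Finite (H ≃g H) :=
  Finite.of_injective (fun g => (g : β → β)) DFunLike.coe_injective

theorem st_eq {H : SimpleGraph β} {A E : Finset β} (h : ∀ g, Fx H A g ↔ Fx H E g) :
    st H A = st H E :=
  Nat.card_congr (Equiv.subtypeEquivRight h)

theorem st_empty (H : SimpleGraph β) : st H ∅ = Nat.card (H ≃g H) :=
  Nat.card_congr (Equiv.subtypeUnivEquiv (by intro g e he; simp at he))

theorem orb (H : SimpleGraph β) (E T : Finset β) (u : β)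
    (hT : ∀ g : H ≃g H, Fx H E g → g u ∈ T) : st H E ≤ T.card * st H (insert u E) := by
  classical
  have hex : ∀ t : T, ∃ h : H ≃g H, (∃ g : H ≃g H, Fx H E g ∧ g u = t) → (Fx H E h ∧ h u = t) := by
    intro t
    by_cases hg : ∃ g : H ≃g H, Fx H E g ∧ g u = t
    · obtain ⟨g, hg1⟩ := hg
      exact ⟨g, fun _ => hg1⟩
    · exact ⟨RelIso.refl _, fun h => absurd h hg⟩
  choose k hk using hex
  have hk' : ∀ g : {g : H ≃g H // Fx H E g},
      Fx H (insert u E) (g.1.trans (k ⟨g.1 u, hT g.1 g.2⟩).symm) := by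
    intro g e he
    obtain ⟨h1, h2⟩ := hk ⟨g.1 u, hT g.1 g.2⟩ ⟨g.1, g.2, rfl⟩
    show (k ⟨g.1 u, hT g.1 g.2⟩).symm (g.1 e) = e
    rw [RelIso.symm_apply_eq]
    rcases mem_insert.1 he with rfl | he
    · exact h2.symm
    · rw [g.2 e he, h1 e he]
  let F : {g : H ≃g H // Fx H E g} → T × {g : H ≃g H // Fx H (insert u E) g} := fun g =>
    (⟨g.1 u, hT g.1 g.2⟩, ⟨g.1.trans (k ⟨g.1 u, hT g.1 g.2⟩).symm, hk' g⟩)
  have hF : Function.Injective F := by
    intro g g' hg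
    have h1 : (⟨g.1 u, hT g.1 g.2⟩ : T) = ⟨g'.1 u, hT g'.1 g'.2⟩ := congrArg Prod.fst hg
    have h2 : g.1.trans (k ⟨g.1 u, hT g.1 g.2⟩).symm = g'.1.trans (k ⟨g'.1 u, hT g'.1 g'.2⟩).symm :=
      congrArg Subtype.val (congrArg Prod.snd hg)
    rw [h1] at h2
    apply Subtype.ext
    ext x
    have h3 : (k ⟨g'.1 u, hT g'.1 g'.2⟩).symm (g.1 x) = (k ⟨g'.1 u, hT g'.1 g'.2⟩).symm (g'.1 x) :=
      DFunLike.congr_fun h2 x
    exact (k ⟨g'.1 u, hT g'.1 g'.2⟩).symm.injective h3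
  have h4 := Nat.card_le_card_of_injective F hF
  rw [Nat.card_prod, Nat.card_eq_fintype_card (α := T), Fintype.card_coe] at h4
  exact h4

/-- Maximum degree three, 2-connected (in terms of cuts). -/
structure Cu (H : SimpleGraph β) : Prop where
  deg : ∀ v, ∀ S : Finset β, (∀ x ∈ S, H.Adj v x) → S.card ≤ 3
  con : ∀ S : Finset β, S.Nonempty → (∃ y, y ∉ S) → ∃ a ∈ S, ∃ b, b ∉ S ∧ H.Adj a b
  cut : ∀ r : β, ∀ S : Finset β, r ∉ S → S.Nonempty → (∃ y, y ∉ S ∧ y ≠ r) →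
    ∃ a ∈ S, ∃ b, b ∉ S ∧ b ≠ r ∧ H.Adj a b

theorem Cu.nbr {H : SimpleGraph β} (h : Cu H) {v a b c x : β} (ha : H.Adj v a) (hb : H.Adj v b)
    (hc : H.Adj v c) (hab : a ≠ b) (hac : a ≠ c) (hbc : b ≠ c) (hx : H.Adj v x) :
    x = a ∨ x = b ∨ x = c := by
  by_contra hne
  push Not at hne
  obtain ⟨h1, h2, h3⟩ := hne
  have h4 := h.deg v {x, a, b, c} (by
    intro y hy
    simp only [mem_insert, mem_singleton] at hy
    rcases hy with rfl | rfl | rfl | rfl <;> assumption)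
  rw [card_insert_of_notMem (by simp [h1, h2, h3]), card_insert_of_notMem (by simp [hab, hac]),
    card_insert_of_notMem (by simp [hbc]), card_singleton] at h4
  omega

theorem adj_g {H : SimpleGraph β} (g : H ≃g H) {x y : β} (h : H.Adj x y) : H.Adj (g x) (g y) :=
  g.map_rel_iff.2 h

/-- The pair of outside neighbours of a vertex of `E`. -/
theorem pair {H : SimpleGraph β} (h : Cu H) {E : Finset β}
    (clo : ∀ v, v ∉ E → (∃ e ∈ E, H.Adj e v) → ∃ g : H ≃g H, Fx H E g ∧ g v ≠ v)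
    (nb : ∀ y ∈ E, ∃ p ∈ E, H.Adj y p) {w u : β} (hw : w ∈ E) (hu : u ∉ E) (hwu : H.Adj w u) :
    ∃ u' p, u' ∉ E ∧ u' ≠ u ∧ p ∈ E ∧ H.Adj w p ∧ H.Adj w u' ∧
      (∀ x, H.Adj w x → x = p ∨ x = u ∨ x = u') ∧
      ∃ g : H ≃g H, Fx H E g ∧ g u = u' ∧ g u' = u := by
  obtain ⟨g, hg, hgu⟩ := clo u hu ⟨w, hw, hwu⟩
  obtain ⟨p, hp, hwp⟩ := nb w hw
  have hgE : g u ∉ E := fun hc => hgu (g.injective (hg _ hc))
  have hwu' : H.Adj w (g u) := by
    have h1 := adj_g g hwu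
    rwa [hg w hw] at h1
  have hpu : p ≠ u := fun hc => hu (hc ▸ hp)
  have hpu' : p ≠ g u := fun hc => hgE (hc ▸ hp)
  have hN : ∀ x, H.Adj w x → x = p ∨ x = u ∨ x = g u := fun x hx =>
    h.nbr hwp hwu hwu' hpu hpu' (Ne.symm hgu) hx
  refine ⟨g u, p, hgE, hgu, hp, hwp, hwu', hN, g, hg, rfl, ?_⟩
  have h1 : H.Adj w (g (g u)) := by
    have h1 := adj_g g hwu'
    rwa [hg w hw] at h1
  rcases hN _ h1 with h2 | h2 | h2
  · exfalso
    apply hpu'
    apply g.injective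
    rw [h2, hg p hp]
  · exact h2
  · exact absurd (g.injective h2) hgu

theorem clos {H : SimpleGraph β} (A A0 : Finset β) (hA : A ⊆ A0)
    (h0 : ∀ g, Fx H A g → Fx H A0 g) (hn : ∀ y ∈ A0, ∃ p ∈ A0, H.Adj y p) :
    ∃ E, A0 ⊆ E ∧ (∀ g, Fx H A g ↔ Fx H E g) ∧ (∀ y ∈ E, ∃ p ∈ E, H.Adj y p) ∧
      ∀ v, v ∉ E → (∃ e ∈ E, H.Adj e v) → ∃ g : H ≃g H, Fx H E g ∧ g v ≠ v := by
  classical
  obtain ⟨E, hE, hmax⟩ := exists_max_image
    ((univ : Finset β).powerset.filter fun E => A0 ⊆ E ∧ (∀ g, Fx H A g → Fx H E g) ∧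
      ∀ y ∈ E, ∃ p ∈ E, H.Adj y p) card
    ⟨A0, mem_filter.2 ⟨mem_powerset.2 (subset_univ _), Subset.refl _, h0, hn⟩⟩
  obtain ⟨-, h1, h2, h3⟩ := mem_filter.1 hE
  refine ⟨E, h1, fun g => ⟨h2 g, fun hg e he => hg e (h1 (hA he))⟩, h3, ?_⟩
  intro v hv ⟨e, he, hev⟩
  by_contra hc
  push Not at hc
  have h4 := hmax (insert v E) (mem_filter.2 ⟨mem_powerset.2 (subset_univ _),
    h1.trans (subset_insert _ _), fun g hg x hx => by
      rcases mem_insert.1 hx with rfl | hx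
      · exact hc g (h2 g hg)
      · exact h2 g hg x hx, fun y hy => by
      rcases mem_insert.1 hy with rfl | hy
      · exact ⟨e, mem_insert_of_mem he, hev.symm⟩
      · obtain ⟨p, hp, hyp⟩ := h3 y hy
        exact ⟨p, mem_insert_of_mem hp, hyp⟩⟩)
  rw [card_insert_of_notMem hv] at h4
  omega

open Classical in
/-- Vertices at distance one or two (and `y` itself). -/
noncomputable def B (H : SimpleGraph β) (y : β) : Finset β :=
  univ.filter fun x => H.Adj y x ∨ ∃ z, H.Adj y z ∧ H.Adj z x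

theorem mem_B {H : SimpleGraph β} {y x : β} : x ∈ B H y ↔ H.Adj y x ∨ ∃ z, H.Adj y z ∧ H.Adj z x := by
  simp [B]

theorem card_B {H : SimpleGraph β} (h : Cu H) (y : β) : (B H y).card ≤ 12 := by
  classical
  have hN : ∀ z, (univ.filter (H.Adj z)).card ≤ 3 := fun z =>
    h.deg z _ fun x hx => (mem_filter.1 hx).2
  have h1 : B H y ⊆ (univ.filter (H.Adj y)).biUnion fun z => insert z (univ.filter (H.Adj z)) := by
    intro x hx
    rw [mem_biUnion]
    rcases mem_B.1 hx with hx | ⟨z, hz, hx⟩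
    · exact ⟨x, mem_filter.2 ⟨mem_univ _, hx⟩, mem_insert_self _ _⟩
    · exact ⟨z, mem_filter.2 ⟨mem_univ _, hz⟩, mem_insert_of_mem (mem_filter.2 ⟨mem_univ _, hx⟩)⟩
  calc (B H y).card ≤ _ := card_le_card h1
    _ ≤ (univ.filter (H.Adj y)).card * 4 := card_biUnion_le_card_mul _ _ _ fun z _ =>
        (card_insert_le _ _).trans (by have := hN z; omega)
    _ ≤ 12 := by have := hN y; omega

open Classical in
/-- The vertices of `E` with a neighbour outside `E`. -/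
noncomputable def act (H : SimpleGraph β) (E : Finset β) : Finset β :=
  univ.filter fun v => v ∈ E ∧ ∃ x, x ∉ E ∧ H.Adj v x

theorem mem_act {H : SimpleGraph β} {E : Finset β} {v : β} :
    v ∈ act H E ↔ v ∈ E ∧ ∃ x, x ∉ E ∧ H.Adj v x := by
  simp [act]

theorem act_le {H : SimpleGraph β} (h : Cu H) {E E' : Finset β} (hE : E ⊆ E') :
    (act H E).card ≤ (act H E').card + 3 * (E' \ E).card := by
  classical
  have hN : ∀ z, (univ.filter (H.Adj z)).card ≤ 3 := fun z =>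
    h.deg z _ fun x hx => (mem_filter.1 hx).2
  have h1 : act H E ⊆ act H E' ∪ (E' \ E).biUnion fun z => univ.filter (H.Adj z) := by
    intro v hv
    obtain ⟨hvE, x, hx, hvx⟩ := mem_act.1 hv
    rw [mem_union, mem_biUnion]
    by_cases hxE : x ∈ E'
    · exact Or.inr ⟨x, mem_sdiff.2 ⟨hxE, hx⟩, mem_filter.2 ⟨mem_univ _, hvx.symm⟩⟩
    · exact Or.inl (mem_act.2 ⟨hE hvE, x, hxE, hvx⟩)
  calc (act H E).card ≤ _ := card_le_card h1
    _ ≤ (act H E').card + ((E' \ E).biUnion fun z => univ.filter (H.Adj z)).card :=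
        card_union_le _ _
    _ ≤ (act H E').card + (E' \ E).card * 3 := by
        gcongr
        exact card_biUnion_le_card_mul _ _ _ fun z _ => hN z
    _ = _ := by ring

end Pool.Agent.RGP15.Cub
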