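import Pool.Agent.RGP15.Cubic1

/-!
# Automorphisms of 2-connected graphs of maximum degree three: the invariants
-/

set_option autoImplicit false

namespace Pool.Agent.RGP15.Cub

open Finset

variable {β : Type} [Fintype β] [DecidableEq β]

/-- Explored set `E`, marked vertices `M`. -/
structure State (H : SimpleGraph β) (E M : Finset β) : Prop where
  clo : ∀ v, v ∉ E → (∃ e ∈ E, H.Adj e v) → ∃ g : H ≃g H, Fx H E g ∧ g v ≠ v
  nb : ∀ y ∈ E, ∃ p ∈ E, H.Adj y p
  sub : M ⊆ E
  tw : ∀ u u', u ∉ E → u' ∉ E → u ≠ u' →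
    (∀ y, y ≠ u → y ≠ u' → (H.Adj u y ↔ H.Adj u' y)) →
    (∀ y, H.Adj u y → y ≠ u' → y ∈ E) → ∃ y ∈ M, u ∈ B H y ∧ u' ∈ B H y
  dg : ∀ u u' z v q w, u ∉ E → u' ∉ E → z ∉ E → v ∉ E → q ∈ E → w ∈ E → u ≠ u' → z ≠ v →
    H.Adj u z → H.Adj u v → H.Adj u w → H.Adj u' z → H.Adj u' v → H.Adj u' w →
    H.Adj q z → H.Adj q v → q ∈ M ∨ w ∈ M

theorem gout {H : SimpleGraph β} {E : Finset β} {g : H ≃g H} (hg : Fx H E g) {x : β}
    (hx : x ∉ E) : g x ∉ E := fun hc => hx (by
  have h1 : g x = x := g.injective (hg _ hc)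
  rwa [h1] at hc)

theorem gnb {H : SimpleGraph β} (h : Cu H) {E : Finset β} {g : H ≃g H} (hg : Fx H E g)
    (nb : ∀ y ∈ E, ∃ p ∈ E, H.Adj y p) {w u u' : β} (hw : w ∈ E) (hu : u ∉ E) (hu' : u' ∉ E)
    (hne : u ≠ u') (hwu : H.Adj w u) (hwu' : H.Adj w u') : g u = u ∨ g u = u' := by
  obtain ⟨p, hp, hwp⟩ := nb w hw
  have h1 : H.Adj w (g u) := by
    have h1 := adj_g g hwu
    rwa [hg w hw] at h1
  have h2 := gout hg hu
  rcases h.nbr hwp hwu hwu' (fun hc => hu (hc ▸ hp)) (fun hc => hu' (hc ▸ hp)) hne h1 with h3 | h3 | h3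
  · exact absurd (h3 ▸ hp) h2
  · exact Or.inl h3
  · exact Or.inr h3

theorem pres {H : SimpleGraph β} (h : Cu H) {E M E' M' : Finset β} (hS : State H E M)
    {r s s' p : β} (hr : r ∈ E) (hp : p ∈ E) (hs : s ∉ E) (hs' : s' ∉ E) (hss : s ≠ s')
    (hrp : H.Adj r p) (hrs : H.Adj r s) (hrs' : H.Adj r s') {g : H ≃g H} (hg : Fx H E g)
    (hgs : g s = s') (hgs' : g s' = s) (hEE : E ⊆ E') (hsE : s ∈ E') (hsE' : s' ∈ E')
    (clo : ∀ v, v ∉ E' → (∃ e ∈ E', H.Adj e v) → ∃ g : H ≃g H, Fx H E' g ∧ g v ≠ v)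
    (nb : ∀ y ∈ E', ∃ p ∈ E', H.Adj y p) (hM : M ⊆ M') (hM' : M' ⊆ E')
    (hx : ∀ y ∈ E', y ∉ E → y ≠ s → y ≠ s' → y ∈ M') : State H E' M' := by
  refine ⟨clo, nb, hM', ?_, ?_⟩
  · intro u u' hu hu' huu T K
    have hu1 : u ∉ E := fun hc => hu (hEE hc)
    have hu1' : u' ∉ E := fun hc => hu' (hEE hc)
    by_cases hK : ∀ y, H.Adj u y → y ≠ u' → y ∈ E
    · obtain ⟨y, hy, h1⟩ := hS.tw u u' hu1 hu1' huu T hK
      exact ⟨y, hM hy, h1⟩
    push Not at hK
    obtain ⟨z, huz, hzu', hzE⟩ := hK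
    by_contra hno
    have tws : ∀ y, H.Adj u y → y ≠ u' → H.Adj u' y := fun y h1 h2 => (T y h1.ne' h2).1 h1
    have c1 : ∀ y, H.Adj u y → y ≠ u' → y ∉ E → y = s ∨ y = s' := by
      intro y h1 h2 h3
      by_contra hc
      push Not at hc
      apply hno
      exact ⟨y, hx y (K y h1 h2) h3 hc.1 hc.2, mem_B.2 (Or.inl h1.symm),
        mem_B.2 (Or.inl (tws y h1 h2).symm)⟩
    have hsu : s ≠ u := fun hc => hu (hc ▸ hsE)
    have hsu' : s ≠ u' := fun hc => hu' (hc ▸ hsE)
    have hs'u : s' ≠ u := fun hc => hu (hc ▸ hsE')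
    have hs'u' : s' ≠ u' := fun hc => hu' (hc ▸ hsE')
    have c2 : H.Adj u s ∧ H.Adj u s' := by
      by_cases hw : ∃ w ∈ E, H.Adj u w
      · obtain ⟨w, hwE, huw⟩ := hw
        have hwu' : w ≠ u' := fun hc => hu1' (hc ▸ hwE)
        have h1 := gnb h hg hS.nb hwE hu1 hu1' huu huw.symm (tws w huw hwu').symm
        have h2 : ∀ x, H.Adj u x → g x ≠ u → g x ≠ u' → H.Adj u (g x) := by
          intro x hux h3 h4
          have h5 := adj_g g hux
          rcases h1 with h6 | h6
          · rwa [h6] at h5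
          · rw [h6] at h5
            exact (T _ h3 h4).2 h5
        rcases c1 z huz hzu' hzE with rfl | rfl
        · refine ⟨huz, ?_⟩
          have h3 := h2 z huz
          rw [hgs] at h3
          exact h3 hs'u hs'u'
        · refine ⟨?_, huz⟩
          have h3 := h2 z huz
          rw [hgs'] at h3
          exact h3 hsu hsu'
      · push Not at hw
        obtain ⟨a, ha, b, hb, hbz, hab⟩ := h.cut z {u, u'}
          (by simp only [mem_insert, mem_singleton, not_or]; exact ⟨huz.ne', hzu'⟩)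
          ⟨u, mem_insert_self _ _⟩ ⟨r, by
            simp only [mem_insert, mem_singleton, not_or]
            exact ⟨fun hc => hu1 (hc ▸ hr), fun hc => hu1' (hc ▸ hr)⟩, fun hc => hzE (hc ▸ hr)⟩
        simp only [mem_insert, mem_singleton, not_or] at ha hb
        have hub : H.Adj u b := by
          rcases ha with rfl | rfl
          · exact hab
          · exact (T b hb.1 hb.2).2 hab
        have hbE : b ∉ E := fun hc => hw b hc hub
        rcases c1 b hub hb.2 hbE with rfl | rfl <;> rcases c1 z huz hzu' hzE with rfl | rfl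
        · exact absurd rfl hbz
        · exact ⟨hub, huz⟩
        · exact ⟨huz, hub⟩
        · exact absurd rfl hbz
    obtain ⟨hus, hus'⟩ := c2
    have hu's := tws s hus hsu'
    have hu's' := tws s' hus' hs'u'
    by_cases hw : ∃ w ∈ E, H.Adj u w
    · obtain ⟨w, hwE, huw⟩ := hw
      have hwu' : w ≠ u' := fun hc => hu1' (hc ▸ hwE)
      have hu'w := tws w huw hwu'
      apply hno
      rcases hS.dg u u' s s' r w hu1 hu1' hs hs' hr hwE huu hss hus hus' huw hu's hu's' hu'w hrs hrs'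
        with h1 | h1
      · exact ⟨r, hM h1, mem_B.2 (Or.inr ⟨s, hrs, hus.symm⟩), mem_B.2 (Or.inr ⟨s, hrs, hu's.symm⟩)⟩
      · exact ⟨w, hM h1, mem_B.2 (Or.inl huw.symm), mem_B.2 (Or.inl hu'w.symm)⟩
    · push Not at hw
      have hru : r ≠ u := fun hc => hu1 (hc ▸ hr)
      have hru' : r ≠ u' := fun hc => hu1' (hc ▸ hr)
      obtain ⟨a, ha, b, hb, hbr, hab⟩ := h.cut r {s, s', u, u'}
        (by
          simp only [mem_insert, mem_singleton, not_or]
          exact ⟨fun hc => hs (hc ▸ hr), fun hc => hs' (hc ▸ hr), hru, hru'⟩)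
        ⟨s, mem_insert_self _ _⟩ ⟨p, by
          simp only [mem_insert, mem_singleton, not_or]
          exact ⟨fun hc => hs (hc ▸ hp), fun hc => hs' (hc ▸ hp), fun hc => hu1 (hc ▸ hp),
            fun hc => hu1' (hc ▸ hp)⟩, hrp.ne'⟩
      simp only [mem_insert, mem_singleton, not_or] at ha hb
      obtain ⟨hb1, hb2, hb3, hb4⟩ := hb
      rcases ha with rfl | rfl | rfl | rfl
      · rcases h.nbr hrs.symm hus.symm hu's.symm hru hru' huu hab with h1 | h1 | h1
        · exact hbr h1
        · exact hb3 h1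
        · exact hb4 h1
      · rcases h.nbr hrs'.symm hus'.symm hu's'.symm hru hru' huu hab with h1 | h1 | h1
        · exact hbr h1
        · exact hb3 h1
        · exact hb4 h1
      · rcases c1 b hab hb4 (fun hc => hw b hc hab) with h1 | h1
        · exact hb1 h1
        · exact hb2 h1
      · have hub : H.Adj u b := (T b hb3 hb4).2 hab
        rcases c1 b hub hb4 (fun hc => hw b hc hub) with h1 | h1
        · exact hb1 h1
        · exact hb2 h1
  · intro u u' z v q w hu hu' hz hv hq hw huu hzv huz huv huw hu'z hu'v hu'w hqz hqv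
    have hu1 : u ∉ E := fun hc => hu (hEE hc)
    have hu1' : u' ∉ E := fun hc => hu' (hEE hc)
    have hz1 : z ∉ E := fun hc => hz (hEE hc)
    have hv1 : v ∉ E := fun hc => hv (hEE hc)
    have hzw : z ≠ w := fun hc => hz (hc ▸ hw)
    have hvw : v ≠ w := fun hc => hv (hc ▸ hw)
    have huq : u ≠ q := fun hc => hu (hc ▸ hq)
    have hu'q : u' ≠ q := fun hc => hu' (hc ▸ hq)
    have Nu : ∀ x, H.Adj u x → x = z ∨ x = v ∨ x = w := fun x hx => h.nbr huz huv huw hzv hzw hvw hx
    have Nu' : ∀ x, H.Adj u' x → x = z ∨ x = v ∨ x = w := fun x hx =>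
      h.nbr hu'z hu'v hu'w hzv hzw hvw hx
    have Nz : ∀ x, H.Adj z x → x = u ∨ x = u' ∨ x = q := fun x hx =>
      h.nbr huz.symm hu'z.symm hqz.symm huu huq hu'q hx
    have Nv : ∀ x, H.Adj v x → x = u ∨ x = u' ∨ x = q := fun x hx =>
      h.nbr huv.symm hu'v.symm hqv.symm huu huq hu'q hx
    have hmv : ∀ y, (y = s ∨ y = s') → g y ≠ y ∧ g y ∈ E' := by
      rintro y (rfl | rfl)
      · rw [hgs]; exact ⟨hss.symm, hsE'⟩
      · rw [hgs']; exact ⟨hss, hsE⟩
    by_contra hno
    push Not at hno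
    obtain ⟨hno1, hno2⟩ := hno
    have cq : q ∉ E → q = s ∨ q = s' := by
      intro hqE
      by_contra hc
      push Not at hc
      exact hno1 (hx q hq hqE hc.1 hc.2)
    have cw : w ∉ E → w = s ∨ w = s' := by
      intro hwE
      by_contra hc
      push Not at hc
      exact hno2 (hx w hw hwE hc.1 hc.2)
    by_cases hqE : q ∈ E <;> by_cases hwE : w ∈ E
    · rcases hS.dg u u' z v q w hu1 hu1' hz1 hv1 hqE hwE huu hzv huz huv huw hu'z hu'v hu'w hqz hqv
        with h1 | h1
      · exact hno1 (hM h1)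
      · exact hno2 (hM h1)
    · -- q ∈ E, w moved
      have h1 := gnb h hg hS.nb hqE hz1 hv1 hzv hqz hqv
      obtain ⟨h2, h3⟩ := hmv w (cw hwE)
      have h4 : g u = u ∨ g u = u' := by
        have h5 : H.Adj (g z) (g u) := adj_g g huz.symm
        have h6 : g u = u ∨ g u = u' ∨ g u = q := by
          rcases h1 with h7 | h7
          · rw [h7] at h5; exact Nz _ h5
          · rw [h7] at h5; exact Nv _ h5
        rcases h6 with h7 | h7 | h7
        · exact Or.inl h7
        · exact Or.inr h7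
        · exact absurd (h7 ▸ hqE) (gout hg hu1)
      have h5 : H.Adj (g u) (g w) := adj_g g huw
      have h6 : g w = z ∨ g w = v ∨ g w = w := by
        rcases h4 with h7 | h7
        · rw [h7] at h5; exact Nu _ h5
        · rw [h7] at h5; exact Nu' _ h5
      rcases h6 with h7 | h7 | h7
      · exact hz (h7 ▸ h3)
      · exact hv (h7 ▸ h3)
      · exact h2 h7
    · -- w ∈ E, q moved
      have h1 := gnb h hg hS.nb hwE hu1 hu1' huu huw.symm hu'w.symm
      obtain ⟨h2, h3⟩ := hmv q (cq hqE)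
      have h4 : g z = z ∨ g z = v := by
        have h5 : H.Adj (g u) (g z) := adj_g g huz
        have h6 : g z = z ∨ g z = v ∨ g z = w := by
          rcases h1 with h7 | h7
          · rw [h7] at h5; exact Nu _ h5
          · rw [h7] at h5; exact Nu' _ h5
        rcases h6 with h7 | h7 | h7
        · exact Or.inl h7
        · exact Or.inr h7
        · exact absurd (h7 ▸ hwE) (gout hg hz1)
      have h5 : H.Adj (g z) (g q) := adj_g g hqz.symm
      have h6 : g q = u ∨ g q = u' ∨ g q = q := by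
        rcases h4 with h7 | h7
        · rw [h7] at h5; exact Nz _ h5
        · rw [h7] at h5; exact Nv _ h5
      rcases h6 with h7 | h7 | h7
      · exact hu (h7 ▸ h3)
      · exact hu' (h7 ▸ h3)
      · exact h2 h7
    · -- both new
      have hqw : q ≠ w := by
        intro hc
        subst hc
        rcases h.nbr hqz hqv huw.symm hzv huz.ne' huv.ne' hu'w.symm with h1 | h1 | h1
        · rw [h1] at hu'z; exact hu'z.ne rfl
        · rw [h1] at hu'v; exact hu'v.ne rfl
        · exact huu h1.symm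
      have hrq : H.Adj r q := by
        rcases cq hqE with h1 | h1
        · rw [h1]; exact hrs
        · rw [h1]; exact hrs'
      have hrw : H.Adj r w := by
        rcases cw hwE with h1 | h1
        · rw [h1]; exact hrs
        · rw [h1]; exact hrs'
      have hnr : ∀ x, x ∉ E → r ≠ x := fun x hx hc => hx (hc ▸ hr)
      have hnp : ∀ x, x ∉ E → p ≠ x := fun x hx hc => hx (hc ▸ hp)
      obtain ⟨a, ha, b, hb, hbr, hab⟩ := h.cut r {q, w, z, v, u, u'}
        (by
          simp only [mem_insert, mem_singleton, not_or]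
          exact ⟨hnr _ hqE, hnr _ hwE, hnr _ hz1, hnr _ hv1, hnr _ hu1, hnr _ hu1'⟩)
        ⟨q, mem_insert_self _ _⟩ ⟨p, by
          simp only [mem_insert, mem_singleton, not_or]
          exact ⟨hnp _ hqE, hnp _ hwE, hnp _ hz1, hnp _ hv1, hnp _ hu1, hnp _ hu1'⟩, hrp.ne'⟩
      simp only [mem_insert, mem_singleton, not_or] at ha hb
      obtain ⟨hb1, hb2, hb3, hb4, hb5, hb6⟩ := hb
      have Nq : ∀ x, H.Adj q x → x = r ∨ x = z ∨ x = v := fun x hx =>
        h.nbr hrq.symm hqz hqv (hnr _ hz1) (hnr _ hv1) hzv hx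
      have Nw : ∀ x, H.Adj w x → x = r ∨ x = u ∨ x = u' := fun x hx =>
        h.nbr hrw.symm huw.symm hu'w.symm (hnr _ hu1) (hnr _ hu1') huu hx
      rcases ha with h1 | h1 | h1 | h1 | h1 | h1 <;> rw [h1] at hab
      · rcases Nq _ hab with h2 | h2 | h2
        · exact hbr h2
        · exact hb3 h2
        · exact hb4 h2
      · rcases Nw _ hab with h2 | h2 | h2
        · exact hbr h2
        · exact hb5 h2
        · exact hb6 h2
      · rcases Nz _ hab with h2 | h2 | h2
        · exact hb5 h2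
        · exact hb6 h2
        · exact hb1 h2
      · rcases Nv _ hab with h2 | h2 | h2
        · exact hb5 h2
        · exact hb6 h2
        · exact hb1 h2
      · rcases Nu _ hab with h2 | h2 | h2
        · exact hb3 h2
        · exact hb4 h2
        · exact hb2 h2
      · rcases Nu' _ hab with h2 | h2 | h2
        · exact hb3 h2
        · exact hb4 h2
        · exact hb2 h2

end Pool.Agent.RGP15.Cub
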