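import Pool.Agent.RGP15.Cubic2

/-!
# Automorphisms of 2-connected graphs of maximum degree three: the bound
-/

set_option autoImplicit false

namespace Pool.Agent.RGP15.Cub

open Finset

variable {β : Type} [Fintype β] [DecidableEq β]

/-- The potential. -/
noncomputable def W (H : SimpleGraph β) (E M : Finset β) : ℤ :=
  34 * (E.card : ℤ) + ((act H E).card : ℤ) + 2 * ((∑ y ∈ M, (E ∩ B H y).card : ℕ) : ℤ) -
    24 * (M.card : ℤ)

theorem phi_le (H : SimpleGraph β) {E E' M M' : Finset β} (hE : E ⊆ E') (hM : M ⊆ M') :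
    ∑ y ∈ M, (E ∩ B H y).card ≤ ∑ y ∈ M', (E' ∩ B H y).card :=
  (sum_le_sum fun y _ => card_le_card (inter_subset_inter_right hE)).trans
    (sum_le_sum_of_subset hM)

theorem phi_lt (H : SimpleGraph β) {E E' M M' : Finset β} (hE : E ⊆ E') (hM : M ⊆ M')
    {y s s' : β} (hy : y ∈ M) (hs : s ∉ E) (hs' : s' ∉ E) (hss : s ≠ s') (hsE : s ∈ E')
    (hsE' : s' ∈ E') (h1 : s ∈ B H y) (h2 : s' ∈ B H y) :
    ∑ y ∈ M, (E ∩ B H y).card + 2 ≤ ∑ y ∈ M', (E' ∩ B H y).card := by
  have h3 : (E ∩ B H y).card + 2 ≤ (E' ∩ B H y).card := by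
    have h4 : insert s (insert s' (E ∩ B H y)) ⊆ E' ∩ B H y := by
      intro x hx
      rcases mem_insert.1 hx with rfl | hx
      · exact mem_inter.2 ⟨hsE, h1⟩
      rcases mem_insert.1 hx with rfl | hx
      · exact mem_inter.2 ⟨hsE', h2⟩
      · exact mem_inter.2 ⟨hE (mem_inter.1 hx).1, (mem_inter.1 hx).2⟩
    have h5 := card_le_card h4
    rw [card_insert_of_notMem, card_insert_of_notMem] at h5
    · exact h5
    · intro hc; exact hs' (mem_inter.1 hc).1
    · intro hc
      rcases mem_insert.1 hc with hc | hc
      · exact hss hc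
      · exact hs (mem_inter.1 hc).1
  have h6 := phi_le H hE (M := M.erase y) (M' := M.erase y) (Subset.refl _)
  have h7 := phi_le H (Subset.refl E') hM
  rw [← add_sum_erase M _ hy]
  rw [← add_sum_erase M (fun y => (E' ∩ B H y).card) hy] at h7
  omega

theorem step {H : SimpleGraph β} (h : Cu H) {E M : Finset β} (hS : State H E M)
    (hne : E.Nonempty) (hE : ∃ y, y ∉ E) :
    ∃ E' M', State H E' M' ∧ E ⊂ E' ∧ st H E ≤ 2 * st H E' ∧ W H E M + 69 ≤ W H E' M' := by
  classical
  obtain ⟨r, hr, s, hs, hrs⟩ := h.con E hne hE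
  obtain ⟨s', p, hs', hne', hp, hrp, hrs', hN, g, hg, hgs, hgs'⟩ := pair h hS.clo hS.nb hr hs hrs
  have hss : s ≠ s' := hne'.symm
  have h0 : ∀ k : H ≃g H, Fx H (insert s E) k → Fx H (insert s' (insert s E)) k := by
    intro k hk e he
    rcases mem_insert.1 he with rfl | he
    · have h1 : H.Adj r (k e) := by
        have h1 := adj_g k hrs'
        rwa [hk r (mem_insert_of_mem hr)] at h1
      rcases hN _ h1 with h2 | h2 | h2
      · have h3 : k e = k p := by rw [h2, hk p (mem_insert_of_mem hp)]
        exact absurd (k.injective h3 ▸ hp) hs'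
      · have h3 : k e = k s := by rw [h2, hk s (mem_insert_self _ _)]
        exact absurd (k.injective h3) hne'
      · exact h2
    · exact hk e he
  obtain ⟨E', hA, hF, hnb, hclo⟩ := clos (insert s E) (insert s' (insert s E))
    (subset_insert _ _) h0 (by
      intro y hy
      rcases mem_insert.1 hy with rfl | hy
      · exact ⟨r, mem_insert_of_mem (mem_insert_of_mem hr), hrs'.symm⟩
      rcases mem_insert.1 hy with rfl | hy
      · exact ⟨r, mem_insert_of_mem (mem_insert_of_mem hr), hrs.symm⟩
      · obtain ⟨q, hq, hyq⟩ := hS.nb y hy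
        exact ⟨q, mem_insert_of_mem (mem_insert_of_mem hq), hyq⟩)
  have hEE : E ⊆ E' := fun x hx => hA (mem_insert_of_mem (mem_insert_of_mem hx))
  have hsE : s ∈ E' := hA (mem_insert_of_mem (mem_insert_self _ _))
  have hsE' : s' ∈ E' := hA (mem_insert_self _ _)
  set D : Finset β := (E' \ E) \ {s, s'} with hD
  have hDE : ∀ y ∈ D, y ∈ E' ∧ y ∉ E := fun y hy => mem_sdiff.1 (mem_sdiff.1 hy).1
  have hst : State H E' (M ∪ D) := pres h hS hr hp hs hs' hss hrp hrs hrs' hg hgs hgs' hEE hsE hsE'
    hclo hnb subset_union_left (by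
      intro y hy
      rcases mem_union.1 hy with hy | hy
      · exact hEE (hS.sub hy)
      · exact (hDE y hy).1) (by
      intro y h1 h2 h3 h4
      refine mem_union_right _ (mem_sdiff.2 ⟨mem_sdiff.2 ⟨h1, h2⟩, ?_⟩)
      simp only [mem_insert, mem_singleton, not_or]
      exact ⟨h3, h4⟩)
  refine ⟨E', M ∪ D, hst, ⟨hEE, fun hc => hs (hc hsE)⟩, ?_, ?_⟩
  · have h1 := orb H E {s, s'} s (fun k hk => by
      rw [mem_insert, mem_singleton]
      exact gnb h hk hS.nb hr hs hs' hss hrs hrs')
    rw [card_pair hss, st_eq hF] at h1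
    exact h1
  · have c1 : (E' \ E).card + E.card = E'.card := card_sdiff_add_card_eq_card hEE
    have c2 : D.card + 2 = (E' \ E).card := by
      rw [hD, ← card_pair hss]
      apply card_sdiff_add_card_eq_card
      intro x hx
      rcases mem_insert.1 hx with rfl | hx
      · exact mem_sdiff.2 ⟨hsE, hs⟩
      · rw [mem_singleton.1 hx]; exact mem_sdiff.2 ⟨hsE', hs'⟩
    have c3 : (M ∪ D).card = M.card + D.card :=
      card_union_of_disjoint (disjoint_left.2 fun x h1 h2 => (hDE x h2).2 (hS.sub h1))
    have c4 := phi_le H hEE (subset_union_left : M ⊆ M ∪ D)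
    have c5 := act_le h hEE
    rcases Nat.eq_zero_or_pos D.card with hx | hx
    · -- gain exactly two
      have hE2 : ∀ y ∈ E', y ∉ E → y = s ∨ y = s' := by
        intro y h1 h2
        by_contra hc
        push Not at hc
        have h3 : y ∈ D := mem_sdiff.2 ⟨mem_sdiff.2 ⟨h1, h2⟩, by
          simp only [mem_insert, mem_singleton, not_or]; exact hc⟩
        rw [card_eq_zero.1 hx] at h3
        simp at h3
      by_cases hb : ∃ b, b ∉ E' ∧ H.Adj s b
      · -- new boundary vertices
        obtain ⟨b, hbE, hsb⟩ := hb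
        have hgb : g b ∉ E' := by
          intro hc
          have h1 : g b ∉ E := gout hg fun h2 => hbE (hEE h2)
          rcases hE2 _ hc h1 with h2 | h2
          · rw [← hgs'] at h2
            exact hbE (g.injective h2 ▸ hsE')
          · rw [← hgs] at h2
            exact hbE (g.injective h2 ▸ hsE)
        have hs'b : H.Adj s' (g b) := by
          have h1 := adj_g g hsb
          rwa [hgs] at h1
        have hra : r ∈ act H E := mem_act.2 ⟨hr, s, hs, hrs⟩
        have c6 : insert s (insert s' ((act H E).erase r)) ⊆ act H E' := by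
          intro v hv
          rcases mem_insert.1 hv with rfl | hv
          · exact mem_act.2 ⟨hsE, b, hbE, hsb⟩
          rcases mem_insert.1 hv with rfl | hv
          · exact mem_act.2 ⟨hsE', g b, hgb, hs'b⟩
          obtain ⟨hvr, hva⟩ := mem_erase.1 hv
          obtain ⟨hvE, x, hxE, hvx⟩ := mem_act.1 hva
          by_contra hc
          have hall : ∀ y, H.Adj v y → y ∈ E' := by
            intro y hy
            by_contra h1
            exact hc (mem_act.2 ⟨hEE hvE, y, h1, hy⟩)
          have hvs : H.Adj v s := by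
            rcases hE2 x (hall x hvx) hxE with rfl | rfl
            · exact hvx
            · have h1 := adj_g g hvx
              rwa [hg v hvE, hgs'] at h1
          obtain ⟨k, hk, hkb⟩ := hclo b hbE ⟨s, hsE, hsb⟩
          have h1 : H.Adj s (k b) := by
            have h1 := adj_g k hsb
            rwa [hk s hsE] at h1
          have hrb : r ≠ b := fun h2 => hbE (h2 ▸ hEE hr)
          have hvb : v ≠ b := fun h2 => hbE (h2 ▸ hEE hvE)
          rcases h.nbr hrs.symm hvs.symm hsb hvr.symm hrb hvb h1 with h2 | h2 | h2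
          · have h3 : k b = k r := by rw [h2, hk r (hEE hr)]
            exact hrb (k.injective h3).symm
          · have h3 : k b = k v := by rw [h2, hk v (hEE hvE)]
            exact hvb (k.injective h3).symm
          · exact hkb h2
        have c7 := card_le_card c6
        rw [card_insert_of_notMem, card_insert_of_notMem, card_erase_of_mem hra] at c7
        · have c8 : 0 < (act H E).card := card_pos.2 ⟨r, hra⟩
          simp only [W]
          omega
        · intro hc
          exact hs' (mem_act.1 (mem_erase.1 hc).2).1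
        · intro hc
          rcases mem_insert.1 hc with hc | hc
          · exact hss hc
          · exact hs (mem_act.1 (mem_erase.1 hc).2).1
      · -- twins
        push Not at hb
        have hb1 : ∀ y, H.Adj s y → y ∈ E' := fun y h1 => by
          by_contra h2
          exact hb y h2 h1
        have hb2 : ∀ y, H.Adj s' y → y ∈ E' := fun y h1 => by
          by_contra h2
          have h3 := adj_g g h1
          rw [hgs'] at h3
          have h4 := hb1 _ h3
          have h5 : g y ∉ E := gout hg fun h6 => h2 (hEE h6)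
          rcases hE2 _ h4 h5 with h6 | h6
          · rw [← hgs'] at h6
            exact h2 (g.injective h6 ▸ hsE')
          · rw [← hgs] at h6
            exact h2 (g.injective h6 ▸ hsE)
        have hb3 : ∀ y, y ≠ s → y ≠ s' → y ∈ E' → y ∈ E := fun y h1 h2 h3 => by
          by_contra h4
          rcases hE2 y h3 h4 with h5 | h5
          · exact h1 h5
          · exact h2 h5
        have T : ∀ y, y ≠ s → y ≠ s' → (H.Adj s y ↔ H.Adj s' y) := by
          intro y h1 h2
          constructor
          · intro h3
            have h4 := adj_g g h3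
            rwa [hgs, hg y (hb3 y h1 h2 (hb1 y h3))] at h4
          · intro h3
            have h4 := adj_g g h3
            rwa [hgs', hg y (hb3 y h1 h2 (hb2 y h3))] at h4
        obtain ⟨y, hy, h1, h2⟩ := hS.tw s s' hs hs' hss T fun y h1 h2 => hb3 y h1.ne' h2 (hb1 y h1)
        have c6 := phi_lt H hEE (subset_union_left : M ⊆ M ∪ D) hy hs hs' hss hsE hsE' h1 h2
        have c7 : act H E ⊆ act H E' ∪ univ.filter (H.Adj s) := by
          intro v hv
          obtain ⟨hvE, x, hxE, hvx⟩ := mem_act.1 hv
          by_cases hxE' : x ∈ E'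
          · refine mem_union_right _ (mem_filter.2 ⟨mem_univ _, ?_⟩)
            rcases hE2 x hxE' hxE with rfl | rfl
            · exact hvx.symm
            · exact (T v (fun hc => hs (hc ▸ hvE)) (fun hc => hs' (hc ▸ hvE))).2 hvx.symm
          · exact mem_union_left _ (mem_act.2 ⟨hEE hvE, x, hxE', hvx⟩)
        have c8 := (card_le_card c7).trans (card_union_le _ _)
        have c9 : (univ.filter (H.Adj s)).card ≤ 3 := h.deg s _ fun x hx => (mem_filter.1 hx).2
        simp only [W]
        omega
    · simp only [W]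
      omega

theorem main_ind {H : SimpleGraph β} (h : Cu H) : ∀ (k : ℕ) (E M : Finset β), State H E M →
    E.Nonempty → (univ \ E).card ≤ k →
    ∃ F : ℕ, st H E ≤ 2 ^ F ∧ 69 * (F : ℤ) + W H E M ≤ 34 * (Fintype.card β : ℤ) := by
  intro k
  induction k with
  | zero =>
    intro E M hS _ hk
    have hE : E = univ := by
      have h1 : univ \ E = ∅ := card_eq_zero.1 (Nat.le_zero.1 hk)
      exact eq_univ_of_forall fun x => by
        by_contra h2
        have h3 : x ∈ univ \ E := mem_sdiff.2 ⟨mem_univ _, h2⟩
        rw [h1] at h3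
        simp at h3
    refine ⟨0, ?_, ?_⟩
    · rw [pow_zero, st]
      apply Finite.card_le_one_iff_subsingleton.2
      refine ⟨fun a b => Subtype.ext (RelIso.ext fun x => ?_)⟩
      rw [a.2 x (by rw [hE]; exact mem_univ _), b.2 x (by rw [hE]; exact mem_univ _)]
    · have h1 : act H E = ∅ := by
        apply eq_empty_of_forall_notMem
        intro v hv
        obtain ⟨-, x, hx, -⟩ := mem_act.1 hv
        exact hx (by rw [hE]; exact mem_univ _)
      have h2 : ∑ y ∈ M, (E ∩ B H y).card ≤ M.card * 12 := by
        rw [← smul_eq_mul]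
        exact sum_le_card_nsmul _ _ _ fun y _ => (card_le_card inter_subset_right).trans (card_B h y)
      have h3 : E.card ≤ Fintype.card β := card_le_univ E
      simp only [W, h1, card_empty]
      omega
  | succ k ih =>
    intro E M hS hne hk
    by_cases hE : ∃ y, y ∉ E
    · obtain ⟨E', M', hS', hsub, h1, h2⟩ := step h hS hne hE
      have h3 : (univ \ E').card ≤ k := by
        have h4 := card_lt_card hsub
        have h5 := card_sdiff_add_card_eq_card (subset_univ E)
        have h6 := card_sdiff_add_card_eq_card (subset_univ E')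
        omega
      obtain ⟨F, h4, h5⟩ := ih E' M' hS' (hne.mono hsub.1) h3
      refine ⟨F + 1, ?_, ?_⟩
      · rw [pow_succ]
        omega
      · push_cast
        omega
    · push Not at hE
      apply ih E M hS hne
      rw [eq_univ_of_forall hE]
      simp

theorem aut_le {H : SimpleGraph β} (h : Cu H) (x : β) (h2 : ∃ y, y ≠ x) :
    ∃ F : ℕ, Nat.card (H ≃g H) ≤ 27 * Fintype.card β * 2 ^ F ∧ 69 * F ≤ 34 * Fintype.card β := by
  classical
  set N : Finset β := univ.filter (H.Adj x) with hN
  have hN3 : N.card ≤ 3 := h.deg x _ fun y hy => (mem_filter.1 hy).2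
  have a1 : st H ∅ ≤ Fintype.card β * st H {x} := by
    have := orb H ∅ univ x fun _ _ => mem_univ _
    rwa [card_univ] at this
  have a2 : ∀ T : Finset β, T ⊆ N → st H {x} ≤ 3 ^ T.card * st H (insert x T) := by
    intro T
    induction T using Finset.induction_on with
    | empty => intro _; simp
    | insert y T hy ih =>
      intro hT
      have h3 := ih ((subset_insert _ _).trans hT)
      have h4 := orb H (insert x T) N y (by
        intro g hg
        have h5 : H.Adj x y := (mem_filter.1 (hT (mem_insert_self _ _))).2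
        have h6 := adj_g g h5
        rw [hg x (mem_insert_self _ _)] at h6
        exact mem_filter.2 ⟨mem_univ _, h6⟩)
      rw [insert_comm] at h4
      rw [card_insert_of_notMem hy, pow_succ]
      calc st H {x} ≤ 3 ^ T.card * st H (insert x T) := h3
        _ ≤ 3 ^ T.card * (3 * st H (insert x (insert y T))) :=
            Nat.mul_le_mul_left _ (h4.trans (Nat.mul_le_mul_right _ hN3))
        _ = _ := by ring
  have a3 : st H {x} ≤ 27 * st H (insert x N) := by
    refine (a2 N (Subset.refl _)).trans (Nat.mul_le_mul_right _ ?_)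
    calc 3 ^ N.card ≤ 3 ^ 3 := Nat.pow_le_pow_right (by norm_num) hN3
      _ = 27 := by norm_num
  obtain ⟨a, ha, b, hb, hab⟩ := h.con {x} ⟨x, mem_singleton_self _⟩ (by
    obtain ⟨y, hy⟩ := h2
    exact ⟨y, by simpa using hy⟩)
  rw [mem_singleton] at ha
  subst ha
  obtain ⟨E, hA, hF, hnb, hclo⟩ := clos (insert a N) (insert a N) (Subset.refl _) (fun _ h => h) (by
    intro y hy
    rcases mem_insert.1 hy with rfl | hy
    · exact ⟨b, mem_insert_of_mem (mem_filter.2 ⟨mem_univ _, hab⟩), hab⟩
    · exact ⟨a, mem_insert_self _ _, (mem_filter.1 hy).2.symm⟩)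
  have haE : a ∈ E := hA (mem_insert_self _ _)
  have hS : State H E E := by
    refine ⟨hclo, hnb, Subset.refl _, ?_, ?_⟩
    · intro u u' hu hu' huu T K
      obtain ⟨c, hc, d, hd, hcd⟩ := h.con {u, u'} ⟨u, mem_insert_self _ _⟩ ⟨a, by
        simp only [mem_insert, mem_singleton, not_or]
        exact ⟨fun h3 => hu (h3 ▸ haE), fun h3 => hu' (h3 ▸ haE)⟩⟩
      simp only [mem_insert, mem_singleton, not_or] at hc hd
      have hud : H.Adj u d := by
        rcases hc with rfl | rfl
        · exact hcd
        · exact (T d hd.1 hd.2).2 hcd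
      exact ⟨d, K d hud hd.2, mem_B.2 (Or.inl hud.symm), mem_B.2 (Or.inl ((T d hd.1 hd.2).1 hud).symm)⟩
    · intro u u' z v q w _ _ _ _ hq _ _ _ _ _ _ _ _ _ _ _
      exact Or.inl hq
  obtain ⟨F, h3, h4⟩ := main_ind h _ E E hS ⟨a, haE⟩ le_rfl
  refine ⟨F, ?_, ?_⟩
  · rw [← st_empty]
    calc st H ∅ ≤ Fintype.card β * st H {a} := a1
      _ ≤ Fintype.card β * (27 * st H (insert a N)) := Nat.mul_le_mul_left _ a3
      _ = Fintype.card β * (27 * st H E) := by rw [st_eq hF]
      _ ≤ Fintype.card β * (27 * 2 ^ F) := Nat.mul_le_mul_left _ (Nat.mul_le_mul_left _ h3)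
      _ = _ := by ring
  · simp only [W] at h4
    omega

end Pool.Agent.RGP15.Cub
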