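import Pool.Agent.RGP15.Cubic3

/-!
# Automorphisms of 2-connected graphs of maximum degree three: induced subgraphs
-/

set_option autoImplicit false

namespace Pool.Agent.RGP15.Cub

open Finset

theorem num_aux (m : ℕ) (hm : 39 ≤ m) : 222129216 * (m + 1) ^ 2 < 2 ^ m := by
  induction m, hm using Nat.le_induction with
  | base => norm_num
  | succ m hm ih =>
    rw [pow_succ 2 m]
    nlinarith

theorem num (n F : ℕ) (hn : 2700 ≤ n) (hF : 69 * F ≤ 34 * n) :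
    16 * (2 * (27 * n * 2 ^ F)) ^ 2 < 2 ^ n := by
  have h1 : n < 69 * (n / 69 + 1) := by omega
  have h2 := num_aux (n / 69) (by omega)
  have h3 : n / 69 + 2 * F ≤ n := by omega
  calc 16 * (2 * (27 * n * 2 ^ F)) ^ 2 = 46656 * n ^ 2 * 2 ^ (2 * F) := by
        rw [pow_mul']; ring
    _ ≤ 46656 * (69 * (n / 69 + 1)) ^ 2 * 2 ^ (2 * F) := by
        gcongr
    _ = 222129216 * (n / 69 + 1) ^ 2 * 2 ^ (2 * F) := by ring
    _ < 2 ^ (n / 69) * 2 ^ (2 * F) := by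
        apply Nat.mul_lt_mul_of_pos_right h2
        positivity
    _ = 2 ^ (n / 69 + 2 * F) := by rw [pow_add]
    _ ≤ 2 ^ n := Nat.pow_le_pow_right (by norm_num) h3

theorem con_of_cut {β : Type} [Fintype β] [DecidableEq β] (H : SimpleGraph β)
    (hc : 3 ≤ Fintype.card β)
    (cut : ∀ r : β, ∀ S : Finset β, r ∉ S → S.Nonempty → (∃ y, y ∉ S ∧ y ≠ r) →
      ∃ a ∈ S, ∃ b, b ∉ S ∧ b ≠ r ∧ H.Adj a b) (S : Finset β) (hS : S.Nonempty)
    (hy : ∃ y, y ∉ S) : ∃ a ∈ S, ∃ b, b ∉ S ∧ H.Adj a b := by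
  obtain ⟨y, hy⟩ := hy
  by_cases h : ∃ r, r ∉ S ∧ r ≠ y
  · obtain ⟨r, hr, hry⟩ := h
    obtain ⟨a, ha, b, hb, -, hab⟩ := cut r S hr hS ⟨y, hy, hry.symm⟩
    exact ⟨a, ha, b, hb, hab⟩
  · push Not at h
    obtain ⟨r, hr⟩ := hS
    have hry : r ≠ y := fun h1 => hy (h1 ▸ hr)
    have h1 : 1 < ((univ : Finset β).erase y).card := by
      rw [card_erase_of_mem (mem_univ _), card_univ]
      omega
    obtain ⟨z, hz, hzr⟩ := exists_mem_ne h1 r
    obtain ⟨a, ha, b, hb, -, hab⟩ := cut r {y} (by simpa using hry) ⟨y, mem_singleton_self _⟩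
      ⟨z, by simpa using (mem_erase.1 hz).1, hzr⟩
    rw [mem_singleton] at ha hb
    subst ha
    refine ⟨b, ?_, a, hy, hab.symm⟩
    by_contra h2
    exact hb (h b h2)

/-- Few automorphisms of a large 2-connected graph of maximum degree three. -/
theorem subcubic_aut {α : Type} (C : SimpleGraph α) (X : Finset α)
    (hd : ∀ v ∈ X, ∀ S : Finset α, S ⊆ X → (∀ x ∈ S, C.Adj v x) → S.card ≤ 3)
    (h2 : ∀ x ∈ X, (C.induce {v | v ∈ X ∧ v ≠ x}).Connected) (hX : 2700 ≤ X.card) :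
    16 * (2 * Nat.card (C.induce {v | v ∈ X} ≃g C.induce {v | v ∈ X})) ^ 2 < 2 ^ X.card := by
  classical
  let _ : Fintype {v | v ∈ X} := Fintype.ofFinset X (by simp)
  have hcard : Fintype.card {v | v ∈ X} = X.card := Fintype.card_ofFinset X (by simp)
  have cut : ∀ r : {v | v ∈ X}, ∀ S : Finset {v | v ∈ X}, r ∉ S → S.Nonempty →
      (∃ y, y ∉ S ∧ y ≠ r) → ∃ a ∈ S, ∃ b, b ∉ S ∧ b ≠ r ∧ (C.induce {v | v ∈ X}).Adj a b := by
    intro r S hr hS hy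
    obtain ⟨s, hs⟩ := hS
    obtain ⟨y, hy, hyr⟩ := hy
    have hsr : s ≠ r := fun h => hr (h ▸ hs)
    obtain ⟨p⟩ := (h2 r.1 r.2).preconnected
      ⟨s.1, s.2, fun h => hsr (Subtype.ext h)⟩ ⟨y.1, y.2, fun h => hyr (Subtype.ext h)⟩
    obtain ⟨d, -, h3, h4⟩ := p.exists_boundary_dart
      {a | (⟨a.1, a.2.1⟩ : {v | v ∈ X}) ∈ S} hs hy
    exact ⟨⟨d.fst.1, d.fst.2.1⟩, h3, ⟨d.snd.1, d.snd.2.1⟩, h4,
      fun h => d.snd.2.2 (congrArg Subtype.val h), d.adj⟩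
  have hCu : Cu (C.induce {v | v ∈ X}) := by
    refine ⟨?_, con_of_cut _ (by omega) cut, cut⟩
    intro v S hS
    have h3 := hd v.1 v.2 (S.map (Function.Embedding.subtype _)) (by
      intro x hx
      obtain ⟨y, -, rfl⟩ := mem_map.1 hx
      exact y.2) (by
      intro x hx
      obtain ⟨y, hy, rfl⟩ := mem_map.1 hx
      exact hS y hy)
    rwa [card_map] at h3
  obtain ⟨x, hx⟩ := card_pos.1 (show 0 < X.card by omega)
  have h3 : ∃ y : {v | v ∈ X}, y ≠ ⟨x, hx⟩ := by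
    obtain ⟨y, hy, hyx⟩ := exists_mem_ne (show 1 < X.card by omega) x
    exact ⟨⟨y, hy⟩, fun h => hyx (congrArg Subtype.val h)⟩
  obtain ⟨F, h4, h5⟩ := aut_le hCu ⟨x, hx⟩ h3
  rw [hcard] at h4 h5
  refine lt_of_le_of_lt ?_ (num X.card F hX h5)
  gcongr

theorem subcubic_aut4 {α : Type} (C : SimpleGraph α) (X : Finset α)
    (hd : ∀ v ∈ X, ∀ S : Finset α, S ⊆ X → (∀ x ∈ S, C.Adj v x) → S.card ≤ 3)
    (h2 : ∀ x ∈ X, (C.induce {v | v ∈ X ∧ v ≠ x}).Connected) (hX : 2700 ≤ X.card) :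
    4 * Nat.card (C.induce {v | v ∈ X} ≃g C.induce {v | v ∈ X}) < 2 ^ (X.card - X.card / 2) := by
  have h := subcubic_aut C X hd h2 hX
  set A := Nat.card (C.induce {v | v ∈ X} ≃g C.induce {v | v ∈ X})
  have h1 : (4 * A) ^ 2 < (2 ^ (X.card - X.card / 2)) ^ 2 := by
    calc (4 * A) ^ 2 ≤ 16 * (2 * A) ^ 2 := by nlinarith [Nat.zero_le (A ^ 2)]
      _ < 2 ^ X.card := h
      _ ≤ 2 ^ ((X.card - X.card / 2) * 2) := Nat.pow_le_pow_right (by norm_num) (by omega)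
      _ = _ := by rw [pow_mul]
  exact lt_of_pow_lt_pow_left₀ 2 (by positivity) h1

end Pool.Agent.RGP15.Cub
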