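import Pool.Agent.RGP15.Cubic4
import Pool.Agent.TRB.Fin

/-!
# Connected graphs of maximum degree three
-/

set_option autoImplicit false

namespace Pool.Agent.RGP15.Cub

open Finset Pool.Agent.TRB

theorem subcubic_connected {α : Type} [Fintype α] [DecidableEq α] (C : SimpleGraph α)
    (hC : C.Connected) (hp : 60000000 ≤ Fintype.card α) (hd : ∀ v, (C.neighborSet v).ncard ≤ 3) :
    AllRec C := by
  classical
  have hd' : ∀ v, C.degree v ≤ 3 := by
    intro v
    have h1 := hd v
    rwa [Set.ncard_eq_toFinset_card', Set.toFinset_card, SimpleGraph.card_neighborSet_eq_degree] at h1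
  refine blocks_degree C hC (fun v => by have := hd' v; omega) (by omega) ?_
  intro X h3 h2
  rcases Nat.lt_or_ge X.card 2700 with h | h
  · left
    calc 8 * X.card * (X.card - 1) ≤ 8 * 2700 * 2700 := by
          gcongr
          omega
      _ < Fintype.card α := by omega
  · right
    refine subcubic_aut4 C X ?_ h2 h
    intro v _ S _ hS
    refine le_trans (card_le_card fun x hx => ?_) (hd' v)
    rw [SimpleGraph.mem_neighborFinset]
    exact hS x hx

end Pool.Agent.RGP15.Cub
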