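import Mathlib
import Pool.Agent.RGP15.Cor
import Pool.Agent.RGP15.Ten2

set_option autoImplicit false

/-!
# The image bound for sets of three kinds (helper15)
-/

namespace Pool.Agent.RGP15

open Finset Pool.Agent.NTW Pool.Agent.Lib_helper61.SwitchBasic

variable {α : Type} {ι : Type}

/-- The restrictions to `M i` of the class automorphisms which map every set of the family onto itself. -/
def LocAut (G : SimpleGraph α) (M : ι → Finset α) (i : ι) : Set ({x // x ∈ M i} → α) :=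
  {φ | ∃ σ : Equiv.Perm α, IsClassAut G σ ∧ (∀ j x, σ x ∈ M j ↔ x ∈ M j) ∧ ∀ u, φ u = σ u}

/-- `M i` has at most `s` vertices, or at most `2 ^ (s - 1)` local automorphisms, or it is a set of twins with
`2 ^ m ≤ (m + 1) ^ s`, `m` the number of its vertices. -/
def Light [Fintype α] [DecidableEq α] (G : SimpleGraph α) (M : ι → Finset α) (i : ι) (s : ℕ) :
    Prop :=
  (M i).card ≤ s ∨ (LocAut G M i).ncard ≤ 2 ^ (s - 1) ∨
    (M i ≠ univ ∧ (∀ z ∈ M i, ∀ w ∈ M i, IsClassAut G (Equiv.swap z w)) ∧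
      2 ^ (M i).card ≤ ((M i).card + 1) ^ s)

/-- The tuple of the vertices of `M i` has at most (images of the family) times (local automorphisms) images. -/
theorem rest_le [Fintype α] [DecidableEq α] [Fintype ι] (G : SimpleGraph α) (M : ι → Finset α)
    (i : ι) : (Rest G (M i)).ncard ≤ (Images G M).ncard * (LocAut G M i).ncard := by
  classical
  -- for each image a class automorphism producing it
  have hch : ∀ Φ : Images G M, ∃ σ : Equiv.Perm α, IsClassAut G σ ∧
      Φ.1 = fun i => (M i).map σ.toEmbedding := fun Φ => Φ.2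
  choose ρ hρ hΦ using hch
  have hch2 : ∀ φ : Rest G (M i), ∃ σ : Equiv.Perm α, IsClassAut G σ ∧ ∀ u, φ.1 u = σ u :=
    fun φ => φ.2
  choose σ hσ hφ using hch2
  have hmem : ∀ φ : Rest G (M i), (fun j => (M j).map (σ φ).toEmbedding) ∈ Images G M :=
    fun φ => ⟨σ φ, hσ φ, rfl⟩
  let P : Rest G (M i) → Images G M := fun φ => ⟨_, hmem φ⟩
  have hP : ∀ φ, (fun j => (M j).map (σ φ).toEmbedding) =
      fun j => (M j).map (ρ (P φ)).toEmbedding := fun φ => hΦ (P φ)
  have hL : ∀ φ : Rest G (M i), (fun u : {x // x ∈ M i} => (ρ (P φ)).symm (σ φ u)) ∈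
      LocAut G M i := by
    intro φ
    refine ⟨(σ φ).trans (ρ (P φ)).symm, classAut_mul (hσ φ) (classAut_symm (hρ _)), ?_,
      fun u => rfl⟩
    intro j x
    have h1 : (M j).map (σ φ).toEmbedding = (M j).map (ρ (P φ)).toEmbedding := congrFun (hP φ) j
    have h2 : x ∈ M j ↔ σ φ x ∈ (M j).map (σ φ).toEmbedding := by
      rw [Finset.mem_map_equiv, Equiv.symm_apply_apply]
    rw [h2, h1, Finset.mem_map_equiv]
    rfl
  have hinj : Function.Injective (fun φ : Rest G (M i) =>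
      (P φ, (⟨_, hL φ⟩ : LocAut G M i))) := by
    intro φ ψ h
    have h1 : P φ = P ψ := congrArg Prod.fst h
    have h2 : (fun u : {x // x ∈ M i} => (ρ (P φ)).symm (σ φ u)) =
        fun u : {x // x ∈ M i} => (ρ (P ψ)).symm (σ ψ u) := congrArg (fun z => (Prod.snd z).1) h
    apply Subtype.ext
    funext u
    rw [hφ φ u, hφ ψ u]
    have h3 := congrFun h2 u
    rw [h1] at h3
    exact (ρ (P ψ)).symm.injective h3
  have h4 := Nat.card_le_card_of_injective _ hinj
  rw [Nat.card_prod, Nat.card_coe_set_eq, Nat.card_coe_set_eq, Nat.card_coe_set_eq] at h4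
  exact h4

theorem class_le [Fintype α] [DecidableEq α] (G : SimpleGraph α) (B : Finset α)
    (G₀ : SimpleGraph α) (hG₀ : G₀ = sw G B) (U : Finset α) (M : ι → Finset α) (i : ι)
    (X : Finset α) (hX : X ⊆ M i) :
    {X' : Finset α | X' ⊆ M i ∧ EK G₀ U M X X'}.ncard ≤ (LocAut G M i).ncard := by
  classical
  have hsub : {X' : Finset α | X' ⊆ M i ∧ EK G₀ U M X X'} ⊆
      (fun φ : {x // x ∈ M i} → α => (univ.filter fun u : {x // x ∈ M i} => u.1 ∈ X).image φ) ''
        (LocAut G M i) := by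
    rintro X' ⟨-, κ, ⟨h1, h2, h3⟩, rfl⟩
    refine ⟨fun u => κ u, ⟨κ, ?_, h3, fun _ => rfl⟩, ?_⟩
    · have hcl : IsClassAut G₀ κ := ⟨∅, fun u v => by rw [sw_empty]; exact h2 u v⟩
      rw [hG₀] at hcl
      exact classAut_unsw G B κ hcl
    · ext y
      simp only [mem_image, mem_filter, mem_univ, true_and, Finset.mem_map]
      constructor
      · rintro ⟨u, hu, rfl⟩
        exact ⟨u.1, hu, rfl⟩
      · rintro ⟨u, hu, rfl⟩
        exact ⟨⟨u, hX hu⟩, hu, rfl⟩
  exact (Set.ncard_le_ncard hsub (Set.toFinite _)).trans (Set.ncard_image_le (Set.toFinite _))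

theorem swap_pres [DecidableEq α] (M : ι → Finset α)
    (hdisj : ∀ i j, i ≠ j → Disjoint (M i) (M j)) (i : ι) (z : α) (hz : z ∈ M i) (w : α)
    (hw : w ∈ M i) : ∀ j x, Equiv.swap z w x ∈ M j ↔ x ∈ M j := by
  intro j x
  by_cases hij : i = j
  · subst hij
    by_cases hxz : x = z
    · subst hxz
      rw [Equiv.swap_apply_left]
      exact ⟨fun _ => hz, fun _ => hw⟩
    · by_cases hxw : x = w
      · subst hxw
        rw [Equiv.swap_apply_right]
        exact ⟨fun _ => hw, fun _ => hz⟩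
      · rw [Equiv.swap_apply_of_ne_of_ne hxz hxw]
  · have hzj : z ∉ M j := Finset.disjoint_left.1 (hdisj i j hij) hz
    have hwj : w ∉ M j := Finset.disjoint_left.1 (hdisj i j hij) hw
    by_cases hxz : x = z
    · subst hxz
      rw [Equiv.swap_apply_left]
      exact ⟨fun h => absurd h hwj, fun h => absurd h hzj⟩
    · by_cases hxw : x = w
      · subst hxw
        rw [Equiv.swap_apply_right]
        exact ⟨fun h => absurd h hzj, fun h => absurd h hwj⟩
      · rw [Equiv.swap_apply_of_ne_of_ne hxz hxw]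

/-- Subsets of a set of twins with the same number of elements are equivalent. -/
theorem twins_EK [DecidableEq α] {G₀ : SimpleGraph α} (U : Finset α) (M : ι → Finset α) (i : ι)
    (hsw : ∀ z ∈ M i, ∀ w ∈ M i, Equiv.swap z w ∈ KK G₀ U M) (X : Finset α)
    (hX : X ⊆ M i) (X' : Finset α) (hX' : X' ⊆ M i) (hXX : X.card = X'.card) :
    EK G₀ U M X X' := by
  classical
  -- induction on the number of elements of `X \ X'`
  induction hn : (X \ X').card generalizing X with
  | zero =>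
    have h1 : X ⊆ X' := Finset.sdiff_eq_empty_iff_subset.1 (Finset.card_eq_zero.1 hn)
    rw [Finset.eq_of_subset_of_card_le h1 hXX.ge]
    exact (EK_equiv G₀ U M).refl _
  | succ n ih =>
    obtain ⟨z, hz⟩ : (X \ X').Nonempty := Finset.card_pos.1 (by omega)
    have hc : (X' \ X).card = (X \ X').card := (Finset.card_sdiff_comm hXX).symm
    obtain ⟨w, hw⟩ : (X' \ X).Nonempty := Finset.card_pos.1 (by omega)
    rw [mem_sdiff] at hz hw
    have hzw : z ≠ w := fun h => hw.2 (h ▸ hz.1)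
    set X₁ := X.map (Equiv.swap z w).toEmbedding with hX₁
    have hX₁' : X₁ = insert w (X.erase z) := by
      ext y
      rw [hX₁, Finset.mem_map_equiv, Equiv.symm_swap, mem_insert, mem_erase]
      by_cases hyz : y = z
      · subst hyz
        rw [Equiv.swap_apply_left]
        exact ⟨fun h => absurd h hw.2, fun h => h.elim (fun h => absurd h hzw) (fun h => absurd rfl h.1)⟩
      · by_cases hyw : y = w
        · subst hyw
          rw [Equiv.swap_apply_right]
          exact ⟨fun _ => Or.inl rfl, fun _ => hz.1⟩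
        · rw [Equiv.swap_apply_of_ne_of_ne hyz hyw]
          exact ⟨fun h => Or.inr ⟨hyz, h⟩, fun h => h.elim (fun h => absurd h hyw) (fun h => h.2)⟩
    have h1 : EK G₀ U M X X₁ := ⟨_, hsw z (hX hz.1) w (hX' hw.1), rfl⟩
    refine (EK_equiv G₀ U M).trans h1 (ih X₁ ?_ ?_ ?_)
    · rw [hX₁']
      intro y hy
      rw [mem_insert, mem_erase] at hy
      rcases hy with rfl | hy
      · exact hX' hw.1
      · exact hX hy.2
    · rw [hX₁, card_map, hXX]
    · have h2 : X₁ \ X' = (X \ X').erase z := by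
        ext y
        rw [hX₁', mem_sdiff, mem_insert, mem_erase, mem_erase, mem_sdiff]
        constructor
        · rintro ⟨rfl | h, h'⟩
          · exact absurd hw.1 h'
          · exact ⟨h.1, h.2, h'⟩
        · rintro ⟨h, h', h''⟩
          exact ⟨Or.inr ⟨h, h'⟩, h''⟩
      rw [h2, Finset.card_erase_of_mem (mem_sdiff.2 hz), hn]
      rfl

/-- The comparison of two traces with the same images of the sets `M i`. -/
theorem pair2 [DecidableEq α] (G₀ : SimpleGraph α) (U : Finset α) (M : ι → Finset α) (J : Finset ι)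
    (hdisj : ∀ i j, i ≠ j → Disjoint (M i) (M j)) (hMU : ∀ i ∈ J, M i ⊆ U)
    (hUM : ∀ x ∈ U, ∃ i ∈ J, x ∈ M i) (hglue : Glue G₀ M)
    (x : ι → α) (hx : ∀ i, x i ∉ M i)
    (hadj : ∀ i, ∀ z ∈ M i, ∀ w ∈ M i, (G₀.Adj (x i) z ↔ G₀.Adj (x i) w))
    (S S' : Finset α) (lam : Equiv.Perm α)
    (hlam : ∀ i x, lam x ∈ M i ↔ x ∈ M i)
    (hiso : ∀ u v, (sw G₀ S').Adj (lam u) (lam v) ↔ (sw G₀ S).Adj u v) :
    ((∀ u ∈ U, (u ∈ S ↔ lam u ∈ S')) ∨ (∀ u ∈ U, ¬ (u ∈ S ↔ lam u ∈ S'))) ∧
    ((∀ u ∈ U, (u ∈ S ↔ lam u ∈ S')) →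
      ∀ i ∈ J, EK G₀ U M ((S ∩ U) ∩ M i) ((S' ∩ U) ∩ M i)) := by
  classical
  have hcl : IsClassAut G₀ lam := by
    have := classAut_of_iso G₀ S S' ⟨lam, by intro a b; exact hiso a b⟩
    exact this
  have hloc := fun i hi => loc_mem G₀ U M hdisj hglue x hx hadj lam hcl hlam i (hMU i hi)
  have hout : ∀ i ∈ J, ∀ u ∈ M i, ∀ v, v ∉ M i → (G₀.Adj (lam u) v ↔ G₀.Adj u v) := by
    intro i hi u hu v hv
    have h := (hloc i hi).2.1 u v
    rwa [loc_in lam (M i) (hlam i) hu, loc_out lam (M i) (hlam i) hv] at h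
  have hcross : ∀ i ∈ J, ∀ j ∈ J, i ≠ j → ∀ u ∈ M i, ∀ v ∈ M j,
      ((u ∈ S ↔ lam u ∈ S') ↔ (v ∈ S ↔ lam v ∈ S')) := by
    intro i hi j hj hij u hu v hv
    have hvi : v ∉ M i := fun h => Finset.disjoint_left.1 (hdisj i j hij) h hv
    have huj : lam u ∉ M j := fun h =>
      Finset.disjoint_left.1 (hdisj i j hij) ((hlam i u).2 hu) h
    have h1 : G₀.Adj (lam u) v ↔ G₀.Adj u v := hout i hi u hu v hvi
    have h2 : G₀.Adj (lam v) (lam u) ↔ G₀.Adj v (lam u) := hout j hj v hv (lam u) huj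
    have h3 := hiso u v
    rw [sw_adj, sw_adj] at h3
    have huv : u ≠ v := fun h => hvi (h ▸ hu)
    have huv' : lam u ≠ lam v := fun h => huv (lam.injective h)
    rw [G₀.adj_comm, G₀.adj_comm v] at h2
    have h4 := h2.trans h1
    tauto
  have hall : ∀ u ∈ U, ∀ v ∈ U, ((u ∈ S ↔ lam u ∈ S') ↔ (v ∈ S ↔ lam v ∈ S')) := by
    intro u hu v hv
    obtain ⟨i, hiJ, hi⟩ := hUM u hu
    obtain ⟨j, hjJ, hj⟩ := hUM v hv
    by_cases hij : i = j
    · subst hij
      by_cases huv : u = v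
      · subst huv
        exact Iff.rfl
      have h := (hloc i hiJ).2.1 u v
      rw [loc_in lam (M i) (hlam i) hi, loc_in lam (M i) (hlam i) hj] at h
      have h3 := hiso u v
      rw [sw_adj, sw_adj] at h3
      have huv' : lam u ≠ lam v := fun h => huv (lam.injective h)
      tauto
    · exact hcross i hiJ j hjJ hij u hi v hj
  constructor
  · by_cases hex : ∃ u ∈ U, (u ∈ S ↔ lam u ∈ S')
    · obtain ⟨u, hu, h⟩ := hex
      left
      exact fun v hv => (hall u hu v hv).1 h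
    · right
      push Not at hex
      intro u hu h
      have := hex u hu
      tauto
  · intro hS i hiJ
    refine ⟨loc lam (M i) (hlam i), hloc i hiJ, ?_⟩
    ext y
    rw [Finset.mem_map_equiv]
    constructor
    · intro hy0
      rw [mem_inter, mem_inter] at hy0
      have hy : lam.symm y ∈ M i := by rw [← hlam, Equiv.apply_symm_apply]; exact hy0.2
      have he : (loc lam (M i) (hlam i)).symm y = lam.symm y := by
        rw [Equiv.symm_apply_eq, loc_in lam (M i) (hlam i) hy, Equiv.apply_symm_apply]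
      rw [he, mem_inter, mem_inter]
      refine ⟨⟨?_, hMU i hiJ hy⟩, hy⟩
      rw [hS _ (hMU i hiJ hy), Equiv.apply_symm_apply]
      exact hy0.1.1
    · intro hy0
      obtain ⟨z, rfl⟩ := (loc lam (M i) (hlam i)).surjective y
      rw [Equiv.symm_apply_apply, mem_inter, mem_inter] at hy0
      rw [loc_in lam (M i) (hlam i) hy0.2, mem_inter, mem_inter]
      refine ⟨⟨?_, hMU i hiJ ((hlam i z).2 hy0.2)⟩, (hlam i z).2 hy0.2⟩
      rw [← hS z hy0.1.2]
      exact hy0.1.1

/-- The upper bound for the number of traces. -/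
theorem traces_le2 [Fintype α] [DecidableEq α] [Fintype ι] (G : SimpleGraph α) (B : Finset α)
    (K H : SimpleGraph α) (U : Finset α) (M : ι → Finset α) (J : Finset ι)
    (hdisj : ∀ i j, i ≠ j → Disjoint (M i) (M j)) (hMU : ∀ i ∈ J, M i ⊆ U)
    (hUM : ∀ x ∈ U, ∃ i ∈ J, x ∈ M i) (hglue : Glue (sw G B) M)
    (x : ι → α) (hx : ∀ i, x i ∉ M i)
    (hadj : ∀ i, ∀ z ∈ M i, ∀ w ∈ M i, ((sw G B).Adj (x i) z ↔ (sw G B).Adj (x i) w))
    (u₀ : α) (hu₀ : u₀ ∈ U) (𝒯 : Finset (Finset α))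
    (hT : ∀ X ∈ 𝒯, ∃ S : Finset α, S ∩ U = X ∧
      (Nonempty (sw (sw G B) S ≃g K) ∨ Nonempty (sw (sw G B) S ≃g H)))
    (hsep : ∀ X ∈ 𝒯, ∀ X' ∈ 𝒯, (∀ i ∈ J, EK (sw G B) U M (X ∩ M i) (X' ∩ M i)) → X = X') :
    𝒯.card ≤ 4 * (Images G M).ncard := by
  classical
  have hch : ∀ X ∈ 𝒯, ∃ (S : Finset α) (b : Bool) (σ : Equiv.Perm α), S ∩ U = X ∧
      ∀ u v : α, (if b = true then K else H).Adj (σ u) (σ v) ↔ (sw (sw G B) S).Adj u v := by
    intro X hX
    obtain ⟨S, hS, h⟩ := hT X hX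
    rcases h with ⟨⟨e⟩⟩ | ⟨⟨e⟩⟩
    · exact ⟨S, true, e.toEquiv, hS, fun u v => e.map_rel_iff⟩
    · exact ⟨S, false, e.toEquiv, hS, fun u v => e.map_rel_iff⟩
  choose! S b σ hS hσ using hch
  -- reference permutations
  have href : ∃ ρ : Bool → Equiv.Perm α, ∀ X ∈ 𝒯, ∃ X₁ ∈ 𝒯, b X₁ = b X ∧ ρ (b X) = σ X₁ := by
    have h1 : ∀ c : Bool, ∃ ρ : Equiv.Perm α, ∀ X ∈ 𝒯, b X = c → ∃ X₁ ∈ 𝒯, b X₁ = b X ∧
        ρ = σ X₁ := by
      intro c
      by_cases h : ∃ X₁ ∈ 𝒯, b X₁ = c
      · obtain ⟨X₁, hX₁, hb⟩ := h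
        exact ⟨σ X₁, fun X _ hXb => ⟨X₁, hX₁, hb.trans hXb.symm, rfl⟩⟩
      · exact ⟨1, fun X hX hXb => absurd ⟨X, hX, hXb⟩ h⟩
    choose ρ hρ using h1
    exact ⟨ρ, fun X hX => hρ (b X) X hX rfl⟩
  obtain ⟨ρ, hρ⟩ := href
  set Ψ : Finset α → Bool × (ι → Finset α) := fun X =>
    (b X, fun i => (M i).map ((σ X).trans (ρ (b X)).symm).toEmbedding) with hΨ
  set Q : Finset (ι → Finset α) := (Set.toFinite (Images G M)).toFinset with hQ
  have hQc : Q.card = (Images G M).ncard := (Set.ncard_eq_toFinset_card _ _).symm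
  have himg : 𝒯.image Ψ ⊆ (univ : Finset Bool) ×ˢ Q := by
    intro y hy
    obtain ⟨X, hX, rfl⟩ := mem_image.1 hy
    rw [mem_product]
    refine ⟨mem_univ _, ?_⟩
    rw [hQ, Set.Finite.mem_toFinset]
    obtain ⟨X₁, hX₁, hb, hr⟩ := hρ X hX
    refine ⟨(σ X).trans (ρ (b X)).symm, ?_, rfl⟩
    have hiso : ∀ u v : α, (sw (sw G B) (S X₁)).Adj (((σ X).trans (ρ (b X)).symm) u)
        (((σ X).trans (ρ (b X)).symm) v) ↔ (sw (sw G B) (S X)).Adj u v := by
      intro u v
      rw [← hσ X₁ hX₁, ← hσ X hX, hb, hr]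
      simp only [Equiv.trans_apply, Equiv.apply_symm_apply]
    exact classAut_unsw G B _ (classAut_of_iso (sw G B) (S X) (S X₁)
      ⟨(σ X).trans (ρ (b X)).symm, by intro u v; exact hiso u v⟩)
  have hfib : ∀ y ∈ 𝒯.image Ψ, (𝒯.filter fun X => Ψ X = y).card ≤ 2 := by
    intro y _
    by_contra hc
    push Not at hc
    obtain ⟨X₁, h1, X₂, h2, X₃, h3, h12, h13, h23⟩ := Finset.two_lt_card.1 hc
    rw [mem_filter] at h1 h2 h3
    -- comparison of two members of the fibre
    have key : ∀ X ∈ 𝒯, ∀ X' ∈ 𝒯, Ψ X = Ψ X' → X ≠ X' →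
        (∀ i y, ((σ X).trans (σ X').symm) y ∈ M i ↔ y ∈ M i) ∧
        ∀ u ∈ U, ¬ (u ∈ S X ↔ ((σ X).trans (σ X').symm) u ∈ S X') := by
      intro X hX X' hX' hΨX hne
      have hb : b X = b X' := congrArg Prod.fst hΨX
      have hm : ∀ i, (M i).map ((σ X).trans (ρ (b X)).symm).toEmbedding =
          (M i).map ((σ X').trans (ρ (b X')).symm).toEmbedding := fun i =>
        congrFun (congrArg Prod.snd hΨX) i
      have hlam : ∀ i y, ((σ X).trans (σ X').symm) y ∈ M i ↔ y ∈ M i := by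
        intro i y
        have e1 : y ∈ M i ↔ ((σ X).trans (ρ (b X)).symm) y ∈
            (M i).map ((σ X).trans (ρ (b X)).symm).toEmbedding := by
          rw [Finset.mem_map_equiv, Equiv.symm_apply_apply]
        rw [e1, hm i, Finset.mem_map_equiv, ← hb]
        simp [Equiv.trans_apply]
      have hiso : ∀ u v, (sw (sw G B) (S X')).Adj (((σ X).trans (σ X').symm) u)
          (((σ X).trans (σ X').symm) v) ↔ (sw (sw G B) (S X)).Adj u v := by
        intro u v
        rw [← hσ X' hX', ← hσ X hX, hb]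
        simp only [Equiv.trans_apply, Equiv.apply_symm_apply]
      obtain ⟨hd, hE⟩ := pair2 (sw G B) U M J hdisj hMU hUM hglue x hx hadj (S X) (S X')
        ((σ X).trans (σ X').symm) hlam hiso
      refine ⟨hlam, ?_⟩
      rcases hd with hd | hd
      · exfalso
        apply hne
        refine hsep X hX X' hX' fun i hi => ?_
        have := hE hd i hi
        rwa [hS X hX, hS X' hX'] at this
      · exact hd
    obtain ⟨hl12, k12⟩ := key X₁ h1.1 X₂ h2.1 (h1.2.trans h2.2.symm) h12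
    obtain ⟨hl13, k13⟩ := key X₁ h1.1 X₃ h3.1 (h1.2.trans h3.2.symm) h13
    obtain ⟨hl23, k23⟩ := key X₂ h2.1 X₃ h3.1 (h2.2.trans h3.2.symm) h23
    have hU12 : ((σ X₁).trans (σ X₂).symm) u₀ ∈ U := by
      obtain ⟨i, hi, hui⟩ := hUM u₀ hu₀
      exact hMU i hi ((hl12 i u₀).2 hui)
    have a1 := k12 u₀ hu₀
    have a2 := k13 u₀ hu₀
    have a3 := k23 _ hU12
    have e : ((σ X₂).trans (σ X₃).symm) (((σ X₁).trans (σ X₂).symm) u₀) =
        ((σ X₁).trans (σ X₃).symm) u₀ := by
      simp only [Equiv.trans_apply, Equiv.apply_symm_apply]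
    rw [e] at a3
    tauto
  have h1 := Finset.card_le_mul_card_image 𝒯 2 hfib
  have h2 : (𝒯.image Ψ).card ≤ 2 * Q.card := by
    refine (Finset.card_le_card himg).trans ?_
    rw [card_product]
    simp
  rw [hQc] at h2
  omega

/-- **The image bound**, sets of three kinds. -/
theorem image_bound2 [Fintype α] [DecidableEq α] [Fintype ι] (G H : SimpleGraph α)
    (hdeck : SameDeck G H) (hne : ¬ Nonempty (G ≃g H)) (M : ι → Finset α)
    (hdisj : ∀ i j, i ≠ j → Disjoint (M i) (M j)) (hglue : Glue G M) (J : Finset ι) (s : ℕ)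
    (hs1 : 1 ≤ s) (hs : ∀ i ∈ J, Light G M i s) :
    2 ^ ((J.biUnion M).card - (J.biUnion M).card / 2) ≤ (4 * (Images G M).ncard) ^ s := by
  classical
  set U := J.biUnion M with hU
  set q := (Images G M).ncard with hq
  have hq1 : 1 ≤ q := images_pos G M
  have hMU : ∀ i ∈ J, M i ⊆ U := fun i hi => Finset.subset_biUnion_of_mem M hi
  have hUM : ∀ x ∈ U, ∃ i ∈ J, x ∈ M i := fun x hx => Finset.mem_biUnion.1 hx
  rcases U.eq_empty_or_nonempty with h0 | ⟨u₀, hu₀⟩
  · rw [h0, card_empty]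
    exact Nat.one_le_pow _ _ (by omega)
  obtain ⟨i₀, hi₀, hui₀⟩ := hUM u₀ hu₀
  by_cases hone : ∃ i, M i = univ
  · -- all vertices in one set
    obtain ⟨i, hi⟩ := hone
    have hii : i = i₀ := by
      by_contra hne'
      refine Finset.disjoint_left.1 (hdisj i i₀ hne') ?_ hui₀
      rw [hi]
      exact mem_univ _
    subst hii
    have hUi : U = M i := by
      refine Finset.Subset.antisymm ?_ (hMU i hi₀)
      rw [hi]
      exact Finset.subset_univ _
    rcases hs i hi₀ with h1 | h1 | h1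
    · calc 2 ^ (U.card - U.card / 2) ≤ 2 ^ s :=
            Nat.pow_le_pow_right (by norm_num) (by rw [hUi]; omega)
        _ ≤ (4 * q) ^ s := Nat.pow_le_pow_left (by omega) s
    · have h2 := local_bound G H hdeck hne U
      have h3 : (Rest G U).ncard ≤ q * 2 ^ (s - 1) := by
        rw [hUi]
        exact (rest_le G M i).trans (Nat.mul_le_mul_left _ h1)
      calc 2 ^ (U.card - U.card / 2) ≤ 4 * (Rest G U).ncard := h2
        _ ≤ 4 * (q * 2 ^ (s - 1)) := Nat.mul_le_mul_left 4 h3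
        _ = (4 * q) * 2 ^ (s - 1) := by ring
        _ ≤ (4 * q) * (4 * q) ^ (s - 1) :=
            Nat.mul_le_mul_left _ (Nat.pow_le_pow_left (by omega) _)
        _ = (4 * q) ^ s := by rw [← pow_succ']; congr 1; omega
    · exact absurd hi h1.1
  push Not at hone
  have hout : ∀ i, ∃ x, x ∉ M i := by
    intro i
    by_contra hcon
    push Not at hcon
    exact hone i (Finset.eq_univ_iff_forall.2 hcon)
  choose x hx using hout
  obtain ⟨B, hadj⟩ := gauge G M hdisj x hx
  have hglue₀ := glue_sw G B M hglue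
  set G₀ := sw G B with hG₀
  -- the function
  set φ : Finset α → ℚ := fun T => ff G H (symmDiff B T) with hφ
  have hsw : ∀ T, sw G (symmDiff B T) = sw G₀ T := fun T => (sw_sw _ _ _).symm
  have hφsum : ∀ S, ∑ i : α, φ (symmDiff S {i}) = 0 := by
    intro S
    have h1 := sum_ff hdeck (symmDiff B S)
    rw [← h1]
    refine Finset.sum_congr rfl fun i _ => ?_
    simp only [hφ]
    rw [symmDiff_assoc]
  have hφne : ∃ X, φ X ≠ 0 := by
    refine ⟨B, ?_⟩
    obtain ⟨T, hT⟩ := exists_sw hdeck u₀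
    have h1 : 0 < cnt G H := cnt_pos G H T hT
    simp only [hφ]
    rw [symmDiff_self, Finset.bot_eq_empty, ff_empty hne]
    exact h1.ne'
  have hφinv : ∀ τ : Equiv.Perm α, (∀ u v, G₀.Adj (τ u) (τ v) ↔ G₀.Adj u v) →
      ∀ T, φ (T.map τ.toEmbedding) = φ T := by
    intro τ hτ T
    simp only [hφ, ff, hsw]
    have e : ∀ K, ind (sw G₀ (T.map τ.toEmbedding)) K = ind (sw G₀ T) K := fun K =>
      (ind_congr_left K ⟨isoSw (K := G₀) (L := G₀) ⟨τ, by intro a b; exact hτ a b⟩ T⟩).symm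
    rw [e, e]
  have hφor : ∀ T, φ T ≠ 0 → Nonempty (sw G₀ T ≃g G) ∨ Nonempty (sw G₀ T ≃g H) := by
    intro T hT
    by_contra hc
    push Not at hc
    apply hT
    simp only [hφ, ff, hsw]
    rw [ind_of_not _ _ (not_nonempty_iff.2 hc.1), ind_of_not _ _ (not_nonempty_iff.2 hc.2)]
    ring
  obtain ⟨h, hdeg, hnz, hsupp, hinv⟩ := t_HOM α φ hφsum hφne U
  -- labels
  have hrep : ∀ i, ∃ y, (M i).Nonempty → y ∈ M i := by
    intro i
    rcases (M i).eq_empty_or_nonempty with h0 | ⟨y, hy⟩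
    · exact ⟨u₀, fun hh => absurd hh (by rw [h0]; simp)⟩
    · exact ⟨y, fun _ => hy⟩
  choose rep hrep using hrep
  have hlab : ∃ lab : α → α, ∀ i, ∀ x ∈ M i, lab x = rep i := by
    refine ⟨fun x => if h : ∃ i, x ∈ M i then rep h.choose else x, ?_⟩
    intro i x hxi
    have hex : ∃ i, x ∈ M i := ⟨i, hxi⟩
    have h1 : hex.choose = i := by
      by_contra hne'
      exact Finset.disjoint_left.1 (hdisj _ _ hne') hex.choose_spec hxi
    show (if h : ∃ i, x ∈ M i then rep h.choose else x) = rep i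
    rw [dif_pos hex, h1]
  obtain ⟨lab, hlab⟩ := hlab
  have hlabi : ∀ i, ∀ x ∈ M i, ∀ y ∈ U, (lab y = lab x ↔ y ∈ M i) := by
    intro i x hxi y hy
    obtain ⟨j, -, hyj⟩ := hUM y hy
    rw [hlab i x hxi]
    constructor
    · intro h1
      rw [hlab j y hyj] at h1
      have h2 := hrep j ⟨y, hyj⟩
      have h3 := hrep i ⟨x, hxi⟩
      by_cases hij : i = j
      · rw [hij]; exact hyj
      · rw [h1] at h2
        exact absurd h2 (Finset.disjoint_left.1 (hdisj i j hij) h3)
    · intro h1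
      rw [hlab i y h1]
  have hlift : ∀ κ ∈ KK G₀ U M, ∀ i ∈ J, ∃ κ' ∈ KK G₀ U M, (∀ x ∈ M i, κ' x = κ x) ∧
      ∀ x, x ∉ M i → κ' x = x := by
    intro κ hκ i hi
    have hcl : IsClassAut G₀ κ := ⟨∅, fun u v => by rw [sw_empty]; exact hκ.2.1 u v⟩
    exact ⟨loc κ (M i) (hκ.2.2 i), loc_mem G₀ U M hdisj hglue₀ x hx hadj κ hcl hκ.2.2 i (hMU i hi),
      fun y hy => loc_in κ (M i) (hκ.2.2 i) hy, fun y hy => loc_out κ (M i) (hκ.2.2 i) hy⟩
  obtain ⟨𝒯, hT1, hT2, hT3⟩ := tenu_kind U lab (EK G₀ U M) s hs1 (EK_equiv G₀ U M)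
    (by
      rintro X X' ⟨τ, -, rfl⟩
      rw [card_map])
    (by
      intro i'
      by_cases hex : ∃ x ∈ U, lab x = i'
      · obtain ⟨x₁, hxU', hxl⟩ := hex
        obtain ⟨i, hi, hxi⟩ := hUM x₁ hxU'
        have hΛ : (U.filter fun x => lab x = i') = M i := by
          ext y
          rw [mem_filter]
          constructor
          · exact fun hy => (hlabi i x₁ hxi y hy.1).1 (hy.2.trans hxl.symm)
          · exact fun hy => ⟨hMU i hi hy, ((hlabi i x₁ hxi y (hMU i hi hy)).2 hy).trans hxl⟩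
        rw [hΛ]
        rcases hs i hi with h1 | h1 | h1
        · exact Or.inl h1
        · refine Or.inr (Or.inl fun X hX => le_trans ?_ h1)
          exact class_le G B G₀ rfl U M i X hX
        · refine Or.inr (Or.inr ⟨?_, h1.2.2⟩)
          intro X hX X' hX' hXX
          refine twins_EK U M i ?_ X hX X' hX' hXX
          intro z hz w hw
          have hcl : IsClassAut G₀ (Equiv.swap z w) := classAut_sw G B _ (h1.2.1 z hz w hw)
          have hpres := swap_pres M hdisj i z hz w hw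
          have e : loc (Equiv.swap z w) (M i) (hpres i) = Equiv.swap z w := by
            ext y
            by_cases hy : y ∈ M i
            · rw [loc_in _ _ _ hy]
            · rw [loc_out _ _ _ hy, Equiv.swap_apply_of_ne_of_ne
                (fun h => hy (by rw [h]; exact hz)) (fun h => hy (by rw [h]; exact hw))]
          rw [← e]
          exact loc_mem G₀ U M hdisj hglue₀ x hx hadj _ hcl hpres i (hMU i hi)
      · rw [Finset.filter_eq_empty_iff.2 (fun {y} hy hyl => hex ⟨y, hy, hyl⟩)]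
        exact Or.inl (by rw [card_empty]; exact Nat.zero_le _))
    h (U.card / 2)
    (by
      rintro i' X X' Y hXU hX'U hYU ⟨κ, hκ, rfl⟩ hX hY
      rcases X.eq_empty_or_nonempty with h0 | ⟨x₁, hx₁⟩
      · rw [h0]
        simp
      · obtain ⟨i, hi, hx₁i⟩ := hUM x₁ (hXU hx₁)
        have hXi : ∀ y ∈ X, y ∈ M i := fun y hy =>
          (hlabi i x₁ hx₁i y (hXU hy)).1 ((hX y hy).trans (hX x₁ hx₁).symm)
        have hYi : ∀ y ∈ Y, y ∉ M i := by
          intro y hy hyi
          exact hY y hy (((hlabi i x₁ hx₁i y (hYU hy)).2 hyi).trans (hX x₁ hx₁))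
        obtain ⟨κ', hκ', hk1, hk2⟩ := hlift κ hκ i hi
        have hmap : ∀ Z : Finset α, (∀ y ∈ Z, y ∉ M i) →
            (X ∪ Z).map κ'.toEmbedding = X.map κ.toEmbedding ∪ Z := by
          intro Z hZ
          rw [Finset.map_union]
          congr 1
          · ext y
            rw [Finset.mem_map, Finset.mem_map]
            constructor
            · rintro ⟨z, hz, rfl⟩
              exact ⟨z, hz, (hk1 z (hXi z hz)).symm⟩
            · rintro ⟨z, hz, rfl⟩
              exact ⟨z, hz, hk1 z (hXi z hz)⟩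
          · ext y
            rw [Finset.mem_map]
            constructor
            · rintro ⟨z, hz, rfl⟩
              have : κ' z = z := hk2 z (hZ z hz)
              show κ' z ∈ Z
              rw [this]
              exact hz
            · intro hy
              exact ⟨y, hy, hk2 y (hZ y hy)⟩
        refine hinv (X ∪ Y) (union_subset hXU hYU) (X.map κ.toEmbedding ∪ Y)
          (union_subset hX'U hYU) ?_ ?_
        · rw [← hmap Y hYi, card_map]
        · intro Z hZ
          have hZi : ∀ y ∈ Y ∪ Z, y ∉ M i := by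
            intro y hy
            rcases mem_union.1 hy with h1 | h1
            · exact hYi y h1
            · exact fun h2 => Finset.disjoint_left.1 hZ h1 (hMU i hi h2)
          rw [union_assoc, union_assoc, ← hmap (Y ∪ Z) hZi, hφinv κ' hκ'.2.1])
    hdeg hnz
  refine hT3.trans (Nat.pow_le_pow_left ?_ s)
  refine traces_le2 G B G H U M J hdisj hMU hUM hglue₀ x hx hadj u₀ hu₀ 𝒯 ?_ ?_
  · intro X hX
    obtain ⟨hXU, hhX⟩ := hT1 X hX
    obtain ⟨Y, hY, hYne⟩ := hsupp X hXU hhX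
    refine ⟨X ∪ Y, ?_, hφor _ hYne⟩
    rw [union_inter_distrib_right, inter_eq_left.2 hXU, Finset.disjoint_iff_inter_eq_empty.1 hY,
      union_empty]
  · intro X hX X' hX' hE
    refine hT2 X hX X' hX' fun i' => ?_
    by_cases hex : ∃ x ∈ U, lab x = i'
    · obtain ⟨x, hxU', rfl⟩ := hex
      obtain ⟨i, hi, hxi⟩ := hUM x hxU'
      have hfil : ∀ Z ⊆ U, (Z.filter fun y => lab y = lab x) = Z ∩ M i := by
        intro Z hZ
        ext y
        rw [mem_filter, mem_inter]
        constructor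
        · exact fun hy => ⟨hy.1, (hlabi i x hxi y (hZ hy.1)).1 hy.2⟩
        · exact fun hy => ⟨hy.1, (hlabi i x hxi y (hZ hy.1)).2 hy.2⟩
      rw [hfil X (hT1 X hX).1, hfil X' (hT1 X' hX').1]
      exact hE i hi
    · have hemp : ∀ Z ⊆ U, (Z.filter fun y => lab y = i') = ∅ := by
        intro Z hZ
        exact Finset.filter_eq_empty_iff.2 (fun {y} hy hyl => hex ⟨y, hZ hy, hyl⟩)
      rw [hemp X (hT1 X hX).1, hemp X' (hT1 X' hX').1]
      exact (EK_equiv G₀ U M).refl ∅

theorem light_mono [Fintype α] [DecidableEq α] {G : SimpleGraph α} {M : ι → Finset α} {i : ι}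
    {s t : ℕ} (hst : s ≤ t) (h : Light G M i s) : Light G M i t := by
  rcases h with h | h | h
  · exact Or.inl (h.trans hst)
  · exact Or.inr (Or.inl (h.trans (Nat.pow_le_pow_right (by norm_num) (by omega))))
  · exact Or.inr (Or.inr ⟨h.1, h.2.1, h.2.2.trans (Nat.pow_le_pow_right (by omega) hst)⟩)

/-- **Weighted bound.** -/
theorem weighted [Fintype α] [DecidableEq α] [Fintype ι] (G H : SimpleGraph α)
    (hdeck : SameDeck G H) (hne : ¬ Nonempty (G ≃g H)) (M : ι → Finset α)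
    (hdisj : ∀ i j, i ≠ j → Disjoint (M i) (M j)) (hglue : Glue G M) (s : ι → ℕ)
    (hs1 : ∀ i, 1 ≤ s i) (hs : ∀ i, Light G M i (s i)) :
    2 ^ (∑ i, (M i).card / s i) ≤
      (4 * (Images G M).ncard) ^ (4 * (Nat.clog 2 (Fintype.card α) + 1)) := by
  classical
  set L := Nat.clog 2 (Fintype.card α) with hL
  set q := (Images G M).ncard with hq
  have hq1 : 1 ≤ q := images_pos G M
  have hpL : Fintype.card α ≤ 2 ^ L := Nat.le_pow_clog (by norm_num) _
  set J : ℕ → Finset ι := fun a => univ.filter fun i =>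
    s i ≤ (M i).card ∧ Nat.log 2 (s i) = a with hJ
  have hcls : ∀ a, 2 ^ (∑ i ∈ J a, (M i).card / s i) ≤ (4 * q) ^ 4 := by
    intro a
    have h1 := image_bound2 G H hdeck hne M hdisj hglue (J a) (2 ^ (a + 1))
      (Nat.one_le_two_pow) (by
      intro i hi
      rw [hJ, mem_filter] at hi
      refine light_mono ?_ (hs i)
      rw [← hi.2.2]
      exact (Nat.lt_pow_succ_log_self (by norm_num) _).le)
    have h2 : (∑ i ∈ J a, (M i).card / s i) * 2 ^ a ≤ ((J a).biUnion M).card := by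
      rw [Finset.card_biUnion (fun i _ j _ hij => hdisj i j hij), Finset.sum_mul]
      refine Finset.sum_le_sum fun i hi => ?_
      rw [hJ, mem_filter] at hi
      calc (M i).card / s i * 2 ^ a ≤ (M i).card / s i * s i := by
            refine Nat.mul_le_mul_left _ ?_
            rw [← hi.2.2]
            exact Nat.pow_log_le_self 2 (by have := hs1 i; omega)
        _ ≤ (M i).card := Nat.div_mul_le_self _ _
    set u := ((J a).biUnion M).card with hu
    have h3 : 2 ^ ((∑ i ∈ J a, (M i).card / s i) * 2 ^ a) ≤ (2 ^ (u - u / 2)) ^ 2 := by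
      rw [← pow_mul]
      exact Nat.pow_le_pow_right (by norm_num) (by omega)
    have h4 : (2 ^ (u - u / 2)) ^ 2 ≤ ((4 * q) ^ 4) ^ (2 ^ a) := by
      calc (2 ^ (u - u / 2)) ^ 2 ≤ ((4 * q) ^ (2 ^ (a + 1))) ^ 2 := Nat.pow_le_pow_left h1 2
        _ = ((4 * q) ^ 4) ^ (2 ^ a) := by
          rw [← pow_mul, ← pow_mul]
          congr 1
          rw [pow_succ]
          ring
    have h5 : (2 ^ (∑ i ∈ J a, (M i).card / s i)) ^ (2 ^ a) ≤ ((4 * q) ^ 4) ^ (2 ^ a) := by
      rw [← pow_mul]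
      exact h3.trans h4
    exact (Nat.pow_le_pow_iff_left (by positivity)).1 h5
  have hsum : ∑ i, (M i).card / s i = ∑ a ∈ range (L + 1), ∑ i ∈ J a, (M i).card / s i := by
    rw [← Finset.sum_filter_add_sum_filter_not univ (fun i => s i ≤ (M i).card)]
    have h0 : ∑ i ∈ univ.filter (fun i => ¬ s i ≤ (M i).card), (M i).card / s i = 0 := by
      refine Finset.sum_eq_zero fun i hi => ?_
      rw [mem_filter] at hi
      exact Nat.div_eq_of_lt (by omega)
    rw [h0, add_zero]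
    have hmap : ∀ i ∈ univ.filter (fun i => s i ≤ (M i).card),
        Nat.log 2 (s i) ∈ range (L + 1) := by
      intro i hi
      rw [mem_filter] at hi
      rw [mem_range]
      have h1 : s i ≤ 2 ^ L := hi.2.trans ((Finset.card_le_univ _).trans hpL)
      have h2 : Nat.log 2 (s i) ≤ Nat.log 2 (2 ^ L) := Nat.log_mono_right h1
      rw [Nat.log_pow (by norm_num)] at h2
      omega
    rw [← Finset.sum_fiberwise_of_maps_to hmap]
    refine Finset.sum_congr rfl fun a _ => ?_
    rw [Finset.filter_filter]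
  rw [hsum, ← Finset.prod_pow_eq_pow_sum]
  calc ∏ a ∈ range (L + 1), 2 ^ (∑ i ∈ J a, (M i).card / s i) ≤
        ∏ _a ∈ range (L + 1), (4 * q) ^ 4 :=
        Finset.prod_le_prod' fun a _ => hcls a
    _ = (4 * q) ^ (4 * (L + 1)) := by
      rw [Finset.prod_const, card_range, ← pow_mul]

end Pool.Agent.RGP15
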