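import Mathlib
import Pool.Agent.RGP15.Ten2
import Pool.Agent.NTW.MDEG
import Pool.Agent.NTW.MTEN

set_option autoImplicit false

/-!
# Eigenfunctions of the neighbour sum: peeling off a block (helper15)
-/

namespace Pool.Agent.RGP15

open Finset Pool.Agent.NTW Pool.Agent.NTW.MDEG

variable {α : Type} {ι : Type}

/-- `f` is an eigenfunction of the neighbour sum on the subsets of `U`. -/
def Eig [DecidableEq α] (U : Finset α) (θ : ℚ) (f : Finset α → ℚ) : Prop :=
  ∀ Y ⊆ U, ∑ x ∈ U, f (symmDiff Y {x}) = θ * f Y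

theorem Eig.twist [DecidableEq α] {U : Finset α} {θ : ℚ} {f : Finset α → ℚ} (h : Eig U θ f) :
    Eig U (-θ) (fun X => (-1) ^ X.card * f X) := by
  intro Y hY
  have h1 := h Y hY
  calc ∑ x ∈ U, (-1 : ℚ) ^ (symmDiff Y {x}).card * f (symmDiff Y {x})
      = ∑ x ∈ U, (-(-1 : ℚ) ^ Y.card) * f (symmDiff Y {x}) :=
        Finset.sum_congr rfl fun x _ => by rw [sign_toggle]
    _ = (-(-1 : ℚ) ^ Y.card) * ∑ x ∈ U, f (symmDiff Y {x}) := (Finset.mul_sum _ _ _).symm
    _ = -θ * ((-1) ^ Y.card * f Y) := by rw [h1]; ring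

/-- The partial alternating sum. -/
def par [DecidableEq α] (f : Finset α → ℚ) (T Y : Finset α) : ℚ :=
  ∑ S ∈ T.powerset, (-1 : ℚ) ^ S.card * f (S ∪ Y)

/-- the sum of the partial alternating sum after toggling one element of the block -/
def parx [DecidableEq α] (f : Finset α → ℚ) (T Y : Finset α) (x : α) : ℚ :=
  ∑ S ∈ T.powerset, (-1 : ℚ) ^ S.card * f (symmDiff (S ∪ Y) {x})

theorem union_toggle_left [DecidableEq α] (S Y : Finset α) (x : α) (hx : x ∉ Y) :
    symmDiff (S ∪ Y) {x} = symmDiff S {x} ∪ Y := by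
  ext y
  simp only [Finset.mem_symmDiff, Finset.mem_union, Finset.mem_singleton]
  by_cases hyx : y = x
  · subst hyx
    tauto
  · tauto

theorem union_toggle_right [DecidableEq α] (S Y : Finset α) (x : α) (hx : x ∉ S) :
    symmDiff (S ∪ Y) {x} = S ∪ symmDiff Y {x} := by
  rw [Finset.union_comm S Y, union_toggle_left Y S x hx, Finset.union_comm]

theorem parx_in [DecidableEq α] (f : Finset α → ℚ) (T Y : Finset α) (x : α) (hxT : x ∈ T)
    (hxY : x ∉ Y) : parx f T Y x = - par f T Y := by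
  unfold parx par
  rw [← Finset.sum_neg_distrib]
  refine Finset.sum_nbij' (fun S => symmDiff S {x}) (fun S => symmDiff S {x}) ?_ ?_ ?_ ?_ ?_
  · intro S hS
    exact Finset.mem_powerset.2 (toggle_subset hxT (Finset.mem_powerset.1 hS))
  · intro S hS
    exact Finset.mem_powerset.2 (toggle_subset hxT (Finset.mem_powerset.1 hS))
  · intro S _
    exact toggle_toggle S x
  · intro S _
    exact toggle_toggle S x
  · intro S _
    rw [union_toggle_left S Y x hxY, sign_toggle]
    ring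

theorem par_insert [DecidableEq α] (f : Finset α → ℚ) (T Y : Finset α) (x : α) (hxT : x ∉ T)
    (hxY : x ∉ Y) : par f (insert x T) Y = par f T Y - parx f T Y x := by
  unfold parx par
  rw [Finset.sum_powerset_insert hxT, sub_eq_add_neg, ← Finset.sum_neg_distrib]
  congr 1
  refine Finset.sum_congr rfl fun S hS => ?_
  have hxS : x ∉ S := fun h => hxT (Finset.mem_powerset.1 hS h)
  have e : symmDiff S {x} = insert x S := by
    ext y
    simp only [Finset.mem_symmDiff, Finset.mem_singleton, Finset.mem_insert]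
    by_cases hyx : y = x
    · subst hyx
      tauto
    · tauto
  rw [union_toggle_left S Y x hxY, e, Finset.card_insert_of_notMem hxS, pow_succ]
  ring

theorem peel [DecidableEq α] (Λ U : Finset α) (hd : Disjoint Λ U) (θ : ℚ) (f : Finset α → ℚ)
    (heig : Eig (Λ ∪ U) θ f) (hne : ∃ X ⊆ Λ ∪ U, f X ≠ 0) :
    ∃ T ⊆ Λ, (∃ Y ⊆ U, par f T Y ≠ 0) ∧ Eig U (θ - (Λ.card - 2 * T.card)) (par f T) ∧
      ∀ T₁ ⊆ Λ, T.card < T₁.card → ∀ Y ⊆ U, par f T₁ Y = 0 := by
  classical
  have hex : ∃ T ∈ Λ.powerset, ∃ Y ⊆ U, par f T Y ≠ 0 := by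
    by_contra hcon
    obtain ⟨X0, hX0, hf0⟩ := hne
    have hz : ∀ T ⊆ Λ, par f T (X0 ∩ U) = 0 := by
      intro T hT
      by_contra h0
      exact hcon ⟨T, Finset.mem_powerset.2 hT, X0 ∩ U, Finset.inter_subset_right, h0⟩
    have h1 := ten_zero (fun X => f (X ∪ (X0 ∩ U))) Λ (by
      intro T hT
      exact hz T hT) (X0 ∩ Λ) Finset.inter_subset_right
    apply hf0
    have h2 : (X0 ∩ Λ) ∪ (X0 ∩ U) = X0 := by
      rw [← Finset.inter_union_distrib_left]
      exact Finset.inter_eq_left.2 hX0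
    simpa [h2] using h1
  obtain ⟨T0, hT0, hY0⟩ := hex
  obtain ⟨T, hT, hTmax⟩ := Finset.exists_max_image
    (Λ.powerset.filter fun T => ∃ Y ⊆ U, par f T Y ≠ 0) (fun T => T.card)
    ⟨T0, Finset.mem_filter.2 ⟨hT0, hY0⟩⟩
  rw [Finset.mem_filter, Finset.mem_powerset] at hT
  obtain ⟨hTΛ, hTne⟩ := hT
  have hbig : ∀ T₁ ⊆ Λ, T.card < T₁.card → ∀ Y ⊆ U, par f T₁ Y = 0 := by
    intro T₁ hT₁ hlt Y hY
    by_contra h0
    have := hTmax T₁ (Finset.mem_filter.2 ⟨Finset.mem_powerset.2 hT₁, Y, hY, h0⟩)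
    omega
  refine ⟨T, hTΛ, hTne, ?_, hbig⟩
  intro Y hY
  have hxY : ∀ x ∈ Λ, x ∉ Y := fun x hx h => Finset.disjoint_left.1 hd hx (hY h)
  -- sum over the block
  have hblock : ∑ x ∈ Λ, parx f T Y x = (Λ.card - 2 * T.card) * par f T Y := by
    have h1 : ∀ x ∈ Λ, parx f T Y x = par f T Y - (if x ∈ T then 2 * par f T Y else 0) := by
      intro x hx
      by_cases hxT : x ∈ T
      · rw [if_pos hxT, parx_in f T Y x hxT (hxY x hx)]
        ring
      · rw [if_neg hxT]
        have h2 := par_insert f T Y x hxT (hxY x hx)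
        rw [hbig (insert x T) (Finset.insert_subset hx hTΛ)
          (by rw [Finset.card_insert_of_notMem hxT]; omega) Y hY] at h2
        linarith
    rw [Finset.sum_congr rfl h1, Finset.sum_sub_distrib, Finset.sum_const, Finset.sum_ite_mem,
      Finset.inter_eq_right.2 hTΛ, Finset.sum_const, nsmul_eq_mul, nsmul_eq_mul]
    ring
  have htotal : ∑ x ∈ U, par f T (symmDiff Y {x}) + ∑ x ∈ Λ, parx f T Y x = θ * par f T Y := by
    have h1 : ∀ x ∈ U, par f T (symmDiff Y {x}) = parx f T Y x := by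
      intro x hx
      unfold par parx
      refine Finset.sum_congr rfl fun S hS => ?_
      have hxS : x ∉ S := fun h =>
        Finset.disjoint_left.1 hd (hTΛ (Finset.mem_powerset.1 hS h)) hx
      rw [union_toggle_right S Y x hxS]
    rw [Finset.sum_congr rfl h1, add_comm, ← Finset.sum_union hd]
    unfold parx par
    rw [Finset.sum_comm, Finset.mul_sum]
    refine Finset.sum_congr rfl fun S hS => ?_
    rw [← Finset.mul_sum, heig (S ∪ Y) (Finset.union_subset_union
      ((Finset.mem_powerset.1 hS).trans hTΛ) hY)]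
    ring
  rw [hblock] at htotal
  linarith

end Pool.Agent.RGP15
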