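import Mathlib
import Pool.Agent.RGP15.Peel

set_option autoImplicit false

/-!
# The weighted counting lemma (helper15)

The blocks are peeled off in the order of decreasing exponents; the sign of the eigenvalue decides whether the function
or its sign twist is peeled.
-/

namespace Pool.Agent.RGP15

open Finset Pool.Agent.NTW Pool.Agent.NTW.MDEG

variable {α : Type} {ι : Type}

/-- The conclusion of the counting lemma. -/
def Fam [DecidableEq α] (M : ι → Finset α) (E : Finset α → Finset α → Prop) (s : ι → ℕ)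
    (J : Finset ι) (w : ℝ) (f : Finset α → ℚ) (θ : ℚ) : Prop :=
  ∃ 𝒯 : Finset (Finset α), 1 ≤ 𝒯.card ∧ (∀ S ∈ 𝒯, S ⊆ J.biUnion M ∧ f S ≠ 0) ∧
    (∀ S ∈ 𝒯, ∀ S' ∈ 𝒯, (∀ i ∈ J, E (S ∩ M i) (S' ∩ M i)) → S = S') ∧
    (∑ i ∈ J, ((M i).card : ℝ) / s i) / 2 + |(θ : ℝ)| * w / 2 ≤ Real.logb 2 𝒯.card

/-- Invariance inside the blocks. -/
def Inv [DecidableEq α] (M : ι → Finset α) (E : Finset α → Finset α → Prop) (J : Finset ι)
    (f : Finset α → ℚ) : Prop :=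
  ∀ i ∈ J, ∀ X X' Y : Finset α, X ⊆ M i → X' ⊆ M i → Y ⊆ J.biUnion M → Disjoint Y (M i) →
    E X X' → f (X ∪ Y) = f (X' ∪ Y)

theorem tenw_step [DecidableEq α] [DecidableEq ι] (M : ι → Finset α)
    (hdisj : ∀ i j, i ≠ j → Disjoint (M i) (M j)) (E : Finset α → Finset α → Prop)
    (hE : Equivalence E) (s : ι → ℕ) (hs1 : ∀ i, 1 ≤ s i) (J : Finset ι) (i : ι) (hi : i ∈ J)
    (hOK : BlockOK (M i) E (s i))
    (ih : ∀ (f : Finset α → ℚ) (θ : ℚ), Inv M E (J.erase i) f →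
      Eig ((J.erase i).biUnion M) θ f → (∃ X ⊆ (J.erase i).biUnion M, f X ≠ 0) →
      Fam M E s (J.erase i) (1 / (s i : ℝ)) f θ)
    (w : ℝ) (hwi : w ≤ 1 / (s i : ℝ)) (f : Finset α → ℚ) (θ : ℚ)
    (hθ : 0 ≤ θ) (hinv : Inv M E J f) (heig : Eig (J.biUnion M) θ f)
    (hne : ∃ X ⊆ J.biUnion M, f X ≠ 0) : Fam M E s J w f θ := by
  obtain ⟨Λ, hΛ⟩ : ∃ Λ : Finset α, Λ = M i := ⟨_, rfl⟩
  obtain ⟨U, hU⟩ : ∃ U : Finset α, U = (J.erase i).biUnion M := ⟨_, rfl⟩
  have hUU : J.biUnion M = Λ ∪ U := by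
    rw [hΛ, hU, ← Finset.biUnion_insert, Finset.insert_erase hi]
  have hdis : Disjoint Λ U := by
    rw [hΛ, hU, Finset.disjoint_biUnion_right]
    intro j hj
    exact hdisj i j (Finset.ne_of_mem_erase hj).symm
  have hUJ : U ⊆ J.biUnion M := by rw [hUU]; exact Finset.subset_union_right
  have hΛJ : Λ ⊆ J.biUnion M := by rw [hUU]; exact Finset.subset_union_left
  rw [hUU] at heig hne
  obtain ⟨T, hTΛ, hTne, hgeig, hbig⟩ := peel Λ U hdis θ f heig hne
  have hginv : Inv M E (J.erase i) (par f T) := by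
    intro j hj X X' Y hX hX' hY hYj hXX
    unfold par
    refine Finset.sum_congr rfl fun S hS => ?_
    rw [Finset.mem_powerset] at hS
    congr 1
    rw [Finset.union_left_comm S X Y, Finset.union_left_comm S X' Y]
    refine hinv j (Finset.mem_of_mem_erase hj) X X' (S ∪ Y) hX hX' ?_ ?_ hXX
    · exact Finset.union_subset ((hS.trans hTΛ).trans hΛJ) ((hU ▸ hY : Y ⊆ U).trans hUJ)
    · rw [Finset.disjoint_union_left]
      refine ⟨?_, hYj⟩
      exact Finset.disjoint_of_subset_left (hS.trans (hTΛ.trans hΛ.subset))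
        (hdisj i j (Finset.ne_of_mem_erase hj).symm)
  obtain ⟨𝒯', h0', h1', h2', h3'⟩ := ih (par f T) _ hginv (hU ▸ hgeig) (hU ▸ hTne)
  rw [← hU] at h1'
  -- one block
  have hone : ∀ Y ∈ 𝒯', ∃ 𝒯 : Finset (Finset α), (∀ X ∈ 𝒯, X ⊆ Λ ∧ f (X ∪ Y) ≠ 0) ∧
      (∀ X ∈ 𝒯, ∀ X' ∈ 𝒯, E X X' → X = X') ∧ 2 ^ (Λ.card - T.card) ≤ 𝒯.card ^ s i := by
    intro Y hY
    obtain ⟨hYU, hgY⟩ := h1' Y hY
    have hYi : Disjoint Y (M i) := by
      rw [← hΛ]
      exact Finset.disjoint_of_subset_left hYU hdis.symm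
    rw [← hΛ] at hOK
    refine hOK (fun X => f (X ∪ Y)) T.card ?_ ?_ ?_
    · intro X hX X' hX' hXX'
      exact hinv i hi X X' Y (hΛ ▸ hX) (hΛ ▸ hX') (hYU.trans hUJ) hYi hXX'
    · intro T₁ hT₁ hlt
      exact hbig T₁ hT₁ hlt Y hYU
    · by_contra hcon
      apply hgY
      unfold par
      apply Finset.sum_eq_zero
      intro S hS
      rw [Finset.mem_powerset] at hS
      have h0 : f (S ∪ Y) = 0 := by
        by_contra h
        exact hcon ⟨S, hS.trans hTΛ, h⟩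
      rw [h0, mul_zero]
  choose! 𝒳 hX1 hX2 hX3 using hone
  have hdecX : ∀ Y ∈ 𝒯', ∀ X ∈ 𝒳 Y, (X ∪ Y) ∩ M i = X := by
    intro Y hY X hX
    rw [← hΛ, Finset.union_inter_distrib_right, Finset.inter_eq_left.2 (hX1 Y hY X hX).1,
      Finset.disjoint_iff_inter_eq_empty.1
        (Finset.disjoint_of_subset_left (h1' Y hY).1 hdis.symm), Finset.union_empty]
  have hdecY : ∀ Y ∈ 𝒯', ∀ X ∈ 𝒳 Y, ∀ j ∈ J.erase i, (X ∪ Y) ∩ M j = Y ∩ M j := by
    intro Y hY X hX j hj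
    have hd : Disjoint X (M j) := Finset.disjoint_of_subset_left
      ((hX1 Y hY X hX).1.trans hΛ.subset) (hdisj i j (Finset.ne_of_mem_erase hj).symm)
    rw [Finset.union_inter_distrib_right, Finset.disjoint_iff_inter_eq_empty.1 hd,
      Finset.empty_union]
  have hsep : ∀ Y ∈ 𝒯', ∀ X ∈ 𝒳 Y, ∀ Y' ∈ 𝒯', ∀ X' ∈ 𝒳 Y',
      (∀ j ∈ J, E ((X ∪ Y) ∩ M j) ((X' ∪ Y') ∩ M j)) → X = X' ∧ Y = Y' := by
    intro Y hY X hX Y' hY' X' hX' h
    have hYY : Y = Y' := by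
      apply h2' Y hY Y' hY'
      intro j hj
      have := h j (Finset.mem_of_mem_erase hj)
      rwa [hdecY Y hY X hX j hj, hdecY Y' hY' X' hX' j hj] at this
    subst hYY
    refine ⟨?_, rfl⟩
    have := h i hi
    rw [hdecX Y hY X hX, hdecX Y hY' X' hX'] at this
    exact hX2 Y hY X hX X' hX' this
  have hinj : ∀ Y ∈ 𝒯', ∀ X ∈ 𝒳 Y, ∀ Y' ∈ 𝒯', ∀ X' ∈ 𝒳 Y', X ∪ Y = X' ∪ Y' →
      X = X' ∧ Y = Y' := by
    intro Y hY X hX Y' hY' X' hX' h
    apply hsep Y hY X hX Y' hY' X' hX'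
    intro j _
    rw [h]
    exact hE.refl _
  obtain ⟨𝒯, h𝒯⟩ : ∃ 𝒯 : Finset (Finset α),
    𝒯 = 𝒯'.biUnion fun Y => (𝒳 Y).image fun X => X ∪ Y := ⟨_, rfl⟩
  have h𝒯m : ∀ S, S ∈ 𝒯 ↔ ∃ Y ∈ 𝒯', ∃ X ∈ 𝒳 Y, X ∪ Y = S := by
    intro S
    rw [h𝒯, Finset.mem_biUnion]
    simp only [Finset.mem_image]
  have hcard𝒯 : 𝒯.card = ∑ Y ∈ 𝒯', (𝒳 Y).card := by
    rw [h𝒯, Finset.card_biUnion]
    · apply Finset.sum_congr rfl
      intro Y hY
      apply Finset.card_image_of_injOn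
      intro X hX X' hX' h
      exact (hinj Y hY X hX Y hY X' hX' h).1
    · intro Y hY Y' hY' hne'
      refine Finset.disjoint_left.2 ?_
      intro S hS hS'
      obtain ⟨X, hX, hXS⟩ := Finset.mem_image.1 hS
      obtain ⟨X', hX', hXS'⟩ := Finset.mem_image.1 hS'
      exact hne' (hinj Y hY X hX Y' hY' X' hX' (hXS.trans hXS'.symm)).2
  have hsi : s i ≠ 0 := by have := hs1 i; omega
  have hexn : ∃ n : ℕ, 2 ^ (Λ.card - T.card) ≤ n ^ s i :=
    ⟨2 ^ (Λ.card - T.card), Nat.le_self_pow hsi _⟩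
  set n0 := Nat.find hexn with hn0
  have hn0s : 2 ^ (Λ.card - T.card) ≤ n0 ^ s i := Nat.find_spec hexn
  have hn01 : 1 ≤ n0 := by
    by_contra hcon
    have h0 : n0 = 0 := by omega
    rw [h0, zero_pow hsi] at hn0s
    have := Nat.one_le_two_pow (n := Λ.card - T.card)
    omega
  have hcl : n0 * 𝒯'.card ≤ 𝒯.card := by
    rw [hcard𝒯, Nat.mul_comm, ← smul_eq_mul]
    apply Finset.card_nsmul_le_sum
    intro Y hY
    exact Nat.find_min' hexn (hX3 Y hY)
  have hTc : T.card ≤ Λ.card := Finset.card_le_card hTΛ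
  refine ⟨𝒯, le_trans (Nat.mul_le_mul hn01 h0') hcl, ?_, ?_, ?_⟩
  · intro S hS
    obtain ⟨Y, hY, X, hX, rfl⟩ := (h𝒯m S).1 hS
    rw [hUU]
    exact ⟨Finset.union_subset_union (hX1 Y hY X hX).1 (h1' Y hY).1, (hX1 Y hY X hX).2⟩
  · intro S hS S' hS' h
    obtain ⟨Y, hY, X, hX, rfl⟩ := (h𝒯m S).1 hS
    obtain ⟨Y', hY', X', hX', rfl⟩ := (h𝒯m S').1 hS'
    obtain ⟨e1, e2⟩ := hsep Y hY X hX Y' hY' X' hX' h
    rw [e1, e2]
  · have hspos : (0 : ℝ) < s i := by exact_mod_cast Nat.pos_of_ne_zero hsi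
    have hlog1 : ((Λ.card : ℝ) - T.card) / s i ≤ Real.logb 2 n0 := by
      rw [div_le_iff₀ hspos, mul_comm, ← Real.logb_pow]
      rw [Real.le_logb_iff_rpow_le (by norm_num) (by positivity), ← Nat.cast_sub hTc,
        Real.rpow_natCast]
      exact_mod_cast hn0s
    have hlog2 : Real.logb 2 n0 + Real.logb 2 𝒯'.card ≤ Real.logb 2 𝒯.card := by
      have hp1 : (0 : ℝ) < n0 := by exact_mod_cast hn01
      have hp2 : (0 : ℝ) < 𝒯'.card := by exact_mod_cast h0'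
      rw [← Real.logb_mul hp1.ne' hp2.ne']
      refine Real.logb_le_logb_of_le (by norm_num) (by positivity) ?_
      exact_mod_cast hcl
    have hsum : ∑ j ∈ J, ((M j).card : ℝ) / s j =
        (Λ.card : ℝ) / s i + ∑ j ∈ J.erase i, ((M j).card : ℝ) / s j := by
      rw [hΛ, Finset.add_sum_erase J (fun j => ((M j).card : ℝ) / s j) hi]
    have hθR : (0 : ℝ) ≤ (θ : ℝ) := by exact_mod_cast hθ
    have habs : (θ : ℝ) - (Λ.card - 2 * T.card) ≤ |((θ - (Λ.card - 2 * T.card) : ℚ) : ℝ)| := by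
      refine le_trans (le_of_eq ?_) (le_abs_self _)
      push_cast
      ring
    have hw2 : |(θ : ℝ)| * w ≤ θ * (1 / s i) := by
      rw [abs_of_nonneg hθR]
      exact mul_le_mul_of_nonneg_left hwi hθR
    have hkey : ((θ : ℝ) - (Λ.card - 2 * T.card)) * (1 / s i) ≤
        |((θ - (Λ.card - 2 * T.card) : ℚ) : ℝ)| * (1 / s i) :=
      mul_le_mul_of_nonneg_right habs (by positivity)
    have e : ((Λ.card : ℝ) - T.card) / s i =
        (Λ.card : ℝ) / s i / 2 + ((Λ.card : ℝ) - 2 * T.card) * (1 / s i) / 2 := by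
      field_simp
      ring
    rw [hsum]
    nlinarith

theorem tenw [DecidableEq α] [DecidableEq ι] (M : ι → Finset α)
    (hdisj : ∀ i j, i ≠ j → Disjoint (M i) (M j)) (E : Finset α → Finset α → Prop)
    (hE : Equivalence E) (hcard : ∀ X X', E X X' → X.card = X'.card) (s : ι → ℕ)
    (hs1 : ∀ i, 1 ≤ s i) :
    ∀ (n : ℕ) (J : Finset ι), J.card = n → (∀ i ∈ J, BlockOK (M i) E (s i)) →
      ∀ (w : ℝ), (∀ i ∈ J, w ≤ 1 / (s i : ℝ)) → ∀ (f : Finset α → ℚ) (θ : ℚ),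
      Inv M E J f → Eig (J.biUnion M) θ f → (∃ X ⊆ J.biUnion M, f X ≠ 0) →
      Fam M E s J w f θ := by
  intro n
  induction n with
  | zero =>
    intro J hJ _ w _ f θ _ heig hne
    rw [Finset.card_eq_zero] at hJ
    subst hJ
    obtain ⟨X, hX, hfX⟩ := hne
    rw [Finset.biUnion_empty] at hX heig
    have hX0 : X = ∅ := Finset.subset_empty.1 hX
    subst hX0
    have h1 := heig ∅ (Finset.Subset.refl _)
    rw [Finset.sum_empty] at h1
    have hθ : θ = 0 := by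
      rcases mul_eq_zero.1 h1.symm with h | h
      · exact h
      · exact absurd h hfX
    refine ⟨{∅}, by simp, ?_, ?_, ?_⟩
    · intro S hS
      rw [Finset.mem_singleton] at hS
      subst hS
      exact ⟨Finset.empty_subset _, hfX⟩
    · intro S hS S' hS' _
      rw [Finset.mem_singleton] at hS hS'
      rw [hS, hS']
    · rw [hθ]
      simp
  | succ n ih =>
    intro J hJ hOK w hw f θ hinv heig hne
    have hJne : J.Nonempty := Finset.card_pos.1 (by omega)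
    obtain ⟨i, hi, hmax⟩ := Finset.exists_max_image J s hJne
    have hstep := tenw_step M hdisj E hE s hs1 J i hi (hOK i hi)
      (fun f θ h1 h2 h3 => ih (J.erase i) (by rw [Finset.card_erase_of_mem hi]; omega)
        (fun j hj => hOK j (Finset.mem_of_mem_erase hj)) (1 / (s i : ℝ)) (by
          intro j hj
          have h1 : (s j : ℝ) ≤ s i := by exact_mod_cast hmax j (Finset.mem_of_mem_erase hj)
          have h2 : (0 : ℝ) < s j := by exact_mod_cast hs1 j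
          exact one_div_le_one_div_of_le h2 h1) f θ h1 h2 h3) w (hw i hi)
    rcases le_total 0 θ with hθ | hθ
    · exact hstep f θ hθ hinv heig hne
    · -- sign twist
      have hne' : ∃ X ⊆ J.biUnion M, (-1 : ℚ) ^ X.card * f X ≠ 0 := by
        obtain ⟨X, hX, hfX⟩ := hne
        exact ⟨X, hX, mul_ne_zero (pow_ne_zero _ (by norm_num)) hfX⟩
      have hinv' : Inv M E J (fun X => (-1 : ℚ) ^ X.card * f X) := by
        intro j hj X X' Y hX hX' hY hYj hXX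
        show (-1 : ℚ) ^ (X ∪ Y).card * f (X ∪ Y) = (-1 : ℚ) ^ (X' ∪ Y).card * f (X' ∪ Y)
        have h1 : Disjoint X Y := Finset.disjoint_of_subset_left hX hYj.symm
        have h2 : Disjoint X' Y := Finset.disjoint_of_subset_left hX' hYj.symm
        rw [hinv j hj X X' Y hX hX' hY hYj hXX, Finset.card_union_of_disjoint h1,
          Finset.card_union_of_disjoint h2, hcard X X' hXX]
      obtain ⟨𝒯, h0, h1, h2, h3⟩ := hstep _ (-θ) (by linarith) hinv' heig.twist hne'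
      refine ⟨𝒯, h0, fun S hS => ⟨(h1 S hS).1, ?_⟩, h2, ?_⟩
      · exact right_ne_zero_of_mul (h1 S hS).2
      · rwa [Rat.cast_neg, abs_neg] at h3

end Pool.Agent.RGP15
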