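import Mathlib
import Pool.Agent.RGP15.Main2
import Pool.Agent.RGP15.TenW

set_option autoImplicit false

/-!
# The weighted image bound (helper15)
-/

namespace Pool.Agent.RGP15

open Finset Pool.Agent.NTW Pool.Agent.Lib_helper61.SwitchBasic

variable {α : Type} {ι : Type}

/-- **The weighted image bound.** -/
theorem image_bound3 [Fintype α] [DecidableEq α] [Fintype ι] (G H : SimpleGraph α)
    (hdeck : SameDeck G H) (hne : ¬ Nonempty (G ≃g H)) (M : ι → Finset α)
    (hdisj : ∀ i j, i ≠ j → Disjoint (M i) (M j)) (hglue : Glue G M) (J : Finset ι) (s : ι → ℕ)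
    (hs1 : ∀ i, 1 ≤ s i) (hs : ∀ i ∈ J, Light G M i (s i)) :
    ∑ i ∈ J, ((M i).card : ℝ) / s i ≤ 2 * Real.logb 2 (4 * (Images G M).ncard) := by
  classical
  set U := J.biUnion M with hU
  set q := (Images G M).ncard with hq
  have hq1 : 1 ≤ q := images_pos G M
  have hqR : (1 : ℝ) ≤ q := by exact_mod_cast hq1
  have hL2 : (2 : ℝ) ≤ Real.logb 2 (4 * q) := by
    rw [Real.le_logb_iff_rpow_le (by norm_num) (by positivity)]
    norm_num
    linarith
  have hMU : ∀ i ∈ J, M i ⊆ U := fun i hi => Finset.subset_biUnion_of_mem M hi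
  have hUM : ∀ x ∈ U, ∃ i ∈ J, x ∈ M i := fun x hx => Finset.mem_biUnion.1 hx
  have hspos : ∀ i, (0 : ℝ) < s i := fun i => by exact_mod_cast hs1 i
  rcases U.eq_empty_or_nonempty with h0 | ⟨u₀, hu₀⟩
  · have hz : ∑ i ∈ J, ((M i).card : ℝ) / s i = 0 := by
      refine Finset.sum_eq_zero fun i hi => ?_
      have : M i = ∅ := Finset.subset_empty.1 (h0 ▸ hMU i hi)
      rw [this, card_empty]
      simp
    rw [hz]
    linarith
  obtain ⟨i₀, hi₀, hui₀⟩ := hUM u₀ hu₀
  by_cases hone : ∃ i, M i = univ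
  · -- all vertices in one set
    obtain ⟨i, hi⟩ := hone
    have hii : i = i₀ := by
      by_contra hne'
      refine Finset.disjoint_left.1 (hdisj i i₀ hne') ?_ hui₀
      rw [hi]
      exact mem_univ _
    subst hii
    have hoth : ∀ j, j ≠ i → M j = ∅ := by
      intro j hj
      have h := hdisj i j hj.symm
      rw [hi] at h
      exact Finset.eq_empty_of_forall_notMem fun x hx =>
        Finset.disjoint_left.1 h (mem_univ x) hx
    have hsum : ∑ j ∈ J, ((M j).card : ℝ) / s j = ((M i).card : ℝ) / s i := by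
      refine Finset.sum_eq_single_of_mem i hi₀ fun j _ hj => ?_
      rw [hoth j hj, card_empty]
      simp
    rw [hsum, div_le_iff₀ (hspos i)]
    have hs1R : (1 : ℝ) ≤ s i := by exact_mod_cast hs1 i
    rcases hs i hi₀ with h1 | h1 | h1
    · have h1R : ((M i).card : ℝ) ≤ s i := by exact_mod_cast h1
      nlinarith
    · have h2 := local_bound G H hdeck hne (M i)
      have h3 : (Rest G (M i)).ncard ≤ q * 2 ^ (s i - 1) :=
        (rest_le G M i).trans (Nat.mul_le_mul_left _ h1)
      have h4 : 2 ^ ((M i).card - (M i).card / 2) ≤ 4 * q * 2 ^ (s i - 1) := by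
        calc 2 ^ ((M i).card - (M i).card / 2) ≤ 4 * (Rest G (M i)).ncard := h2
          _ ≤ 4 * (q * 2 ^ (s i - 1)) := Nat.mul_le_mul_left 4 h3
          _ = 4 * q * 2 ^ (s i - 1) := by ring
      have h5 : (((M i).card - (M i).card / 2 : ℕ) : ℝ) ≤ Real.logb 2 (4 * q) + (s i - 1) := by
        have h6 : Real.logb 2 ((2 : ℝ) ^ ((M i).card - (M i).card / 2)) ≤
            Real.logb 2 (4 * q * 2 ^ (s i - 1)) := by
          refine Real.logb_le_logb_of_le (by norm_num) (by positivity) ?_
          exact_mod_cast h4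
        rw [Real.logb_pow, Real.logb_self_eq_one (by norm_num), mul_one,
          Real.logb_mul (by positivity) (by positivity), Real.logb_pow,
          Real.logb_self_eq_one (by norm_num), mul_one, Nat.cast_sub (hs1 i), Nat.cast_one] at h6
        exact h6
      have h7 : ((M i).card : ℝ) ≤ 2 * (((M i).card - (M i).card / 2 : ℕ) : ℝ) := by
        have : (M i).card ≤ 2 * ((M i).card - (M i).card / 2) := by omega
        exact_mod_cast this
      nlinarith
    · exact absurd hi h1.1
  push Not at hone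
  have hout : ∀ i, ∃ x, x ∉ M i := by
    intro i
    by_contra hcon
    push Not at hcon
    exact hone i (Finset.eq_univ_iff_forall.2 hcon)
  choose x hx using hout
  obtain ⟨B, hadj⟩ := gauge G M hdisj x hx
  have hglue₀ := glue_sw G B M hglue
  set G₀ := sw G B with hG₀
  -- the function
  set φ : Finset α → ℚ := fun T => ff G H (symmDiff B T) with hφ
  have hsw : ∀ T, sw G (symmDiff B T) = sw G₀ T := fun T => (sw_sw _ _ _).symm
  have hφsum : ∀ S, ∑ i : α, φ (symmDiff S {i}) = 0 := by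
    intro S
    have h1 := sum_ff hdeck (symmDiff B S)
    rw [← h1]
    refine Finset.sum_congr rfl fun i _ => ?_
    simp only [hφ]
    rw [symmDiff_assoc]
  have hφne : ∃ X, φ X ≠ 0 := by
    refine ⟨B, ?_⟩
    obtain ⟨T, hT⟩ := exists_sw hdeck u₀
    have h1 : 0 < cnt G H := cnt_pos G H T hT
    simp only [hφ]
    rw [symmDiff_self, Finset.bot_eq_empty, ff_empty hne]
    exact h1.ne'
  have hφinv : ∀ τ : Equiv.Perm α, (∀ u v, G₀.Adj (τ u) (τ v) ↔ G₀.Adj u v) →
      ∀ T, φ (T.map τ.toEmbedding) = φ T := by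
    intro τ hτ T
    simp only [hφ, ff, hsw]
    have e : ∀ K, ind (sw G₀ (T.map τ.toEmbedding)) K = ind (sw G₀ T) K := fun K =>
      (ind_congr_left K ⟨isoSw (K := G₀) (L := G₀) ⟨τ, by intro a b; exact hτ a b⟩ T⟩).symm
    rw [e, e]
  have hφor : ∀ T, φ T ≠ 0 → Nonempty (sw G₀ T ≃g G) ∨ Nonempty (sw G₀ T ≃g H) := by
    intro T hT
    by_contra hc
    push Not at hc
    apply hT
    simp only [hφ, ff, hsw]
    rw [ind_of_not _ _ (not_nonempty_iff.2 hc.1), ind_of_not _ _ (not_nonempty_iff.2 hc.2)]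
    ring
  have hlift : ∀ κ ∈ KK G₀ U M, ∀ i ∈ J, ∃ κ' ∈ KK G₀ U M, (∀ x ∈ M i, κ' x = κ x) ∧
      ∀ x, x ∉ M i → κ' x = x := by
    intro κ hκ i hi
    have hcl : IsClassAut G₀ κ := ⟨∅, fun u v => by rw [sw_empty]; exact hκ.2.1 u v⟩
    exact ⟨loc κ (M i) (hκ.2.2 i), loc_mem G₀ U M hdisj hglue₀ x hx hadj κ hcl hκ.2.2 i (hMU i hi),
      fun y hy => loc_in κ (M i) (hκ.2.2 i) hy, fun y hy => loc_out κ (M i) (hκ.2.2 i) hy⟩
  -- invariance of the function
  have hinvφ : ∀ i ∈ J, ∀ X X' Z : Finset α, X ⊆ M i → Disjoint Z (M i) → EK G₀ U M X X' →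
      φ (X ∪ Z) = φ (X' ∪ Z) := by
    rintro i hi X X' Z hX hZ ⟨κ, hκ, rfl⟩
    obtain ⟨κ', hκ', hk1, hk2⟩ := hlift κ hκ i hi
    have hZi : ∀ y ∈ Z, y ∉ M i := fun y hy => Finset.disjoint_left.1 hZ hy
    have hmap : (X ∪ Z).map κ'.toEmbedding = X.map κ.toEmbedding ∪ Z := by
      rw [Finset.map_union]
      congr 1
      · ext y
        rw [Finset.mem_map, Finset.mem_map]
        constructor
        · rintro ⟨z, hz, rfl⟩
          exact ⟨z, hz, (hk1 z (hX hz)).symm⟩
        · rintro ⟨z, hz, rfl⟩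
          exact ⟨z, hz, hk1 z (hX hz)⟩
      · ext y
        rw [Finset.mem_map]
        constructor
        · rintro ⟨z, hz, rfl⟩
          have : κ' z = z := hk2 z (hZi z hz)
          show κ' z ∈ Z
          rw [this]
          exact hz
        · intro hy
          exact ⟨y, hy, hk2 y (hZi y hy)⟩
    rw [← hmap, hφinv κ' hκ'.2.1]
  -- peel the vertices outside `U`
  have huniv : Uᶜ ∪ U = univ := by
    rw [Finset.union_comm]
    exact Finset.union_compl U
  have heig : Eig (Uᶜ ∪ U) 0 φ := by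
    intro Y _
    rw [huniv, zero_mul]
    exact hφsum Y
  obtain ⟨T, hTU, hTne, hgeig, -⟩ := peel Uᶜ U disjoint_compl_left 0 φ heig (by
    obtain ⟨X, hX⟩ := hφne
    exact ⟨X, by rw [huniv]; exact Finset.subset_univ _, hX⟩)
  have hTd : ∀ S ∈ T.powerset, Disjoint S U := by
    intro S hS
    exact Finset.disjoint_of_subset_left ((Finset.mem_powerset.1 hS).trans hTU)
      disjoint_compl_left
  have hginv : Inv M (EK G₀ U M) J (par φ T) := by
    intro i hi X X' Y hX hX' hY hYi hXX
    unfold par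
    refine Finset.sum_congr rfl fun S hS => ?_
    congr 1
    rw [Finset.union_left_comm S X Y, Finset.union_left_comm S X' Y]
    refine hinvφ i hi X X' (S ∪ Y) hX ?_ hXX
    rw [Finset.disjoint_union_left]
    exact ⟨Finset.disjoint_of_subset_right (hMU i hi) (hTd S hS), hYi⟩
  have hOK : ∀ i ∈ J, BlockOK (M i) (EK G₀ U M) (s i) := by
    intro i hi
    refine blockOK_kind (M i) (EK G₀ U M) (s i) (hs1 i) (EK_equiv G₀ U M) ?_ ?_
    · rintro X X' ⟨τ, -, rfl⟩
      rw [card_map]
    · rcases hs i hi with h1 | h1 | h1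
      · exact Or.inl h1
      · refine Or.inr (Or.inl fun X hX => le_trans ?_ h1)
        exact class_le G B G₀ rfl U M i X hX
      · refine Or.inr (Or.inr ⟨?_, h1.2.2⟩)
        intro X hX X' hX' hXX
        refine twins_EK U M i ?_ X hX X' hX' hXX
        intro z hz w hw
        have hcl : IsClassAut G₀ (Equiv.swap z w) := classAut_sw G B _ (h1.2.1 z hz w hw)
        have hpres := swap_pres M hdisj i z hz w hw
        have e : loc (Equiv.swap z w) (M i) (hpres i) = Equiv.swap z w := by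
          ext y
          by_cases hy : y ∈ M i
          · rw [loc_in _ _ _ hy]
          · rw [loc_out _ _ _ hy, Equiv.swap_apply_of_ne_of_ne
              (fun h => hy (by rw [h]; exact hz)) (fun h => hy (by rw [h]; exact hw))]
        rw [← e]
        exact loc_mem G₀ U M hdisj hglue₀ x hx hadj _ hcl hpres i (hMU i hi)
  obtain ⟨𝒯, hT0, hT1, hT2, hT3⟩ := tenw M hdisj (EK G₀ U M) (EK_equiv G₀ U M)
    (by
      rintro X X' ⟨τ, -, rfl⟩
      rw [card_map])
    s hs1 J.card J rfl hOK 0 (fun i _ => by have := hspos i; positivity) (par φ T) _ hginv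
    hgeig hTne
  have hTq : 𝒯.card ≤ 4 * q := by
    refine traces_le2 G B G H U M J hdisj hMU hUM hglue₀ x hx hadj u₀ hu₀ 𝒯 ?_ hT2
    intro X hX
    obtain ⟨hXU, hgX⟩ := hT1 X hX
    have hex : ∃ S ∈ T.powerset, φ (S ∪ X) ≠ 0 := by
      by_contra hcon
      push Not at hcon
      apply hgX
      unfold par
      exact Finset.sum_eq_zero fun S hS => by rw [hcon S hS, mul_zero]
    obtain ⟨S, hS, hφS⟩ := hex
    refine ⟨S ∪ X, ?_, hφor _ hφS⟩
    rw [union_inter_distrib_right, inter_eq_left.2 hXU,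
      Finset.disjoint_iff_inter_eq_empty.1 (hTd S hS), empty_union]
  have h5 : Real.logb 2 𝒯.card ≤ Real.logb 2 (4 * q) := by
    have hp : (0 : ℝ) < 𝒯.card := by exact_mod_cast hT0
    refine Real.logb_le_logb_of_le (by norm_num) hp ?_
    exact_mod_cast hTq
  rw [mul_zero, zero_div, add_zero] at hT3
  linarith

end Pool.Agent.RGP15
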