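import Mathlib
import Pool.Agent.RGP15.Main3
import Pool.Agent.NTW.MHIT

set_option autoImplicit false

/-!
# Well separated vertices and modules (helper15)
-/

namespace Pool.Agent.RGP15

open Finset Pool.Agent.NTW Pool.Agent.Lib_helper61.SwitchBasic

variable {α : Type} {ι : Type}

theorem mem_sep15 [Fintype α] (G : SimpleGraph α) (y z x : α) :
    x ∈ sep G y z ↔ x ≠ y ∧ x ≠ z ∧ ¬ (G.Adj x y ↔ G.Adj x z) := by
  classical
  unfold sep
  simp only [mem_filter, mem_univ, true_and]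

theorem mem_cosep15 [Fintype α] (G : SimpleGraph α) (y z x : α) :
    x ∈ cosep G y z ↔ x ≠ y ∧ x ≠ z ∧ (G.Adj x y ↔ G.Adj x z) := by
  classical
  unfold cosep
  simp only [mem_filter, mem_univ, true_and]

/-- A class automorphism which fixes a vertex separating `y` from `z` and a vertex not separating them does not map `y`
to `z`. -/
theorem not_map [Fintype α] [DecidableEq α] (G : SimpleGraph α) (σ : Equiv.Perm α)
    (hσ : IsClassAut G σ) (y z r r' : α) (hr : r ∈ sep G y z) (hr' : r' ∈ cosep G y z)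
    (h1 : σ r = r) (h2 : σ r' = r') : σ y ≠ z := by
  classical
  intro hyz
  obtain ⟨S, hS⟩ := hσ
  obtain ⟨hry, hrz, hsep⟩ := (mem_sep15 G y z r).1 hr
  obtain ⟨hry', hrz', hcos⟩ := (mem_cosep15 G y z r').1 hr'
  have hrr : r ≠ r' := by
    intro h
    rw [h] at hsep
    exact hsep hcos
  have e1 := hS y r
  have e2 := hS y r'
  have e3 := hS r r'
  rw [hyz, h1, sw_adj, G.adj_comm z r, G.adj_comm y r] at e1
  rw [hyz, h2, sw_adj, G.adj_comm z r', G.adj_comm y r'] at e2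
  rw [h1, h2, sw_adj] at e3
  have n1 : z ≠ r := fun h => hrz h.symm
  have n2 : z ≠ r' := fun h => hrz' h.symm
  have e1' : (G.Adj r z ↔ (z ∈ S ↔ r ∈ S)) ↔ G.Adj r y :=
    ⟨fun h => e1.1 ⟨n1, h⟩, fun h => (e1.2 h).2⟩
  have e2' : (G.Adj r' z ↔ (z ∈ S ↔ r' ∈ S)) ↔ G.Adj r' y :=
    ⟨fun h => e2.1 ⟨n2, h⟩, fun h => (e2.2 h).2⟩
  have e3' : (G.Adj r r' ↔ (r ∈ S ↔ r' ∈ S)) ↔ G.Adj r r' :=
    ⟨fun h => e3.1 ⟨hrr, h⟩, fun h => (e3.2 h).2⟩
  clear e1 e2 e3 hS
  tauto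

/-- A small set whose pointwise stabiliser preserves all well separated sets. -/
theorem exists_R [Fintype α] [DecidableEq α] (G : SimpleGraph α) (M : ι → Finset α)
    (R₀ : Finset α) (D t L : ℕ) (hD : 1 ≤ D) (hR₀ : R₀.card ≤ t * D)
    (hL : Fintype.card α ≤ 2 ^ L)
    (hsep : ∀ i, ∀ y ∈ M i, ∀ z, z ∉ M i →
      D ≤ (sep G y z ∩ R₀).card ∧ D ≤ (cosep G y z ∩ R₀).card) :
    ∃ R : Finset α, R.card ≤ (2 * L + 2) * t ∧
      ∀ σ : Equiv.Perm α, IsClassAut G σ → (∀ r ∈ R, σ r = r) →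
        ∀ i, (M i).map σ.toEmbedding = M i := by
  classical
  set e : {x // x ∈ R₀} ↪ α := Function.Embedding.subtype _ with he
  set pull : Finset α → Finset {x // x ∈ R₀} := fun A => univ.filter fun x => x.1 ∈ A with hpull
  have hpc : ∀ A, (pull A).card = (A ∩ R₀).card := by
    intro A
    rw [← Finset.card_map e]
    congr 1
    ext x
    simp only [Finset.mem_map, mem_inter, hpull, mem_filter, mem_univ, true_and]
    constructor
    · rintro ⟨y, hy, rfl⟩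
      exact ⟨hy, y.2⟩
    · rintro ⟨h1, h2⟩
      exact ⟨⟨x, h2⟩, h1, rfl⟩
  -- good pairs
  set P : Finset (α × α) := univ.filter fun yz => ∃ i, yz.1 ∈ M i ∧ yz.2 ∉ M i with hP
  set 𝒜 : Finset (Finset {x // x ∈ R₀}) :=
    (P.image fun yz => pull (sep G yz.1 yz.2)) ∪ (P.image fun yz => pull (cosep G yz.1 yz.2))
    with h𝒜
  have hcard : 𝒜.card < 2 ^ (2 * L + 2) := by
    have h1 : P.card ≤ 2 ^ L * 2 ^ L := by
      refine (Finset.card_le_univ _).trans ?_
      rw [Fintype.card_prod]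
      exact Nat.mul_le_mul hL hL
    have h2 : 𝒜.card ≤ P.card + P.card :=
      (Finset.card_union_le _ _).trans (Nat.add_le_add Finset.card_image_le Finset.card_image_le)
    have h3 : 2 ^ (2 * L + 2) = 4 * (2 ^ L * 2 ^ L) := by
      rw [pow_add, two_mul, pow_add]
      ring
    have h4 : 0 < 2 ^ L * 2 ^ L := by positivity
    omega
  have hbig : ∀ A ∈ 𝒜, D ≤ A.card := by
    intro A hA
    rw [h𝒜, mem_union, mem_image, mem_image] at hA
    rcases hA with ⟨yz, hyz, rfl⟩ | ⟨yz, hyz, rfl⟩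
    · rw [hP, mem_filter] at hyz
      obtain ⟨-, i, h1, h2⟩ := hyz
      rw [hpc]
      exact (hsep i _ h1 _ h2).1
    · rw [hP, mem_filter] at hyz
      obtain ⟨-, i, h1, h2⟩ := hyz
      rw [hpc]
      exact (hsep i _ h1 _ h2).2
  obtain ⟨R, hR, hhit⟩ := t_HIT {x // x ∈ R₀} 𝒜 D (2 * L + 2) t hD hbig hcard
    (by rw [Fintype.card_coe]; exact hR₀)
  refine ⟨R.map e, by rw [Finset.card_map]; exact hR, ?_⟩
  intro σ hσ hfix i
  have hfix' : ∀ r ∈ R, σ r.1 = r.1 := fun r hr => hfix _ (Finset.mem_map.2 ⟨r, hr, rfl⟩)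
  have hsub : (M i).map σ.toEmbedding ⊆ M i := by
    intro z hz
    obtain ⟨y, hy, rfl⟩ := Finset.mem_map.1 hz
    by_contra hout
    have hyz : (y, σ y) ∈ P := by
      rw [hP, mem_filter]
      exact ⟨mem_univ _, i, hy, hout⟩
    obtain ⟨r, hr⟩ := hhit (pull (sep G y (σ y))) (by
      rw [h𝒜, mem_union]
      exact Or.inl (mem_image.2 ⟨_, hyz, rfl⟩))
    obtain ⟨r', hr'⟩ := hhit (pull (cosep G y (σ y))) (by
      rw [h𝒜, mem_union]
      exact Or.inr (mem_image.2 ⟨_, hyz, rfl⟩))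
    rw [mem_inter, hpull, mem_filter] at hr hr'
    exact not_map G σ hσ y (σ y) r.1 r'.1 hr.1.2 hr'.1.2 (hfix' r hr.2) (hfix' r' hr'.2) rfl
  exact Finset.eq_of_subset_of_card_le hsub (by rw [Finset.card_map])

end Pool.Agent.RGP15
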