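import Mathlib
import Pool.Agent.RGP15.Hit

set_option autoImplicit false

/-!
# Sets whose near vertices are not split from outside (helper15)
-/

namespace Pool.Agent.RGP15

open Finset Pool.Agent.NTW Pool.Agent.Lib_helper61.SwitchBasic

variable {α : Type} {ι : Type}

/-- `y` and `z` are near: fewer than `D` vertices of `R₀` are adjacent to exactly one of them, or fewer than `D` to both or
none. -/
def Near [Fintype α] [DecidableEq α] (G : SimpleGraph α) (R₀ : Finset α) (D : ℕ) (y z : α) :
    Prop :=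
  (sep G y z ∩ R₀).card < D ∨ (cosep G y z ∩ R₀).card < D

/-- `y` and `z` are separated by no vertex outside `C`, or by all vertices outside `C`. -/
def Same (G : SimpleGraph α) (C : Finset α) (y z : α) : Prop :=
  (∀ x, x ∉ C → (G.Adj x y ↔ G.Adj x z)) ∨ (∀ x, x ∉ C → ¬ (G.Adj x y ↔ G.Adj x z))

/-- Few images if few vertices hold all sets in place. -/
theorem images_le [Fintype α] [DecidableEq α] [Fintype ι] (G : SimpleGraph α)
    (M : ι → Finset α) (R : Finset α)
    (hR : ∀ σ : Equiv.Perm α, IsClassAut G σ → (∀ r ∈ R, σ r = r) →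
      ∀ i, (M i).map σ.toEmbedding = M i) :
    (Images G M).ncard ≤ Fintype.card α ^ R.card := by
  classical
  have hch : ∀ Φ : Images G M, ∃ σ : Equiv.Perm α, IsClassAut G σ ∧
      Φ.1 = fun i => (M i).map σ.toEmbedding := fun Φ => Φ.2
  choose σ hσ hΦ using hch
  have hinj : Function.Injective (fun (Φ : Images G M) (r : {x // x ∈ R}) => σ Φ r.1) := by
    intro Φ Ψ h
    have h1 : ∀ r ∈ R, ((σ Φ).trans (σ Ψ).symm) r = r := by
      intro r hr
      have := congrFun h ⟨r, hr⟩
      simp only at this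
      rw [Equiv.trans_apply, this, Equiv.symm_apply_apply]
    have h2 := hR _ (classAut_mul (hσ Φ) (classAut_symm (hσ Ψ))) h1
    apply Subtype.ext
    rw [hΦ Φ, hΦ Ψ]
    funext i
    have h3 := h2 i
    ext x
    rw [Finset.mem_map_equiv, Finset.mem_map_equiv]
    have h4 : (σ Φ).symm x ∈ M i ↔ (σ Ψ).symm x ∈ (M i).map ((σ Φ).trans (σ Ψ).symm).toEmbedding := by
      rw [Finset.mem_map_equiv]
      simp
    rw [h4, h3]
  have h4 := Nat.card_le_card_of_injective _ hinj
  rw [Nat.card_coe_set_eq] at h4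
  refine h4.trans ?_
  rw [Nat.card_eq_fintype_card, Fintype.card_fun, Fintype.card_coe]

/-- Restriction of a class automorphism to a set `C` all of whose vertices are moved to vertices not distinguished from
outside. -/
theorem glue_loc [DecidableEq α] (G : SimpleGraph α) (C : Finset α) (τ : Equiv.Perm α)
    (hτ : IsClassAut G τ) (hC : ∀ x, τ x ∈ C ↔ x ∈ C) (hsame : ∀ y ∈ C, Same G C y (τ y))
    (C' : Finset α) (hdisj : Disjoint C C') (v : α) (hv : v ∈ C') (hτv : τ v ∈ C')
    (hsame' : Same G C' v (τ v)) : IsClassAut G (loc τ C hC) := by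
  classical
  obtain ⟨S, hS⟩ := hτ
  have hout : ∀ u ∈ C, u ∉ C' := fun u hu h => Finset.disjoint_left.1 hdisj hu h
  have hout' : ∀ u ∈ C', u ∉ C := fun u hu h => Finset.disjoint_left.1 hdisj h hu
  obtain ⟨B, hB⟩ : ∃ B : Prop, ∀ u ∈ C,
      ((∀ x, x ∉ C → (G.Adj x u ↔ G.Adj x (τ u))) → (τ u ∈ S ↔ B)) ∧
      ((∀ x, x ∉ C → ¬ (G.Adj x u ↔ G.Adj x (τ u))) → ¬ (τ u ∈ S ↔ B)) := by
    rcases hsame' with h | h
    · refine ⟨τ v ∈ S, fun u hu => ?_⟩
      have e1 := hS u v
      have hne : τ u ≠ τ v := fun h' => by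
        have := τ.injective h'
        exact hout u hu (this ▸ hv)
      rw [sw_adj] at e1
      have e2 := h u (hout u hu)
      have e3 : τ v ∉ C := hout' _ hτv
      constructor
      · intro h1
        have e4 := h1 (τ v) e3
        rw [G.adj_comm (τ v) u, G.adj_comm (τ v) (τ u)] at e4
        tauto
      · intro h1
        have e4 := h1 (τ v) e3
        rw [G.adj_comm (τ v) u, G.adj_comm (τ v) (τ u)] at e4
        tauto
    · refine ⟨¬ τ v ∈ S, fun u hu => ?_⟩
      have e1 := hS u v
      have hne : τ u ≠ τ v := fun h' => by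
        have := τ.injective h'
        exact hout u hu (this ▸ hv)
      rw [sw_adj] at e1
      have e2 := h u (hout u hu)
      have e3 : τ v ∉ C := hout' _ hτv
      constructor
      · intro h1
        have e4 := h1 (τ v) e3
        rw [G.adj_comm (τ v) u, G.adj_comm (τ v) (τ u)] at e4
        tauto
      · intro h1
        have e4 := h1 (τ v) e3
        rw [G.adj_comm (τ v) u, G.adj_comm (τ v) (τ u)] at e4
        tauto
  obtain ⟨S', hS'⟩ : ∃ S' : Finset α, ∀ x, x ∈ S' ↔ x ∈ C ∧ ¬ (x ∈ S ↔ B) :=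
    ⟨C.filter fun x => ¬ (x ∈ S ↔ B), fun x => Finset.mem_filter⟩
  have hcase : ∀ u ∈ C, ∀ w, w ∉ C →
      ((sw G S').Adj (loc τ C hC u) (loc τ C hC w) ↔ G.Adj u w) := by
    intro u hu w hw
    rw [loc_in τ C hC hu, loc_out τ C hC hw, sw_adj]
    have hne : τ u ≠ w := fun h => hw (h ▸ (hC u).2 hu)
    have h1 := hS' (τ u)
    have h2 := hS' w
    have h3 := (hC u).2 hu
    rcases hsame u hu with h | h
    · have e1 := (hB u hu).1 h
      have e2 := h w hw
      rw [G.adj_comm w u, G.adj_comm w (τ u)] at e2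
      tauto
    · have e1 := (hB u hu).2 h
      have e2 := h w hw
      rw [G.adj_comm w u, G.adj_comm w (τ u)] at e2
      tauto
  refine ⟨S', fun u w => ?_⟩
  by_cases hu : u ∈ C
  · by_cases hw : w ∈ C
    · have e1 := hS u w
      rw [loc_in τ C hC hu, loc_in τ C hC hw, sw_adj]
      rw [sw_adj] at e1
      have h1 := hS' (τ u)
      have h2 := hS' (τ w)
      have h3 := (hC u).2 hu
      have h4 := (hC w).2 hw
      tauto
    · exact hcase u hu w hw
  · by_cases hw : w ∈ C
    · rw [(sw G S').adj_comm, G.adj_comm u w]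
      exact hcase w hw u hu
    · rw [loc_out τ C hC hu, loc_out τ C hC hw, sw_adj]
      have h1 := hS' u
      have h2 := hS' w
      constructor
      · rintro ⟨h, h'⟩
        tauto
      · intro h
        exact ⟨h.ne, by tauto⟩

/-- **The stabiliser bound.** -/
theorem stab_bound [Fintype α] [DecidableEq α] (G : SimpleGraph α) (X : Finset α)
    (H : SimpleGraph α) (hdeck : SameDeck (sw G X) H) (hne : ¬ Nonempty (sw G X ≃g H)) (k : ℕ)
    (M : Fin k → Finset α) (hdisj : ∀ i j, i ≠ j → Disjoint (M i) (M j))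
    (hnon : ∀ i, (M i).Nonempty) (R : Finset α)
    (hR : ∀ σ : Equiv.Perm α, IsClassAut G σ → (∀ r ∈ R, σ r = r) →
      ∀ i, (M i).map σ.toEmbedding = M i)
    (hR' : ∀ σ : Equiv.Perm α, IsClassAut G σ → (∀ r ∈ R, σ r = r) →
      ∀ i, ∀ y ∈ M i, Same G (M i) y (σ y)) :
    (k : ℝ) ≤ 4 + 2 * R.card * Real.logb 2 (Fintype.card α) := by
  classical
  have hlog0 : 0 ≤ Real.logb 2 (Fintype.card α : ℝ) := by
    rcases Nat.eq_zero_or_pos (Fintype.card α) with h0 | hpos
    · rw [h0]
      simp
    · exact Real.logb_nonneg (by norm_num) (by exact_mod_cast hpos)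
  rcases Nat.lt_or_ge k 2 with hk | hk
  · have h1 : (k : ℝ) ≤ 1 := by
      have : k ≤ 1 := by omega
      exact_mod_cast this
    have h2 : 0 ≤ 2 * (R.card : ℝ) * Real.logb 2 (Fintype.card α) := by positivity
    linarith
  obtain ⟨N, hN⟩ : ∃ N : (Fin k ⊕ {x // x ∈ R}) → Finset α,
      N = Sum.elim (fun i => M i \ R) (fun r => {r.1}) := ⟨_, rfl⟩
  have hN1 : ∀ i, N (Sum.inl i) = M i \ R := fun i => by rw [hN]; rfl
  have hN2 : ∀ r, N (Sum.inr r) = {r.1} := fun r => by rw [hN]; rfl
  have hdisjN : ∀ i j, i ≠ j → Disjoint (N i) (N j) := by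
    rintro (i | r) (j | s) hij
    · rw [hN1, hN1]
      have : i ≠ j := fun h => hij (by rw [h])
      exact Finset.disjoint_of_subset_left sdiff_subset
        (Finset.disjoint_of_subset_right sdiff_subset (hdisj i j this))
    · rw [hN1, hN2, Finset.disjoint_singleton_right, mem_sdiff]
      exact fun h => h.2 s.2
    · rw [hN1, hN2, Finset.disjoint_singleton_left, mem_sdiff]
      exact fun h => h.2 r.2
    · rw [hN2, hN2, Finset.disjoint_singleton]
      exact fun h => hij (by rw [Subtype.ext h])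
  have hglue : Glue G N := by
    intro τ hτ hpres j κ hκ1 hκ2
    have hfix : ∀ r ∈ R, τ r = r := by
      intro r hr
      have h := (hpres (Sum.inr ⟨r, hr⟩) r).2 (by rw [hN2]; exact mem_singleton_self _)
      rw [hN2] at h
      exact mem_singleton.1 h
    have hM : ∀ i x, τ x ∈ M i ↔ x ∈ M i := by
      intro i x
      have h := hR τ hτ hfix i
      conv_lhs => rw [← h]
      rw [Finset.mem_map_equiv, Equiv.symm_apply_apply]
    rcases j with i | r
    · obtain ⟨i', hi'⟩ : ∃ i' : Fin k, i ≠ i' := by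
        rcases eq_or_ne i ⟨0, by omega⟩ with h | h
        · exact ⟨⟨1, by omega⟩, by rw [h]; intro h'; exact absurd (congrArg Fin.val h') (by norm_num)⟩
        · exact ⟨_, h⟩
      obtain ⟨v, hv⟩ := hnon i'
      have h1 := glue_loc G (M i) τ hτ (hM i) (fun y hy => hR' τ hτ hfix i y hy) (M i')
        (hdisj i i' hi') v hv ((hM i' v).2 hv) (hR' τ hτ hfix i' v hv)
      have e : κ = loc τ (M i) (hM i) := by
        ext x
        by_cases hx : x ∈ M i
        · rw [loc_in _ _ _ hx]
          by_cases hxR : x ∈ R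
          · rw [hκ2 x (by rw [hN1, mem_sdiff]; exact fun h => h.2 hxR), hfix x hxR]
          · exact hκ1 x (by rw [hN1, mem_sdiff]; exact ⟨hx, hxR⟩)
        · rw [loc_out _ _ _ hx]
          exact hκ2 x (by rw [hN1, mem_sdiff]; exact fun h => hx h.1)
      rw [e]
      exact h1
    · have e : κ = 1 := by
        ext x
        by_cases hx : x = r.1
        · rw [hκ1 x (by rw [hN2, hx]; exact mem_singleton_self _), hx, hfix r.1 r.2]
          rfl
        · rw [hκ2 x (by rw [hN2]; exact fun h => hx (mem_singleton.1 h))]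
          rfl
      rw [e]
      exact classAut_one G
  have hglue' : Glue (sw G X) N := glue_sw G X N hglue
  have himg : Images (sw G X) N = Images G N := by
    ext Φ
    constructor
    · rintro ⟨σ, h, h'⟩
      exact ⟨σ, classAut_unsw G X σ h, h'⟩
    · rintro ⟨σ, h, h'⟩
      exact ⟨σ, classAut_sw G X σ h, h'⟩
  obtain ⟨J, hJ⟩ : ∃ J : Finset (Fin k ⊕ {x // x ∈ R}), J = univ.filter fun j => (N j).Nonempty :=
    ⟨_, rfl⟩
  have hJm : ∀ j, j ∈ J ↔ (N j).Nonempty := by
    intro j
    rw [hJ, mem_filter]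
    simp
  have hb := image_bound3 (sw G X) H hdeck hne N hdisjN hglue' J (fun j => max 1 (N j).card)
    (fun j => le_max_left _ _) (fun j _ => Or.inl (le_max_right _ _))
  have hsum : ∑ j ∈ J, ((N j).card : ℝ) / ((max 1 (N j).card : ℕ) : ℝ) = J.card := by
    rw [Finset.card_eq_sum_ones, Nat.cast_sum]
    refine Finset.sum_congr rfl fun j hj => ?_
    have h1 : 1 ≤ (N j).card := Finset.card_pos.2 ((hJm j).1 hj)
    rw [max_eq_right h1, Nat.cast_one]
    have : (0 : ℝ) < (N j).card := by exact_mod_cast h1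
    exact div_self this.ne'
  rw [hsum, himg] at hb
  have hkJ : k ≤ J.card := by
    have hex : ∀ i : Fin k, ∃ j ∈ J, N j ⊆ M i := by
      intro i
      by_cases h : (M i \ R).Nonempty
      · exact ⟨Sum.inl i, by rw [hJm, hN1]; exact h, by rw [hN1]; exact sdiff_subset⟩
      · obtain ⟨r, hr⟩ := hnon i
        have hrR : r ∈ R := by
          by_contra hcon
          exact h ⟨r, mem_sdiff.2 ⟨hr, hcon⟩⟩
        refine ⟨Sum.inr ⟨r, hrR⟩, ?_, ?_⟩
        · rw [hJm, hN2]
          exact singleton_nonempty _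
        · rw [hN2, singleton_subset_iff]
          exact hr
    choose f hfJ hfM using hex
    have hinj : Function.Injective f := by
      intro i i' h
      by_contra hii
      obtain ⟨x, hx⟩ := (hJm _).1 (hfJ i)
      exact Finset.disjoint_left.1 (hdisj i i' hii) (hfM i hx) (hfM i' (h ▸ hx))
    have h1 := Finset.card_le_card_of_injOn (s := univ) f (fun i _ => hfJ i) hinj.injOn
    rwa [Finset.card_univ, Fintype.card_fin] at h1
  have hq : (Images G N).ncard ≤ Fintype.card α ^ R.card := by
    refine images_le G N R fun σ hσ hfix j => ?_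
    rcases j with i | r
    · rw [hN1]
      have h := hR σ hσ hfix i
      ext x
      rw [Finset.mem_map_equiv, mem_sdiff, mem_sdiff]
      have h1 : σ.symm x ∈ M i ↔ x ∈ M i := by
        conv_rhs => rw [← h]
        rw [Finset.mem_map_equiv]
      have h2 : σ.symm x ∈ R ↔ x ∈ R := by
        constructor
        · intro hx
          have := hfix _ hx
          rw [Equiv.apply_symm_apply] at this
          rwa [← this] at hx
        · intro hx
          have e := hfix x hx
          have : σ.symm x = x := by rw [Equiv.symm_apply_eq]; exact e.symm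
          rw [this]
          exact hx
      rw [h1, h2]
    · rw [hN2]
      ext x
      rw [Finset.mem_map_equiv, mem_singleton, mem_singleton, Equiv.symm_apply_eq,
        hfix r.1 r.2]
  have hq1 : 1 ≤ (Images G N).ncard := images_pos G N
  have hqR : (0 : ℝ) < (Images G N).ncard := by exact_mod_cast hq1
  have h4 : Real.logb 2 (4 : ℝ) = 2 := by
    rw [show (4 : ℝ) = (2 : ℝ) ^ (2 : ℕ) by norm_num, Real.logb_pow,
      Real.logb_self_eq_one (by norm_num)]
    norm_num
  have h2 : ((Images G N).ncard : ℝ) ≤ (Fintype.card α : ℝ) ^ R.card := by exact_mod_cast hq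
  have h3 : Real.logb 2 (Images G N).ncard ≤ Real.logb 2 ((Fintype.card α : ℝ) ^ R.card) :=
    Real.logb_le_logb_of_le (by norm_num) hqR h2
  rw [Real.logb_pow] at h3
  rw [Real.logb_mul (by norm_num) hqR.ne', h4] at hb
  have h5 : (k : ℝ) ≤ J.card := by exact_mod_cast hkJ
  linarith

/-- A small set whose pointwise stabiliser moves every vertex to a near vertex. -/
theorem exists_R_near [Fintype α] [DecidableEq α] (G : SimpleGraph α)
    (R₀ : Finset α) (D t L : ℕ) (hD : 1 ≤ D) (hR₀ : R₀.card ≤ t * D)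
    (hL : Fintype.card α ≤ 2 ^ L) :
    ∃ R : Finset α, R.card ≤ (2 * L + 2) * t ∧
      ∀ σ : Equiv.Perm α, IsClassAut G σ → (∀ r ∈ R, σ r = r) → ∀ y, Near G R₀ D y (σ y) := by
  classical
  set e : {x // x ∈ R₀} ↪ α := Function.Embedding.subtype _ with he
  set pull : Finset α → Finset {x // x ∈ R₀} := fun A => univ.filter fun x => x.1 ∈ A with hpull
  have hpc : ∀ A, (pull A).card = (A ∩ R₀).card := by
    intro A
    rw [← Finset.card_map e]
    congr 1
    ext x
    simp only [Finset.mem_map, mem_inter, hpull, mem_filter, mem_univ, true_and]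
    constructor
    · rintro ⟨y, hy, rfl⟩
      exact ⟨hy, y.2⟩
    · rintro ⟨h1, h2⟩
      exact ⟨⟨x, h2⟩, h1, rfl⟩
  -- good pairs
  set P : Finset (α × α) := univ.filter fun yz => ¬ Near G R₀ D yz.1 yz.2 with hP
  set 𝒜 : Finset (Finset {x // x ∈ R₀}) :=
    (P.image fun yz => pull (sep G yz.1 yz.2)) ∪ (P.image fun yz => pull (cosep G yz.1 yz.2))
    with h𝒜
  have hcard : 𝒜.card < 2 ^ (2 * L + 2) := by
    have h1 : P.card ≤ 2 ^ L * 2 ^ L := by
      refine (Finset.card_le_univ _).trans ?_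
      rw [Fintype.card_prod]
      exact Nat.mul_le_mul hL hL
    have h2 : 𝒜.card ≤ P.card + P.card :=
      (Finset.card_union_le _ _).trans (Nat.add_le_add Finset.card_image_le Finset.card_image_le)
    have h3 : 2 ^ (2 * L + 2) = 4 * (2 ^ L * 2 ^ L) := by
      rw [pow_add, two_mul, pow_add]
      ring
    have h4 : 0 < 2 ^ L * 2 ^ L := by positivity
    omega
  have hbig : ∀ A ∈ 𝒜, D ≤ A.card := by
    intro A hA
    rw [h𝒜, mem_union, mem_image, mem_image] at hA
    rcases hA with ⟨yz, hyz, rfl⟩ | ⟨yz, hyz, rfl⟩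
    · rw [hP, mem_filter] at hyz
      rw [hpc]
      by_contra hcon
      exact hyz.2 (Or.inl (by omega))
    · rw [hP, mem_filter] at hyz
      rw [hpc]
      by_contra hcon
      exact hyz.2 (Or.inr (by omega))
  obtain ⟨R, hR, hhit⟩ := t_HIT {x // x ∈ R₀} 𝒜 D (2 * L + 2) t hD hbig hcard
    (by rw [Fintype.card_coe]; exact hR₀)
  refine ⟨R.map e, by rw [Finset.card_map]; exact hR, ?_⟩
  intro σ hσ hfix y
  have hfix' : ∀ r ∈ R, σ r.1 = r.1 := fun r hr => hfix _ (Finset.mem_map.2 ⟨r, hr, rfl⟩)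
  by_contra hout
  have hyz : (y, σ y) ∈ P := by
    rw [hP, mem_filter]
    exact ⟨mem_univ _, hout⟩
  obtain ⟨r, hr⟩ := hhit (pull (sep G y (σ y))) (by
    rw [h𝒜, mem_union]
    exact Or.inl (mem_image.2 ⟨_, hyz, rfl⟩))
  obtain ⟨r', hr'⟩ := hhit (pull (cosep G y (σ y))) (by
    rw [h𝒜, mem_union]
    exact Or.inr (mem_image.2 ⟨_, hyz, rfl⟩))
  rw [mem_inter, hpull, mem_filter] at hr hr'
  exact not_map G σ hσ y (σ y) r.1 r'.1 hr.1.2 hr'.1.2 (hfix' r hr.2) (hfix' r' hr'.2) rfl

end Pool.Agent.RGP15
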