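import Mathlib
import Pool.Agent.RGP15.Main3

set_option autoImplicit false

/-!
# Graphs with few twin classes (helper15)
-/

namespace Pool.Agent.RGP15

open Finset Pool.Agent.NTW Pool.Agent.Lib_helper61.SwitchBasic

variable {α : Type} {ι : Type}

/-- Twins up to switching: the transposition is a class automorphism. -/
def Tw [DecidableEq α] (G : SimpleGraph α) (x y : α) : Prop := IsClassAut G (Equiv.swap x y)

theorem tw_conj [DecidableEq α] {G : SimpleGraph α} {σ : Equiv.Perm α} (hσ : IsClassAut G σ)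
    {x y : α} (h : Tw G x y) : Tw G (σ x) (σ y) := by
  unfold Tw at *
  have e : Equiv.swap (σ x) (σ y) = (σ.symm.trans (Equiv.swap x y)).trans σ := by
    ext z
    rw [Equiv.trans_apply, Equiv.trans_apply]
    by_cases h1 : z = σ x
    · subst h1
      rw [Equiv.swap_apply_left, Equiv.symm_apply_apply, Equiv.swap_apply_left]
    · by_cases h2 : z = σ y
      · subst h2
        rw [Equiv.swap_apply_right, Equiv.symm_apply_apply, Equiv.swap_apply_right]
      · rw [Equiv.swap_apply_of_ne_of_ne h1 h2, Equiv.swap_apply_of_ne_of_ne,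
          Equiv.apply_symm_apply]
        · intro h3
          exact h1 (by rw [← h3, Equiv.apply_symm_apply])
        · intro h3
          exact h2 (by rw [← h3, Equiv.apply_symm_apply])
  rw [e]
  exact classAut_mul (classAut_mul (classAut_symm hσ) h) hσ

theorem tw_equiv [DecidableEq α] (G : SimpleGraph α) : Equivalence (Tw G) := by
  refine ⟨fun x => ?_, fun {x y} h => ?_, fun {x y z} h1 h2 => ?_⟩
  · unfold Tw
    rw [Equiv.swap_self]
    exact classAut_one G
  · unfold Tw at *
    rwa [Equiv.swap_comm]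
  · by_cases hxy : x = y
    · rw [hxy]; exact h2
    by_cases hxz : x = z
    · rw [hxz]
      unfold Tw
      rw [Equiv.swap_self]
      exact classAut_one G
    have h3 := tw_conj (σ := Equiv.swap y z) h2 h1
    rwa [Equiv.swap_apply_of_ne_of_ne hxy hxz, Equiv.swap_apply_left] at h3

open Classical in
/-- The twin class of `x`. -/
noncomputable def tcl [Fintype α] [DecidableEq α] (G : SimpleGraph α) (x : α) : Finset α :=
  univ.filter fun y => Tw G x y

theorem mem_tcl [Fintype α] [DecidableEq α] (G : SimpleGraph α) (x y : α) :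
    y ∈ tcl G x ↔ Tw G x y := by
  unfold tcl
  simp only [mem_filter, mem_univ, true_and]

theorem tcl_eq [Fintype α] [DecidableEq α] (G : SimpleGraph α) {x y : α} (h : Tw G x y) :
    tcl G x = tcl G y := by
  ext z
  rw [mem_tcl, mem_tcl]
  exact ⟨fun h1 => (tw_equiv G).trans ((tw_equiv G).symm h) h1, fun h1 => (tw_equiv G).trans h h1⟩

theorem tcl_map [Fintype α] [DecidableEq α] (G : SimpleGraph α) (σ : Equiv.Perm α)
    (hσ : IsClassAut G σ) (x : α) : (tcl G x).map σ.toEmbedding = tcl G (σ x) := by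
  ext z
  rw [Finset.mem_map_equiv, mem_tcl, mem_tcl]
  constructor
  · intro h
    have := tw_conj hσ h
    rwa [Equiv.apply_symm_apply] at this
  · intro h
    have := tw_conj (classAut_symm hσ) h
    rwa [Equiv.symm_apply_apply] at this

theorem tcl_mod [Fintype α] [DecidableEq α] (G : SimpleGraph α) (x : α) :
    IsMod G (tcl G x) := by
  classical
  intro z hz w hw
  rw [mem_tcl] at hz hw
  have hzw : Tw G z w := (tw_equiv G).trans ((tw_equiv G).symm hz) hw
  have hnz : ∀ u, u ∉ tcl G x → u ≠ z := fun u hu h => hu (by rw [h, mem_tcl]; exact hz)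
  have hnw : ∀ u, u ∉ tcl G x → u ≠ w := fun u hu h => hu (by rw [h, mem_tcl]; exact hw)
  obtain ⟨S, hS⟩ := hzw
  have hfix : ∀ u, u ∉ tcl G x → Equiv.swap z w u = u := fun u hu =>
    Equiv.swap_apply_of_ne_of_ne (hnz u hu) (hnw u hu)
  have hconst : ∀ u, u ∉ tcl G x → ∀ v, v ∉ tcl G x → (u ∈ S ↔ v ∈ S) := by
    intro u hu v hv
    by_cases huv : u = v
    · rw [huv]
    have h1 := hS u v
    rw [hfix u hu, hfix v hv, sw_adj] at h1
    tauto
  have hkey : ∀ u, u ∉ tcl G x → ((G.Adj u z ↔ G.Adj u w) ↔ (w ∈ S ↔ u ∈ S)) := by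
    intro u hu
    have h1 := hS z u
    rw [hfix u hu, Equiv.swap_apply_left, sw_adj, G.adj_comm w u, G.adj_comm z u] at h1
    have h2 : w ≠ u := (hnw u hu).symm
    tauto
  by_cases hex : ∃ u, u ∉ tcl G x ∧ (w ∈ S ↔ u ∈ S)
  · obtain ⟨u, hu, h⟩ := hex
    left
    intro v hv
    rw [hkey v hv]
    exact h.trans (hconst u hu v hv)
  · right
    intro v hv h
    exact hex ⟨v, hv, (hkey v hv).1 h⟩

open Classical in
/-- The set of the twin classes. -/
noncomputable def tclasses [Fintype α] [DecidableEq α] (G : SimpleGraph α) :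
    Finset (Finset α) := univ.image fun x => tcl G x

theorem mem_tclasses [Fintype α] [DecidableEq α] (G : SimpleGraph α) (C : Finset α) :
    C ∈ tclasses G ↔ ∃ x, tcl G x = C := by
  unfold tclasses
  simp only [mem_image, mem_univ, true_and]

theorem tclasses_disj [Fintype α] [DecidableEq α] (G : SimpleGraph α) (C D : Finset α)
    (hC : C ∈ tclasses G) (hD : D ∈ tclasses G) (h : C ≠ D) : Disjoint C D := by
  obtain ⟨x, rfl⟩ := (mem_tclasses G C).1 hC
  obtain ⟨y, rfl⟩ := (mem_tclasses G D).1 hD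
  rw [Finset.disjoint_left]
  intro z h1 h2
  rw [mem_tcl] at h1 h2
  exact h (tcl_eq G ((tw_equiv G).trans h1 ((tw_equiv G).symm h2)))

/-- The number of images of the family of the twin classes. -/
theorem images_tcl [Fintype α] [DecidableEq α] (G : SimpleGraph α) :
    (Images G (fun C : {C // C ∈ tclasses G} => C.1)).ncard ≤
      Nat.factorial (tclasses G).card := by
  classical
  have hmem : ∀ Φ ∈ Images G (fun C : {C // C ∈ tclasses G} => C.1), ∀ C, Φ C ∈ tclasses G := by
    rintro Φ ⟨σ, hσ, rfl⟩ ⟨C, hC⟩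
    obtain ⟨x, rfl⟩ := (mem_tclasses G C).1 hC
    show (tcl G x).map σ.toEmbedding ∈ tclasses G
    rw [tcl_map G σ hσ, mem_tclasses]
    exact ⟨_, rfl⟩
  have hinj : ∀ Φ ∈ Images G (fun C : {C // C ∈ tclasses G} => C.1), Function.Injective Φ := by
    rintro Φ ⟨σ, hσ, rfl⟩ C D h
    exact Subtype.ext (Finset.map_injective _ h)
  let F : Images G (fun C : {C // C ∈ tclasses G} => C.1) →
      ({C // C ∈ tclasses G} ↪ {C // C ∈ tclasses G}) := fun Φ =>
    ⟨fun C => ⟨Φ.1 C, hmem Φ.1 Φ.2 C⟩, fun C D h => hinj Φ.1 Φ.2 (congrArg Subtype.val h)⟩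
  have hF : Function.Injective F := by
    intro Φ Ψ h
    apply Subtype.ext
    funext C
    have h1 := DFunLike.congr_fun h C
    exact congrArg Subtype.val h1
  have h4 := Nat.card_le_card_of_injective _ hF
  rw [Nat.card_coe_set_eq] at h4
  refine h4.trans ?_
  rw [Nat.card_eq_fintype_card, Fintype.card_embedding_eq, Fintype.card_coe,
    Nat.descFactorial_self]

theorem exists_s (m : ℕ) (hm : 1 ≤ m) : ∃ s : ℕ, 1 ≤ s ∧ 2 ^ m ≤ (m + 1) ^ s ∧
    Real.logb 2 (m + 1) / 2 ≤ (m : ℝ) / s := by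
  have hex : ∃ s : ℕ, 1 ≤ s ∧ 2 ^ m ≤ (m + 1) ^ s :=
    ⟨m, hm, Nat.pow_le_pow_left (by omega) m⟩
  classical
  obtain ⟨s, hs, hmin⟩ : ∃ s : ℕ, (1 ≤ s ∧ 2 ^ m ≤ (m + 1) ^ s) ∧
      ∀ r < s, ¬ (1 ≤ r ∧ 2 ^ m ≤ (m + 1) ^ r) :=
    ⟨Nat.find hex, Nat.find_spec hex, fun r hr => Nat.find_min hex hr⟩
  refine ⟨s, hs.1, hs.2, ?_⟩
  have hsR : (0 : ℝ) < s := by exact_mod_cast hs.1
  rw [div_le_div_iff₀ (by norm_num) hsR]
  have hlog0 : 0 ≤ Real.logb 2 ((m : ℝ) + 1) := Real.logb_nonneg (by norm_num) (by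
    have : (0 : ℝ) ≤ m := by positivity
    linarith)
  rcases Nat.lt_or_ge s 2 with h1 | h1
  · have h2 : s = 1 := by omega
    subst h2
    have h3 : Real.logb 2 ((m : ℝ) + 1) ≤ m := by
      rw [Real.logb_le_iff_le_rpow (by norm_num) (by positivity), Real.rpow_natCast]
      exact_mod_cast (Nat.lt_two_pow_self (n := m))
    have h4 : (0 : ℝ) ≤ m := by positivity
    push_cast
    linarith
  · have h2 := hmin (s - 1) (by omega)
    have h3 : (m + 1) ^ (s - 1) < 2 ^ m := by
      by_contra hcon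
      exact h2 ⟨by omega, by omega⟩
    have h4 : ((s - 1 : ℕ) : ℝ) * Real.logb 2 ((m : ℝ) + 1) ≤ m := by
      rw [← Real.logb_pow, Real.logb_le_iff_le_rpow (by norm_num) (by positivity),
        Real.rpow_natCast]
      exact_mod_cast h3.le
    rw [Nat.cast_sub hs.1, Nat.cast_one] at h4
    have h5 : (2 : ℝ) ≤ s := by exact_mod_cast h1
    nlinarith

theorem one_add_sum_le {β : Type} (s : Finset β) (a : β → ℕ) :
    1 + ∑ i ∈ s, a i ≤ ∏ i ∈ s, (a i + 1) := by
  classical
  induction s using Finset.induction_on with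
  | empty => simp
  | insert i s hi ih =>
    rw [Finset.sum_insert hi, Finset.prod_insert hi]
    nlinarith [Nat.zero_le (a i * ∑ j ∈ s, a j)]

/-- **Few twin classes.** -/
theorem few_twin_classes [Fintype α] [DecidableEq α] (G H : SimpleGraph α)
    (hdeck : SameDeck G H) (hne : ¬ Nonempty (G ≃g H)) (hN : 2 ≤ (tclasses G).card) :
    Fintype.card α < 256 * (Nat.factorial (tclasses G).card) ^ 4 := by
  classical
  set M : {C // C ∈ tclasses G} → Finset α := fun C => C.1 with hM
  have hdisj : ∀ i j, i ≠ j → Disjoint (M i) (M j) := fun i j hij =>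
    tclasses_disj G i.1 j.1 i.2 j.2 fun h => hij (Subtype.ext h)
  have hmod : ∀ i, IsMod G (M i) := by
    rintro ⟨C, hC⟩
    obtain ⟨x, rfl⟩ := (mem_tclasses G C).1 hC
    exact tcl_mod G x
  have hnon : ∀ i, 1 ≤ (M i).card := by
    rintro ⟨C, hC⟩
    obtain ⟨x, rfl⟩ := (mem_tclasses G C).1 hC
    exact Finset.card_pos.2 ⟨x, (mem_tcl G x x).2 ((tw_equiv G).refl x)⟩
  have hnu : ∀ i, M i ≠ univ := by
    intro i hi
    obtain ⟨C, hC, D, hD, hCD⟩ := Finset.one_lt_card.1 hN
    have : ∃ E ∈ tclasses G, E ≠ i.1 := by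
      by_cases h : C = i.1
      · exact ⟨D, hD, fun h' => hCD (h.trans h'.symm)⟩
      · exact ⟨C, hC, h⟩
    obtain ⟨E, hE, hEi⟩ := this
    have hd := tclasses_disj G E i.1 hE i.2 hEi
    obtain ⟨x, rfl⟩ := (mem_tclasses G E).1 hE
    refine Finset.disjoint_left.1 hd ((mem_tcl G x x).2 ((tw_equiv G).refl x)) ?_
    have : i.1 = univ := hi
    rw [this]
    exact mem_univ x
  have htw : ∀ i, ∀ z ∈ M i, ∀ w ∈ M i, IsClassAut G (Equiv.swap z w) := by
    rintro ⟨C, hC⟩ z hz w hw
    obtain ⟨x, rfl⟩ := (mem_tclasses G C).1 hC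
    exact (tw_equiv G).trans ((tw_equiv G).symm ((mem_tcl G x z).1 hz)) ((mem_tcl G x w).1 hw)
  choose s hs1 hs2 hs3 using fun i => exists_s (M i).card (hnon i)
  have hb := image_bound3 G H hdeck hne M hdisj (glue_of_mod G M hmod) univ s hs1
    (fun i _ => Or.inr (Or.inr ⟨hnu i, htw i, hs2 i⟩))
  have hq1 : 1 ≤ (Images G M).ncard := images_pos G M
  have hqR : (0 : ℝ) < (Images G M).ncard := by exact_mod_cast hq1
  have h1 : ∑ i, Real.logb 2 (((M i).card : ℝ) + 1) ≤
      4 * Real.logb 2 (4 * (Images G M).ncard) := by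
    have h2 : ∑ i, Real.logb 2 (((M i).card : ℝ) + 1) / 2 ≤ ∑ i, ((M i).card : ℝ) / s i :=
      Finset.sum_le_sum fun i _ => hs3 i
    rw [← Finset.sum_div] at h2
    linarith
  have h2 : ∏ i, (((M i).card : ℝ) + 1) ≤ (4 * (Images G M).ncard : ℝ) ^ 4 := by
    have h3 : Real.logb 2 (∏ i, (((M i).card : ℝ) + 1)) ≤
        Real.logb 2 ((4 * (Images G M).ncard : ℝ) ^ 4) := by
      have h4 : Real.logb 2 (∏ i, (((M i).card : ℝ) + 1)) =
          ∑ i, Real.logb 2 (((M i).card : ℝ) + 1) := by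
        apply Real.logb_prod
        intro i _
        positivity
      rw [Real.logb_pow, h4]
      push_cast
      exact h1
    exact (Real.logb_le_logb (by norm_num) (Finset.prod_pos fun i _ => by positivity)
      (by positivity)).1 h3
  have h3 : ∏ i, ((M i).card + 1) ≤ (4 * (Images G M).ncard) ^ 4 := by exact_mod_cast h2
  have hsum : ∑ i, (M i).card = Fintype.card α := by
    rw [← Finset.card_biUnion (fun i _ j _ hij => hdisj i j hij), ← Finset.card_univ]
    congr 1
    ext x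
    simp only [mem_biUnion, mem_univ, true_and, iff_true]
    exact ⟨⟨tcl G x, (mem_tclasses G _).2 ⟨x, rfl⟩⟩, (mem_tcl G x x).2 ((tw_equiv G).refl x)⟩
  have h4 := one_add_sum_le univ fun i => (M i).card
  rw [hsum] at h4
  have h5 := images_tcl G
  calc Fintype.card α < 1 + Fintype.card α := by omega
    _ ≤ (4 * (Images G M).ncard) ^ 4 := h4.trans h3
    _ ≤ (4 * Nat.factorial (tclasses G).card) ^ 4 :=
        Nat.pow_le_pow_left (Nat.mul_le_mul_left 4 h5) 4
    _ = 256 * (Nat.factorial (tclasses G).card) ^ 4 := by ring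

end Pool.Agent.RGP15
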